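import Pool.Agent.H931.RC.Good
import Pool.Graph.R_seed8.Helper395.BC.Twist
import Pool.Graph.R_seed8.W518.EG.TGen

/-!
# Regularity of good line bundles
-/

set_option autoImplicit false
set_option linter.unusedSectionVars false

open scoped WithZero
open Pool.Agent.Helper395.CS hiding genus
open Pool.Agent.Helper395.BC
open Pool.Agent.W518.PC (lpow)
open Pool.Agent.W45.PCG (lpow_degree)

namespace Pool.Agent.H931.RC

variable {K : Type} [Field K] [Algebra ℂ K]

theorem mem_Hn (L : LineBundle K) (n : ℕ) (z : K) :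
    z ∈ H0 (lpow L n) ↔ ∀ w : Point K, w.val z ≤ w.val (L.frame w : K) ^ n := by
  refine forall_congr' fun w => ?_
  change w.val z ≤ w.val ((L.frame w ^ (n : ℤ) : Kˣ) : K) ↔ _
  rw [zpow_natCast, Units.val_pow_eq_pow_val, map_pow]

theorem lpow_frame (L : LineBundle K) (n : ℕ) (w : Point K) :
    w.val ((lpow L n).frame w : K) = w.val (L.frame w : K) ^ n := by
  change w.val ((L.frame w ^ (n : ℤ) : Kˣ) : K) = _
  rw [zpow_natCast, Units.val_pow_eq_pow_val, map_pow]

theorem mul_mem_Hn {L : LineBundle K} {n m : ℕ} {a b : K} (ha : a ∈ H0 (lpow L n))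
    (hb : b ∈ H0 (lpow L m)) : a * b ∈ H0 (lpow L (n + m : ℕ)) := by
  rw [mem_Hn] at ha hb ⊢
  intro w
  rw [map_mul, pow_add]
  exact mul_le_mul' (ha w) (hb w)

theorem pow_mem_Hn {L : LineBundle K} {x : K} (hx : x ∈ H0 L) (n : ℕ) : x ^ n ∈ H0 (lpow L n) := by
  rw [mem_Hn]
  intro w
  rw [map_pow]
  exact pow_le_pow_left' (hx w) n

theorem hmon_mem {L : LineBundle K} {x : Fin 4 → K} (hx : ∀ i, x i ∈ H0 L) (t n : ℕ) (q : Ix t n) :
    hmon t n x q ∈ H0 (lpow L n) := by
  have h1 := mul_mem_Hn (pow_mem_Hn (hx 0) (n - (q.1 : ℕ) - (q.2.2 : ℕ)))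
    (mul_mem_Hn (pow_mem_Hn (hx 1) (q.2.2 : ℕ))
      (mul_mem_Hn (pow_mem_Hn (hx 2) (q.2.1 : ℕ)) (pow_mem_Hn (hx 3) ((q.1 : ℕ) - (q.2.1 : ℕ)))))
  have h2 : n - (q.1 : ℕ) - (q.2.2 : ℕ) + ((q.2.2 : ℕ) + ((q.2.1 : ℕ) +
      ((q.1 : ℕ) - (q.2.1 : ℕ)))) = n := by
    obtain ⟨k, i, b⟩ := q
    have hi := i.2
    have hb := b.2
    simp only
    omega
  rw [h2] at h1
  exact h1

/-- `H¹(M) = 0` -/
def Van (hK : IsCurve K) (hg : genus K ≠ 0) (M : LineBundle K) : Prop :=
  H0 (lmul (can hK hg) (linv M)) = ⊥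

variable (hK : IsCurve K) (hg : genus K ≠ 0)

theorem van_iff (M : LineBundle K) :
    Van hK hg M ↔ (Module.finrank ℂ (H0 M) : ℤ) = M.degree + 1 - genus K := by
  have h1 := (rrL hK hg M).2
  have hfin := H0_finite hK hg (lmul (can hK hg) (linv M))
  rw [Van, ← Submodule.finrank_eq_zero (R := ℂ)]
  omega

include hK hg in
theorem finrank_ge (M : LineBundle K) :
    M.degree + 1 - genus K ≤ (Module.finrank ℂ (H0 M) : ℤ) := by
  have h1 := (rrL hK hg M).2
  omega

variable {hK hg} in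
theorem Van.of_le {M R : LineBundle K} (hM : Van hK hg M) {x : K} (hx : x ≠ 0)
    (h : ∀ w : Point K, w.val x * w.val (M.frame w : K) ≤ w.val (R.frame w : K)) :
    Van hK hg R := by
  rw [Van, Submodule.eq_bot_iff] at hM ⊢
  intro z hz
  have h1 : z * x ∈ H0 (lmul (can hK hg) (linv M)) := by
    intro w
    rw [mem_lmul_linv]
    have h2 := hz w
    rw [mem_lmul_linv] at h2
    have h3 : w.val (z * (R.frame w : K)) ≤ w.val ((can hK hg).frame w : K) := h2
    change w.val (z * x * (M.frame w : K)) ≤ w.val ((can hK hg).frame w : K)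
    refine le_trans ?_ h3
    rw [map_mul, map_mul, map_mul, mul_assoc]
    exact mul_le_mul' le_rfl (h w)
  exact (mul_eq_zero.1 (hM _ h1)).resolve_right hx

/-- the frame of `M(-v)` -/
theorem lsub_frame (M : LineBundle K) (v w : Point K) :
    w.val ((lsub M v).frame w : K) = w.val (M.frame w : K) * (w.val ((lpt v).frame w : K))⁻¹ := by
  change w.val ((M.frame w * ((lpt v).frame w)⁻¹ : Kˣ) : K) = _
  rw [Units.val_mul, map_mul, Units.val_inv_eq_inv_val, map_inv₀]

theorem one_le_lpt (v w : Point K) : 1 ≤ w.val ((lpt v).frame w : K) := by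
  rcases eq_or_ne w v with rfl | hw
  · exact frame_lt_self.le
  · rw [lpt_frame_ne hw, Units.val_one, map_one]

theorem lsub_frame_le (M : LineBundle K) (v w : Point K) :
    w.val ((lsub M v).frame w : K) ≤ w.val (M.frame w : K) := by
  rw [lsub_frame]
  exact mul_le_of_le_one_right' (inv_le_one_of_one_le₀ (one_le_lpt v w))

include hK hg in
theorem finrank_lsub_ge (M : LineBundle K) (v : Point K) :
    (Module.finrank ℂ (H0 M) : ℤ) - 1 ≤ Module.finrank ℂ (H0 (lsub M v)) := by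
  have h1 := (rrL hK hg M).2
  have h2 := (rrL hK hg (lsub M v)).2
  rw [lsub_degree] at h2
  have h3 : Module.finrank ℂ (H0 (lmul (can hK hg) (linv M))) ≤
      Module.finrank ℂ (H0 (lmul (can hK hg) (linv (lsub M v)))) := by
    have hfin := H0_finite hK hg (lmul (can hK hg) (linv (lsub M v)))
    refine Submodule.finrank_mono ?_
    intro z hz w
    rw [mem_lmul_linv]
    have h4 := hz w
    rw [mem_lmul_linv] at h4
    have h5 : w.val (z * (M.frame w : K)) ≤ w.val ((can hK hg).frame w : K) := h4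
    change w.val (z * ((lsub M v).frame w : K)) ≤ w.val ((can hK hg).frame w : K)
    refine le_trans ?_ h5
    rw [map_mul, map_mul]
    exact mul_le_mul' le_rfl (lsub_frame_le M v w)
  omega

/-- the data of a good pair with coordinates -/
structure GData (t g d : ℕ) (K : Type) [Field K] [Algebra ℂ K] (L : LineBundle K)
    (x : Fin 4 → K) : Prop where
  hK : IsCurve K
  hgen : genus K = g
  ht : 3 ≤ t
  hd : 2 * d = t * (t + 1)
  hg : 6 * ((g : ℤ) - 1) = t * (t + 1) * (2 * t - 5)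
  deg : L.degree = d
  h4 : Module.finrank ℂ (H0 L) = 4
  h1 : (Module.finrank ℂ (H0 (lpow L ((t - 2 : ℕ) : ℤ))) : ℤ) = (t - 2 : ℕ) * d + 1 - g
  hx : ∀ i, x i ∈ H0 L
  ind : LinearIndependent ℂ (hmon t t x)

namespace GData

variable {t g d : ℕ} {L : LineBundle K} {x : Fin 4 → K} (G : GData t g d K L x)

include G

theorem g0 : genus K ≠ 0 := by
  rw [G.hgen]
  rintro rfl
  have h1 := G.hg
  have h2 := G.ht
  have h5 : (3 : ℤ) ≤ t := by exact_mod_cast h2
  have h8 : (0 : ℤ) < t * (t + 1) * (2 * t - 5) :=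
    mul_pos (mul_pos (by omega) (by omega)) (by omega)
  push_cast at h1
  omega

theorem d_pos : 0 < d := by
  have h1 := G.hd
  have h2 := G.ht
  have h3 : 0 < t * (t + 1) := Nat.mul_pos (by omega) (by omega)
  omega

theorem card (n : ℕ) (h : t ≤ n + 2) : (Fintype.card (Ix t n) : ℤ) = n * d + 1 - g := by
  have h2 := card_Ix t n h
  have h3 : (2 * d : ℤ) = t * (t + 1) := by exact_mod_cast G.hd
  have h4 : (6 : ℤ) * (Fintype.card (Ix t n)) = 6 * (n * d + 1 - g) := by
    rw [h2]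
    linear_combination (-3 * n : ℤ) * h3 + G.hg
  exact mul_left_cancel₀ (by norm_num) h4

theorem x0_ne : x 0 ≠ 0 := by
  intro h0
  have ht := G.ht
  have h1 := G.ind.ne_zero (⟨⟨0, by omega⟩, ⟨⟨0, by simp⟩, ⟨0, by simp⟩⟩⟩ : Ix t t)
  apply h1
  simp only [hmon]
  rw [h0]
  simp
  omega

theorem x1_ne : x 1 ≠ 0 := by
  intro h0
  have ht := G.ht
  have h1 := G.ind.ne_zero (⟨⟨0, by omega⟩, ⟨⟨0, by simp⟩, ⟨1, by simp; omega⟩⟩⟩ : Ix t t)
  apply h1
  simp only [hmon]
  rw [h0]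
  simp

/-- `H¹(L^n) = 0` for `n ≥ t - 2` -/
theorem van (n : ℕ) (hn : t - 2 ≤ n) : Van G.hK G.g0 (lpow L n) := by
  induction n, hn using Nat.le_induction with
  | base =>
    rw [van_iff, G.h1, lpow_degree, G.deg, G.hgen]
  | succ n hn ih =>
    refine ih.of_le G.x0_ne fun w => ?_
    rw [lpow_frame, lpow_frame, pow_succ']
    exact mul_le_mul' (G.hx 0 w) le_rfl

theorem finrank_Hn (n : ℕ) (hn : t - 2 ≤ n) :
    (Module.finrank ℂ (H0 (lpow L n)) : ℤ) = n * d + 1 - g := by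
  rw [(van_iff G.hK G.g0 _).1 (G.van n hn), lpow_degree, G.deg, G.hgen]

theorem finrank_Hn' (n : ℕ) (hn : t - 2 ≤ n) :
    Module.finrank ℂ (H0 (lpow L n)) = Fintype.card (Ix t n) := by
  have h1 := G.finrank_Hn n hn
  have h2 := G.card n (by omega)
  omega

theorem fin (M : LineBundle K) : FiniteDimensional ℂ (H0 M) := H0_finite G.hK G.g0 M

/-- `L^n` is generated by its sections for `n ≥ t - 1` -/
theorem exists_gen (n : ℕ) (hn : t - 2 ≤ n) (v : Point K) :
    ∃ y ∈ H0 (lpow L (n + 1 : ℕ)), v.val y = v.val (L.frame v : K) ^ (n + 1) := by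
  have h1 : Van G.hK G.g0 (lsub (lpow L (n + 1 : ℕ)) v) := by
    have h2 := finrank_lsub_ge G.hK G.g0 L v
    rw [G.h4] at h2
    have h3 : 0 < Module.finrank ℂ (H0 (lsub L v)) := by omega
    have := Module.nontrivial_of_finrank_pos h3
    obtain ⟨⟨y, hy⟩, hy0⟩ := exists_ne (0 : H0 (lsub L v))
    have hy0' : y ≠ 0 := fun h => hy0 (Subtype.ext h)
    refine (G.van n hn).of_le hy0' fun w => ?_
    have h4 : w.val y ≤ w.val ((lsub L v).frame w : K) := hy w
    rw [lsub_frame] at h4 ⊢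
    rw [lpow_frame, lpow_frame, pow_succ]
    calc w.val y * w.val (L.frame w : K) ^ n ≤
        w.val (L.frame w : K) * (w.val ((lpt v).frame w : K))⁻¹ * w.val (L.frame w : K) ^ n :=
          mul_le_mul' h4 le_rfl
      _ = _ := by rw [mul_right_comm, mul_comm (w.val (L.frame w : K))]
  rw [van_iff, lsub_degree, lpow_degree, G.deg, G.hgen] at h1
  have h2 := G.finrank_Hn (n + 1) (by omega)
  obtain ⟨y, hy, hy'⟩ := exists_generator (lpow L (n + 1 : ℕ)) v (by omega)
  exact ⟨y, hy, by rw [hy', lpow_frame]⟩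

end GData

end Pool.Agent.H931.RC
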