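import Pool.Graph.R_seed8.Helper395.CS.Product

/-!
# Rational functions without poles on an affine part are integral
-/

set_option autoImplicit false

open scoped WithZero Polynomial IntermediateField
open WithZero IsDedekindDomain
open Pool.Agent.Helper395.CS

namespace Pool.Agent.H931.RC

variable {K : Type} [Field K] [Algebra ℂ K]

/-- a rational function which is regular at all points at which `τ` is regular is integral over
`ℂ[τ]` -/
theorem integral_of_regular (hK : IsCurve K) {τ : K} (hτ : Transcendental ℂ τ) {z : K}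
    (hz : ∀ v : Point K, v.val τ ≤ 1 → v.val z ≤ 1) :
    ∃ p : Polynomial ℂ[X], p.Monic ∧ p.eval₂ (Polynomial.aeval τ : ℂ[X] →ₐ[ℂ] K).toRingHom z = 0 := by
  refine setup hK hτ _ ?_
  intro i1 i2 hX hae i3 i4 i5 i6 i7 i8 i9
  obtain ⟨b, hb⟩ := HeightOneSpectrum.mem_integers_of_valuation_le_one (R := BB K) K z (fun P => by
    refine hz (above P) ?_
    rw [← hX]
    exact above_X P)
  have h1 : IsIntegral ℂ[X] (b : K) := b.2
  obtain ⟨p, hp, hp0⟩ := h1
  refine ⟨p, hp, ?_⟩
  have h2 : (algebraMap ℂ[X] K) = (Polynomial.aeval τ : ℂ[X] →ₐ[ℂ] K).toRingHom := by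
    apply RingHom.ext
    intro q
    exact hae q
  rw [← h2, ← hb]
  exact hp0

end Pool.Agent.H931.RC
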