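import Pool.Agent.H931.RC.Dom
import Pool.Agent.H931.RC.Int

/-!
# The function field of the determinantal curve
-/

set_option autoImplicit false

open scoped WithZero IntermediateField
open Pool.Agent.Helper395.CS hiding genus exists_residue

namespace Pool.Agent.H931.RC

open MvPolynomial

variable {t : ℕ}

/-- the fraction field of the coordinate ring -/
structure Model (t : ℕ) (a : Fin t × Fin (t + 1) → ℂ) (K : Type) [Field K] [Algebra ℂ K] where
  /-- evaluation -/
  ev : RS →ₐ[ℂ] K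
  ker : ∀ P, ev P = 0 ↔ P ∈ II a
  frac : ∀ z : K, ∃ P Q : RS, ev Q ≠ 0 ∧ z * ev Q = ev P
  closed : ∀ z : K, (∃ p : Polynomial RS, p.Monic ∧ p.eval₂ (ev : RS →+* K) z = 0) →
    ∃ P, z = ev P
  pos : 1 ≤ t

variable {a : Fin t × Fin (t + 1) → ℂ} {K : Type} [Field K] [Algebra ℂ K] (M : Model t a K)

namespace Model

/-- the function `s` -/
noncomputable def s : K := M.ev (MvPolynomial.C Polynomial.X)
/-- the function `u` -/
noncomputable def u : K := M.ev (X 0)
/-- the function `v` -/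
noncomputable def v : K := M.ev (X 1)

theorem ev_C (p : Polynomial ℂ) : M.ev (MvPolynomial.C p) = Polynomial.aeval M.s p := by
  induction p using Polynomial.induction_on with
  | C c =>
    rw [Polynomial.aeval_C]
    exact M.ev.commutes c
  | add p q hp hq => rw [map_add, map_add, map_add, hp, hq]
  | monomial n c _ =>
    rw [map_mul, map_mul, map_mul, map_pow, map_pow, map_pow, Polynomial.aeval_X,
      Polynomial.aeval_C]
    congr 1
    exact M.ev.commutes c

theorem ev_inj {P : RS} (h : P.totalDegree < t) (h0 : M.ev P = 0) : P = 0 :=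
  II_reduced a ((M.ker P).1 h0) h

theorem exists_red {n : ℤ} {P : RS} (hP : W n P) :
    ∃ P' : RS, W n P' ∧ P'.totalDegree < t ∧ M.ev P' = M.ev P := by
  obtain ⟨c, P', -, h2, h3, h4⟩ := II_spanning M.pos a hP
  refine ⟨P', h2, h3, ?_⟩
  have hsum : ∑ j, c j * ff a j ∈ II a :=
    Ideal.sum_mem _ fun j _ => Ideal.mul_mem_left _ _ (ff_mem a j)
  rw [h4, map_add, (M.ker _).2 hsum, zero_add]

theorem transc : Transcendental ℂ M.s := by
  rw [transcendental_iff]
  intro p hp
  rw [← M.ev_C] at hp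
  have h1 := M.ev_inj (by rw [totalDegree_C]; exact M.pos) hp
  exact C_injective (Fin 2) (Polynomial ℂ) (by rw [h1, map_zero])

theorem s_ne : M.s ≠ 0 := ne_zero_of_transcendental M.transc

/-- the `ℂ(s)`-span of the reduced monomials -/
noncomputable def span0 : Submodule ℂ⟮M.s⟯ K :=
  Submodule.span ℂ⟮M.s⟯ (Set.range fun p : TT t => M.u ^ p.1.1 * M.v ^ p.1.2)

theorem aeval_mem (p : Polynomial ℂ) : Polynomial.aeval M.s p ∈ ℂ⟮M.s⟯ := by
  have h1 := IntermediateField.algebra_adjoin_le_adjoin ℂ {M.s}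
  exact h1 (Polynomial.aeval_mem_adjoin_singleton ℂ M.s)

theorem ev_mem_span0 (P : RS) : M.ev P ∈ M.span0 := by
  obtain ⟨n, hn⟩ := exists_W P
  obtain ⟨P', -, h2, h3⟩ := M.exists_red hn
  rw [← h3, expand h2, map_sum]
  refine Submodule.sum_mem _ fun p hp => ?_
  rw [map_mul, M.ev_C, map_mul, map_pow, map_pow]
  have h4 := Submodule.smul_mem M.span0 (⟨_, M.aeval_mem (coeff (ex p.1 p.2) P')⟩ : ℂ⟮M.s⟯)
    (Submodule.subset_span ⟨⟨p, hp⟩, rfl⟩ : M.u ^ p.1 * M.v ^ p.2 ∈ M.span0)
  exact h4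

theorem ev_mul_mem (P : RS) {z : K} (hz : z ∈ M.span0) : M.ev P * z ∈ M.span0 := by
  induction hz using Submodule.span_induction with
  | mem z hz =>
    obtain ⟨p, rfl⟩ := hz
    have h1 := M.ev_mem_span0 (P * (X 0 ^ p.1.1 * X 1 ^ p.1.2))
    rw [map_mul, map_mul, map_pow, map_pow] at h1
    exact h1
  | zero => rw [mul_zero]; exact Submodule.zero_mem _
  | add x y _ _ hx hy => rw [mul_add]; exact Submodule.add_mem _ hx hy
  | smul c x _ hx => rw [mul_smul_comm]; exact Submodule.smul_mem _ _ hx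

theorem mul_mem_span0 {y z : K} (hy : y ∈ M.span0) (hz : z ∈ M.span0) : y * z ∈ M.span0 := by
  induction hy using Submodule.span_induction with
  | mem y hy =>
    obtain ⟨p, rfl⟩ := hy
    have h1 := M.ev_mul_mem (X 0 ^ p.1.1 * X 1 ^ p.1.2) hz
    rw [map_mul, map_pow, map_pow] at h1
    exact h1
  | zero => rw [zero_mul]; exact Submodule.zero_mem _
  | add x y _ _ hx hy => rw [add_mul]; exact Submodule.add_mem _ hx hy
  | smul c x _ hx => rw [smul_mul_assoc]; exact Submodule.smul_mem _ _ hx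

theorem one_mem_span0 : (1 : K) ∈ M.span0 := by
  have h := M.ev_mem_span0 1
  rwa [map_one] at h

theorem span0_fg : M.span0.FG := Submodule.fg_span (Set.finite_range _)

theorem integral_of_mem {z : K} (hz : z ∈ M.span0) : IsIntegral ℂ⟮M.s⟯ z := by
  refine isIntegral_of_smul_mem_submodule M.span0 ?_ M.span0_fg z fun n hn => ?_
  · intro h
    have h1 := M.one_mem_span0
    rw [h, Submodule.mem_bot] at h1
    exact one_ne_zero h1
  · rw [smul_eq_mul]
    exact M.mul_mem_span0 hz hn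

theorem span0_eq_top : M.span0 = ⊤ := by
  rw [eq_top_iff]
  intro z _
  obtain ⟨P, Q, hQ, hz⟩ := M.frac z
  let A : Subalgebra ℂ⟮M.s⟯ K :=
    { carrier := M.span0
      mul_mem' := fun ha hb => M.mul_mem_span0 ha hb
      add_mem' := fun ha hb => M.span0.add_mem ha hb
      algebraMap_mem' := fun c => by
        rw [Algebra.algebraMap_eq_smul_one]
        exact M.span0.smul_mem c M.one_mem_span0 }
  have h1 : (M.ev Q)⁻¹ ∈ A := by
    have hQA : M.ev Q ∈ A := M.ev_mem_span0 Q
    exact A.inv_mem_of_algebraic (x := ⟨M.ev Q, hQA⟩)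
      (M.integral_of_mem (M.ev_mem_span0 Q)).isAlgebraic
  have h2 : z = M.ev P * (M.ev Q)⁻¹ := by
    rw [← hz, mul_assoc, mul_inv_cancel₀ hQ, mul_one]
  rw [h2]
  exact M.mul_mem_span0 (M.ev_mem_span0 P) h1

theorem finite : FiniteDimensional ℂ⟮M.s⟯ K :=
  ⟨by rw [← M.span0_eq_top]; exact M.span0_fg⟩

include M in
theorem isCurve : IsCurve K where
  fg := by
    have := M.finite
    have h2 : Algebra.EssFiniteType ℂ⟮M.s⟯ K := inferInstance
    have h3 : Algebra.EssFiniteType ℂ ℂ⟮M.s⟯ := by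
      rw [IntermediateField.essFiniteType_iff]
      exact IntermediateField.fg_adjoin_finset {M.s} |> fun h => by simpa using h
    rw [IntermediateField.fg_top_iff]
    exact Algebra.EssFiniteType.comp ℂ ℂ⟮M.s⟯ K
  trdeg := by
    have := M.finite
    have h1 := trdeg_add_eq ℂ ℂ⟮M.s⟯ (A := K)
    have h2 := trdeg_add_eq ℂ (Polynomial ℂ) (A := RatFunc ℂ)
    have h3 : Algebra.IsAlgebraic ℂ⟮M.s⟯ K := Algebra.IsAlgebraic.of_finite _ _
    have h4 : Algebra.IsAlgebraic (Polynomial ℂ) (RatFunc ℂ) :=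
      IsLocalization.isAlgebraic _ (nonZeroDivisors (Polynomial ℂ))
    have h5 : Algebra.trdeg ℂ (RatFunc ℂ) = Algebra.trdeg ℂ ℂ⟮M.s⟯ :=
      (RatFunc.algEquivOfTranscendental M.s M.transc).trdeg_eq
    rw [trdeg_eq_zero (R := ℂ⟮M.s⟯), add_zero] at h1
    rw [trdeg_eq_zero (R := Polynomial ℂ), add_zero] at h2
    rw [← h1, ← h5, ← h2, Polynomial.trdeg_of_isDomain]

/-- the reduced monomials are independent over `ℂ[s]` -/
theorem indep_poly (c : ℕ × ℕ → Polynomial ℂ)
    (h : ∑ p ∈ TT t, Polynomial.aeval M.s (c p) * (M.u ^ p.1 * M.v ^ p.2) = 0) :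
    ∀ p ∈ TT t, c p = 0 := by
  classical
  set P : RS := ∑ p ∈ TT t, monomial (ex p.1 p.2) (c p) with hP
  have h1 : M.ev P = 0 := by
    rw [← h, hP, map_sum]
    refine Finset.sum_congr rfl fun p _ => ?_
    rw [monomial_eq2, ex_zero, ex_one, map_mul, map_mul, map_pow, map_pow, M.ev_C]
    rfl
  have h2 : P.totalDegree < t := by
    refine lt_of_le_of_lt (totalDegree_finsetSum _ _) ?_
    rw [Finset.sup_lt_iff (by have := M.pos; exact Nat.pos_of_ne_zero (by omega))]
    intro p hp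
    refine lt_of_le_of_lt (totalDegree_monomial_le _ _) ?_
    have h3 : (ex p.1 p.2).degree < t := by
      rw [ex_degree]; exact mem_TT.1 hp
    exact h3
  have h3 := M.ev_inj h2 h1
  intro p hp
  have h4 : coeff (ex p.1 p.2) P = 0 := by rw [h3, coeff_zero]
  rw [hP, coeff_sum] at h4
  simp only [coeff_monomial] at h4
  rw [Finset.sum_eq_single p] at h4
  · rwa [if_pos rfl] at h4
  · intro q _ hq
    rw [if_neg]
    intro h5
    apply hq
    obtain ⟨h6, h7⟩ := ex_inj h5
    exact Prod.ext h6 h7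
  · intro h5; exact absurd hp h5

theorem finrank_eq : Module.finrank ℂ⟮M.s⟯ K = (TT t).card := by
  refine setup M.isCurve M.transc _ ?_
  intro i1 i2 hX hae i3 i4 i5 i6 i7 i8 i9
  have h1 : LinearIndependent (Polynomial ℂ) (fun p : TT t => M.u ^ p.1.1 * M.v ^ p.1.2) := by
    rw [Fintype.linearIndependent_iff]
    intro g hg
    have h2 := M.indep_poly (fun p => if hp : p ∈ TT t then g ⟨p, hp⟩ else 0) (by
      rw [← hg, ← Finset.sum_coe_sort (TT t)]
      refine Finset.sum_congr rfl fun p _ => ?_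
      rw [dif_pos p.2, Algebra.smul_def, hae])
    intro p
    have h3 := h2 p.1 p.2
    rwa [dif_pos p.2] at h3
  have h2 : LinearIndependent ℂ⟮M.s⟯ (fun p : TT t => M.u ^ p.1.1 * M.v ^ p.1.2) :=
    (LinearIndependent.iff_fractionRing (Polynomial ℂ) ℂ⟮M.s⟯).1 h1
  have h3 : ⊤ ≤ Submodule.span ℂ⟮M.s⟯ (Set.range fun p : TT t => M.u ^ p.1.1 * M.v ^ p.1.2) := by
    have h4 := M.span0_eq_top
    rw [span0] at h4
    rw [h4]
  rw [Module.finrank_eq_card_basis (Module.Basis.mk h2 h3), Fintype.card_coe]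

end Model

end Pool.Agent.H931.RC
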