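import Pool.Agent.H931.RC.Grid

/-!
# The reduced monomials
-/

set_option autoImplicit false

namespace Pool.Agent.H931.RC

open MvPolynomial

/-- the index type of the reduced monomials `s^b u^i v^(k-i)`, `k < t`, `i ≤ k`, `b + k ≤ n` -/
abbrev Ix (t n : ℕ) : Type := (k : Fin t) × (Fin ((k : ℕ) + 1) × Fin (n + 1 - (k : ℕ)))

section

variable {K : Type} [CommRing K] [Algebra ℂ K]

/-- the reduced monomials of degree at most `n` -/
def mon (t n : ℕ) (s u v : K) (q : Ix t n) : K :=
  s ^ (q.2.2 : ℕ) * (u ^ (q.2.1 : ℕ) * v ^ ((q.1 : ℕ) - (q.2.1 : ℕ)))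

/-- evaluation at `(s, u, v)` -/
noncomputable def evm (s u v : K) : RS →ₐ[ℂ] K :=
  { MvPolynomial.eval₂Hom (Polynomial.aeval s : Polynomial ℂ →ₐ[ℂ] K).toRingHom ![u, v] with
    commutes' := by
      intro c
      change MvPolynomial.eval₂Hom (Polynomial.aeval s : Polynomial ℂ →ₐ[ℂ] K).toRingHom ![u, v]
        (MvPolynomial.C (Polynomial.C c)) = _
      rw [coe_eval₂Hom, eval₂_C]
      exact Polynomial.aeval_C s c }

theorem evm_C (s u v : K) (p : Polynomial ℂ) :
    evm s u v (MvPolynomial.C p) = Polynomial.aeval s p := by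
  change MvPolynomial.eval₂Hom (Polynomial.aeval s : Polynomial ℂ →ₐ[ℂ] K).toRingHom ![u, v]
    (MvPolynomial.C p) = _
  rw [coe_eval₂Hom, eval₂_C]
  rfl

theorem evm_X0 (s u v : K) : evm s u v (X 0) = u := by
  change MvPolynomial.eval₂Hom (Polynomial.aeval s : Polynomial ℂ →ₐ[ℂ] K).toRingHom ![u, v]
    (X 0) = _
  rw [coe_eval₂Hom, eval₂_X]
  rfl

theorem evm_X1 (s u v : K) : evm s u v (X 1) = v := by
  change MvPolynomial.eval₂Hom (Polynomial.aeval s : Polynomial ℂ →ₐ[ℂ] K).toRingHom ![u, v]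
    (X 1) = _
  rw [coe_eval₂Hom, eval₂_X]
  rfl

theorem evm_monomial (s u v : K) (m : Fin 2 →₀ ℕ) (b : ℕ) (c : ℂ) :
    evm s u v (monomial m (Polynomial.monomial b c)) = c • (s ^ b * (u ^ m 0 * v ^ m 1)) := by
  rw [monomial_eq2, map_mul, map_mul, map_pow, map_pow, evm_C, evm_X0, evm_X1,
    Polynomial.aeval_monomial, Algebra.smul_def]
  ring

/-- the exponent vector of a reduced monomial -/
noncomputable def ixe {t n : ℕ} (q : Ix t n) : Fin 2 →₀ ℕ :=
  ex (q.2.1 : ℕ) ((q.1 : ℕ) - (q.2.1 : ℕ))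

theorem ixe_degree {t n : ℕ} (q : Ix t n) : (ixe q).degree = q.1 := by
  rw [ixe, ex_degree]
  have := q.2.1.2
  omega

theorem ixe_inj {t n : ℕ} {q q' : Ix t n} (h1 : ixe q = ixe q') (h2 : (q.2.2 : ℕ) = q'.2.2) :
    q = q' := by
  have h3 : (q.1 : ℕ) = q'.1 := by rw [← ixe_degree, h1, ixe_degree]
  have h4 := (ex_inj h1).1
  obtain ⟨k, i, b⟩ := q
  obtain ⟨k', i', b'⟩ := q'
  have h5 : k = k' := Fin.ext h3
  subst h5
  have h6 : i = i' := Fin.ext h4
  subst h6
  have h7 : b = b' := Fin.ext h2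
  subst h7
  rfl

/-- the polynomial with the given coefficients -/
noncomputable def ixp {t n : ℕ} (c : Ix t n → ℂ) : RS :=
  ∑ q, monomial (ixe q) (Polynomial.monomial (q.2.2 : ℕ) (c q))

theorem ixp_td {t n : ℕ} (ht : 1 ≤ t) (c : Ix t n → ℂ) : (ixp c).totalDegree < t := by
  refine lt_of_le_of_lt (totalDegree_finsetSum _ _) ?_
  rw [Finset.sup_lt_iff (Nat.pos_of_ne_zero (by omega))]
  intro q _
  refine lt_of_le_of_lt (totalDegree_monomial_le _ _) ?_
  have h3 : (ixe q).degree < t := by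
    rw [ixe_degree]; exact q.1.2
  exact h3

theorem ixp_W {t n : ℕ} (c : Ix t n → ℂ) : W n (ixp c) := by
  refine W.sum _ fun q _ => W.mono_of _ _ _ ?_
  rw [ixe_degree]
  have := q.2.2.2
  omega

theorem ixp_coeff {t n : ℕ} (c : Ix t n → ℂ) (q : Ix t n) :
    (coeff (ixe q) (ixp c)).coeff q.2.2 = c q := by
  classical
  rw [ixp, coeff_sum, Polynomial.finsetSum_coeff, Finset.sum_eq_single q]
  · rw [coeff_monomial, if_pos rfl, Polynomial.coeff_monomial, if_pos rfl]
  · intro q' _ hq'
    rw [coeff_monomial]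
    split_ifs with h1
    · rw [Polynomial.coeff_monomial, if_neg]
      intro h2
      exact hq' (ixe_inj h1 h2)
    · rw [Polynomial.coeff_zero]
  · intro h; exact absurd (Finset.mem_univ _) h

theorem evm_ixp {t n : ℕ} (s u v : K) (c : Ix t n → ℂ) :
    evm s u v (ixp c) = ∑ q, c q • mon t n s u v q := by
  rw [ixp, map_sum]
  refine Finset.sum_congr rfl fun q _ => ?_
  rw [evm_monomial, mon, ixe, ex_zero, ex_one]

/-- every reduced polynomial of degree at most `n` is of this form -/
theorem exists_ixp {t n : ℕ} {P : RS} (ht : P.totalDegree < t) (hW : W n P) :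
    ∃ c : Ix t n → ℂ, P = ixp c := by
  classical
  refine ⟨fun q => (coeff (ixe q) P).coeff q.2.2, ?_⟩
  ext m b
  by_cases h : m.degree < t ∧ b + m.degree ≤ n
  · have hm := deg_fin2 m
    set q : Ix t n := ⟨⟨m.degree, h.1⟩, ⟨⟨m 0, by simp only; omega⟩, ⟨b, by simp only; omega⟩⟩⟩
      with hq
    have h1 : ixe q = m := by
      rw [ixe, hq]
      simp only
      have h2 : m.degree - m 0 = m 1 := by omega
      rw [h2, ex_eta]
    have h2 := ixp_coeff (fun q : Ix t n => (coeff (ixe q) P).coeff q.2.2) q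
    rw [h1] at h2
    exact h2.symm
  · have h1 : (coeff m P).coeff b = 0 := by
      rcases lt_or_ge m.degree t with h2 | h2
      · exact hW m b (by push_cast; omega)
      · have h3 : coeff m P = 0 := by
          by_contra h4
          have h5 := le_totalDegree (mem_support_iff.2 h4)
          have h6 : m.degree ≤ P.totalDegree := h5
          omega
        rw [h3, Polynomial.coeff_zero]
    rw [h1, ixp, coeff_sum, Polynomial.finsetSum_coeff, Finset.sum_eq_zero]
    intro q _
    rw [coeff_monomial]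
    split_ifs with h2
    · rw [Polynomial.coeff_monomial, if_neg]
      intro h3
      apply h
      rw [← h2, ← h3, ixe_degree]
      have h4 := q.2.2.2
      exact ⟨q.1.2, by omega⟩
    · rw [Polynomial.coeff_zero]

/-- independence of the reduced monomials -/
theorem mon_indep_iff {t : ℕ} (ht : 1 ≤ t) (s u v : K) :
    (∀ n, LinearIndependent ℂ (mon t n s u v)) ↔
      ∀ P : RS, P.totalDegree < t → evm s u v P = 0 → P = 0 := by
  constructor
  · intro h P hP h0
    obtain ⟨n, hn⟩ := exists_W P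
    obtain ⟨c, rfl⟩ := exists_ixp hP hn
    rw [evm_ixp] at h0
    have h1 := Fintype.linearIndependent_iff.1 (h n) c h0
    rw [ixp, Finset.sum_eq_zero]
    intro q _
    rw [h1 q, map_zero, map_zero]
  · intro h n
    rw [Fintype.linearIndependent_iff]
    intro c hc q
    rw [← evm_ixp] at hc
    have h1 := h _ (ixp_td ht c) hc
    rw [← ixp_coeff c q, h1, coeff_zero, Polynomial.coeff_zero]

theorem mem_span_mon {t n : ℕ} (s u v : K) {P : RS} (ht : P.totalDegree < t) (hW : W n P) :
    evm s u v P ∈ Submodule.span ℂ (Set.range (mon t n s u v)) := by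
  obtain ⟨c, rfl⟩ := exists_ixp ht hW
  rw [evm_ixp]
  exact Submodule.sum_mem _ fun q _ => Submodule.smul_mem _ _ (Submodule.subset_span ⟨q, rfl⟩)

end

/-- the number of reduced monomials -/
theorem card_Ix (t n : ℕ) (h : t ≤ n + 2) :
    6 * (Fintype.card (Ix t n) : ℤ) = t * (t + 1) * (3 * n + 5 - 2 * t) := by
  have h1 : Fintype.card (Ix t n) = ∑ k ∈ Finset.range t, (k + 1) * (n + 1 - k) := by
    rw [Fintype.card_sigma, ← Fin.sum_univ_eq_sum_range (fun k => (k + 1) * (n + 1 - k))]
    refine Finset.sum_congr rfl fun k _ => ?_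
    rw [Fintype.card_prod, Fintype.card_fin, Fintype.card_fin]
  rw [h1]
  clear h1
  induction t with
  | zero => simp
  | succ t ih =>
    rw [Finset.sum_range_succ]
    push_cast
    have h2 := ih (by omega)
    push_cast at h2
    rw [mul_add, h2]
    rw [Nat.cast_sub (by omega)]
    push_cast
    ring

end Pool.Agent.H931.RC
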