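import Pool.Agent.H931.RC.Curve
import Pool.Agent.H931.RC.Mon
import Pool.Graph.R_seed8.W518.EG.TGen
import Pool.Graph.R_seed8.W518.PC.Plane

/-!
# The function field of the determinantal curve: sections of the powers of the hyperplane bundle
-/

set_option autoImplicit false

open scoped WithZero IntermediateField
open Pool.Agent.Helper395.CS hiding genus exists_residue
open Pool.Agent.Helper395.BC
open Pool.Agent.W518.PC (lpow ord_frame_max)

namespace Pool.Agent.H931.RC

open MvPolynomial

section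

variable {K : Type} [Field K] [Algebra ℂ K]

theorem val_smul_le (w : Point K) (c : ℂ) (z : K) : w.val (c • z) ≤ w.val z := by
  rw [Algebra.smul_def, map_mul]
  exact mul_le_of_le_one_left' (w.const_le c)

/-- bound for the values of reduced polynomials -/
theorem val_evm_lt (w : Point K) {s u v : K} {σ μ : ℤᵐ⁰} (h1 : 1 ≤ σ) (hs : w.val s ≤ σ)
    (hu : w.val u ≤ μ) (hv : w.val v ≤ μ) (hσ : σ < μ) {t : ℕ} {P : RS} (ht : P.totalDegree < t)
    (hW : W t P) : w.val (evm s u v P) < μ ^ t := by
  have hμ : 0 < μ := lt_of_le_of_lt (zero_le) hσ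
  refine W_induction (p := fun P => w.val (evm s u v P) < μ ^ t) ?_ ?_ P ?_
  · rw [map_zero, map_zero]
    exact pow_pos hμ t
  · intro P Q hP hQ
    rw [map_add]
    exact Valuation.map_add_lt _ hP hQ
  · intro m b hc
    rw [evm_monomial]
    refine lt_of_le_of_lt (val_smul_le _ _ _) ?_
    have h2 : b + m.degree ≤ t := by
      by_contra hcon
      exact hc (hW m b (by push Not at hcon; exact_mod_cast hcon))
    have h3 : m.degree < t := by
      have h4 : m ∈ P.support := by
        rw [mem_support_iff]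
        intro h5
        rw [h5, Polynomial.coeff_zero] at hc
        exact hc rfl
      have h5 : m.degree ≤ P.totalDegree := le_totalDegree h4
      omega
    rw [map_mul, map_mul, map_pow, map_pow, map_pow]
    have h4 : w.val s ^ b ≤ σ ^ (t - m.degree) :=
      (pow_le_pow_left' hs b).trans (pow_le_pow_right₀ h1 (by omega))
    have h5 : w.val u ^ m 0 * w.val v ^ m 1 ≤ μ ^ m.degree := by
      rw [deg_fin2, pow_add]
      exact mul_le_mul' (pow_le_pow_left' hu _) (pow_le_pow_left' hv _)
    have h6 : σ ^ (t - m.degree) < μ ^ (t - m.degree) :=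
      pow_lt_pow_left₀ hσ zero_le (by omega)
    calc w.val s ^ b * (w.val u ^ m 0 * w.val v ^ m 1) ≤ σ ^ (t - m.degree) * μ ^ m.degree :=
          mul_le_mul' h4 h5
      _ < μ ^ (t - m.degree) * μ ^ m.degree := mul_lt_mul_of_pos_right h6 (pow_pos hμ _)
      _ = μ ^ t := by rw [← pow_add]; congr 1; omega

/-- bound for the values of polynomials -/
theorem val_evm_le (w : Point K) {s u v : K} {σ : ℤᵐ⁰} (h1 : 1 ≤ σ) (hs : w.val s ≤ σ)
    (hu : w.val u ≤ σ) (hv : w.val v ≤ σ) {n : ℕ} {P : RS} (hW : W n P) :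
    w.val (evm s u v P) ≤ σ ^ n := by
  refine W_induction (p := fun P => w.val (evm s u v P) ≤ σ ^ n) ?_ ?_ P ?_
  · rw [map_zero, map_zero]
    exact zero_le
  · intro P Q hP hQ
    rw [map_add]
    exact Valuation.map_add_le _ hP hQ
  · intro m b hc
    rw [evm_monomial]
    refine (val_smul_le _ _ _).trans ?_
    have h2 : b + m.degree ≤ n := by
      by_contra hcon
      exact hc (hW m b (by push Not at hcon; exact_mod_cast hcon))
    rw [map_mul, map_mul, map_pow, map_pow, map_pow]
    calc w.val s ^ b * (w.val u ^ m 0 * w.val v ^ m 1) ≤ σ ^ b * (σ ^ m 0 * σ ^ m 1) :=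
          mul_le_mul' (pow_le_pow_left' hs _) (mul_le_mul' (pow_le_pow_left' hu _)
            (pow_le_pow_left' hv _))
      _ = σ ^ (b + m.degree) := by rw [deg_fin2, pow_add, pow_add]
      _ ≤ σ ^ n := pow_le_pow_right₀ h1 h2

end

namespace Model

variable {t : ℕ} {a : Fin t × Fin (t + 1) → ℂ} {K : Type} [Field K] [Algebra ℂ K] (M : Model t a K)

theorem ev_eq (P : RS) : M.ev P = evm M.s M.u M.v P := by
  induction P using MvPolynomial.induction_on with
  | C p => rw [M.ev_C, evm_C]
  | add P Q hP hQ => rw [map_add, map_add, hP, hQ]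
  | mul_X P i hP =>
    rw [map_mul, map_mul, hP]
    congr 1
    fin_cases i
    · exact (evm_X0 M.s M.u M.v).symm
    · exact (evm_X1 M.s M.u M.v).symm

theorem val_uv (w : Point K) :
    w.val M.u ≤ max 1 (w.val M.s) ∧ w.val M.v ≤ max 1 (w.val M.s) := by
  set σ := max 1 (w.val M.s) with hσ
  set μ := max (w.val M.u) (w.val M.v) with hμ
  have h1 : 1 ≤ σ := le_max_left _ _
  have h2 : w.val M.s ≤ σ := le_max_right _ _
  have hu : w.val M.u ≤ μ := le_max_left _ _
  have hv : w.val M.v ≤ μ := le_max_right _ _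
  suffices h : μ ≤ σ from ⟨hu.trans h, hv.trans h⟩
  by_contra hcon
  push Not at hcon
  have key : ∀ j : Fin (t + 1), w.val (M.u ^ (t - j : ℕ) * M.v ^ (j : ℕ)) < μ ^ t := by
    intro j
    have h3 := val_evm_lt w h1 h2 hu hv hcon (ff_td M.pos a j)
      ((ff_W a j).sub (by
        have h4 := W.mono_of (ex (t - j) j) 0 (1 : ℂ) (n := t) (by
          rw [ex_degree]
          have := j.2
          push_cast
          omega)
        rw [monomial_eq2, ex_zero, ex_one] at h4
        simpa using h4))
    rw [← M.ev_eq, map_sub, (M.ker _).2 (ff_mem a j), zero_sub, Valuation.map_neg, map_mul, map_pow,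
      map_pow] at h3
    exact h3
  have h3 := key 0
  have h4 := key (Fin.last t)
  simp only [Fin.val_zero, Nat.sub_zero, pow_zero, mul_one, Fin.val_last, Nat.sub_self, one_mul,
    map_pow] at h3 h4
  rcases max_choice (w.val M.u) (w.val M.v) with h5 | h5
  · rw [← hμ] at h5
    rw [h5] at h3
    exact lt_irrefl _ h3
  · rw [← hμ] at h5
    rw [h5] at h4
    exact lt_irrefl _ h4

/-- the hyperplane bundle -/
noncomputable def L : LineBundle K where
  frame w := open Classical in if w.val M.s ≤ 1 then 1 else Units.mk0 M.s M.s_ne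
  finite := by
    classical
    refine (finite_ord_neg M.isCurve M.s).subset fun w hw => ?_
    change w.ord M.s < 0
    rw [← w.one_lt_val_iff M.s_ne]
    by_contra h
    apply hw
    rw [if_pos (not_lt.1 h), Units.val_one, map_one]

theorem frame_val (w : Point K) : w.val (M.L.frame w : K) = max 1 (w.val M.s) := by
  classical
  change w.val ((if w.val M.s ≤ 1 then (1 : Kˣ) else Units.mk0 M.s M.s_ne : Kˣ) : K) = _
  split_ifs with h
  · rw [Units.val_one, map_one, max_eq_left h]
  · rw [Units.val_mk0, max_eq_right (not_le.1 h).le]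

theorem degree_L : M.L.degree = (TT t).card := by
  rw [← M.finrank_eq, ← degZ_eq M.isCurve M.transc, degZ_eq_degP M.isCurve, degP, LineBundle.degree]
  exact finsum_congr fun v => ord_frame_max v (M.L.frame v).ne_zero (M.frame_val v)

theorem mem_H0_pow (n : ℕ) (z : K) :
    z ∈ H0 (lpow M.L n) ↔ ∀ w : Point K, w.val z ≤ max 1 (w.val M.s) ^ n := by
  refine forall_congr' fun w => ?_
  change w.val z ≤ w.val ((M.L.frame w ^ (n : ℤ) : Kˣ) : K) ↔ _
  rw [zpow_natCast, Units.val_pow_eq_pow_val, map_pow, M.frame_val]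

theorem ev_mem_H0 {n : ℕ} {P : RS} (hW : W n P) : M.ev P ∈ H0 (lpow M.L n) := by
  rw [M.mem_H0_pow]
  intro w
  rw [M.ev_eq]
  exact val_evm_le w (le_max_left _ _) (le_max_right _ _) (M.val_uv w).1 (M.val_uv w).2 hW

theorem exists_ev {z : K} (hz : ∀ w : Point K, w.val M.s ≤ 1 → w.val z ≤ 1) : ∃ P, z = M.ev P := by
  obtain ⟨p, hp, hp0⟩ := integral_of_regular M.isCurve M.transc hz
  refine M.closed z ⟨p.map (MvPolynomial.C : Polynomial ℂ →+* RS), hp.map _, ?_⟩
  rw [Polynomial.eval₂_map, ← hp0]
  congr 1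
  ext x
  · change M.ev (MvPolynomial.C (Polynomial.C x)) = Polynomial.aeval M.s (Polynomial.C x)
    rw [M.ev_C]
  · change M.ev (MvPolynomial.C Polynomial.X) = Polynomial.aeval M.s Polynomial.X
    rw [M.ev_C]

open Polynomial in
/-- a section of the `n`-th power of the hyperplane bundle is a polynomial of degree at most `n` -/
theorem W_of_mem {n m : ℕ} {P : RS} (ht : P.totalDegree < t)
    (hz : ∀ w : Point K, w.val (M.ev P) ≤ max 1 (w.val M.s) ^ n) (hW : W (m + 1 : ℕ) P)
    (hm : n ≤ m) : W m P := by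
  have hτ : Transcendental ℂ M.s⁻¹ := by
    intro h
    exact M.transc (by simpa using h.inv)
  obtain ⟨p, hp, hp0⟩ := integral_of_regular M.isCurve hτ (z := M.ev P / M.s ^ m) (by
    intro w hw
    have hs0 := w.val_ne_zero M.s_ne
    rw [map_inv₀] at hw
    have h1 : 1 ≤ w.val M.s := (inv_le_one₀ (zero_lt_iff.2 hs0)).1 hw
    have h2 := hz w
    rw [max_eq_right h1] at h2
    rw [map_div₀, map_pow]
    refine (div_le_one₀ (zero_lt_iff.2 (pow_ne_zero _ hs0))).2 (h2.trans ?_)
    exact pow_le_pow_right₀ h1 hm)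
  set k := p.natDegree with hk
  set D := ∑ i ∈ Finset.range (k + 1), (p.coeff i).natDegree with hD
  have hDi : ∀ i ≤ k, (p.coeff i).natDegree ≤ D := fun i hi =>
    Finset.single_le_sum (f := fun i => (p.coeff i).natDegree) (fun _ _ => Nat.zero_le _)
      (Finset.mem_range.2 (by omega))
  set q : ℕ → ℂ[X] := fun i => (p.coeff i).reflect D * Polynomial.X ^ (m * (k - i)) with hq
  set Q : RS := ∑ i ∈ Finset.range (k + 1), MvPolynomial.C (q i) * P ^ i with hQ
  have hqd : ∀ i ≤ k, (q i).natDegree ≤ D + m * (k - i) := by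
    intro i hi
    refine Polynomial.natDegree_mul_le.trans ?_
    rw [Polynomial.natDegree_X_pow]
    have h1 := Polynomial.natDegree_reflect_le (p := p.coeff i) (N := D)
    have h2 := hDi i hi
    have h3 : max D (p.coeff i).natDegree = D := max_eq_left h2
    omega
  have hsD : M.s ^ (D + m * k) ≠ 0 := pow_ne_zero _ M.s_ne
  have hQ0 : M.ev Q = 0 := by
    have h1 : ∀ i ∈ Finset.range (k + 1), M.ev (MvPolynomial.C (q i) * P ^ i) =
        M.s ^ (D + m * k) * (Polynomial.aeval M.s⁻¹ (p.coeff i) * (M.ev P / M.s ^ m) ^ i) := by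
      intro i hi
      have hik : i ≤ k := by rw [Finset.mem_range] at hi; omega
      rw [map_mul, map_pow, M.ev_C]
      simp only [hq]
      rw [map_mul, map_pow, Polynomial.aeval_X]
      have h2 : Polynomial.aeval M.s ((p.coeff i).reflect D) =
          M.s ^ D * Polynomial.aeval M.s⁻¹ (p.coeff i) := by
        have hinv : Invertible M.s⁻¹ := invertibleOfNonzero (inv_ne_zero M.s_ne)
        have h3 := Polynomial.eval₂_reflect_mul_pow (algebraMap ℂ K) M.s⁻¹ D (p.coeff i) (hDi i hik)
        rw [invOf_eq_inv, inv_inv] at h3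
        rw [Polynomial.aeval_def, Polynomial.aeval_def, ← h3, mul_comm, mul_assoc, ← mul_pow,
          inv_mul_cancel₀ M.s_ne, one_pow, mul_one]
      rw [h2]
      have h3 : M.s ^ (m * k) = M.s ^ (m * (k - i)) * (M.s ^ m) ^ i := by
        rw [← pow_mul, ← pow_add, ← mul_add]
        congr 2
        omega
      rw [pow_add, h3, div_pow]
      have h4 := M.s_ne
      field_simp
    rw [hQ, map_sum, Finset.sum_congr rfl h1, ← Finset.mul_sum]
    rw [Polynomial.eval₂_eq_sum_range] at hp0
    have h2 : ∑ i ∈ Finset.range (k + 1), Polynomial.aeval M.s⁻¹ (p.coeff i) *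
        (M.ev P / M.s ^ m) ^ i = 0 := hp0
    rw [h2, mul_zero]
  have hPW : ∀ i : ℕ, W ((m + 1) * i : ℕ) (P ^ i) := by
    intro i
    induction i with
    | zero => simpa using W.one
    | succ i ih =>
      rw [pow_succ, mul_add, mul_one]
      have := ih.mul hW
      rwa [← Nat.cast_add] at this
  have hQW : W (D + (m + 1) * k : ℕ) Q := by
    refine W.sum _ fun i hi => ?_
    have hik : i ≤ k := by rw [Finset.mem_range] at hi; omega
    have h1 : W (D + m * (k - i) : ℕ) (MvPolynomial.C (q i) : RS) := W.C (by exact_mod_cast hqd i hik)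
    refine (h1.mul (hPW i)).mono ?_
    rw [← Nat.cast_add]
    obtain ⟨j, hj⟩ := Nat.exists_eq_add_of_le hik
    have h2 : D + m * (k - i) + (m + 1) * i ≤ D + (m + 1) * k := by
      rw [hj, Nat.add_sub_cancel_left]
      ring_nf
      omega
    exact_mod_cast h2
  have hline : ∀ x < t, ∀ y ≤ x, (line (x : ℂ) (y : ℂ) P).coeff (m + 1) = 0 := by
    intro x hx y hy
    have h1 := II_line M.pos a hQW ((M.ker _).1 hQ0) hx hy
    have h2 : (line (x : ℂ) (y : ℂ) Q).coeff (D + (m + 1) * k) =
        (line (x : ℂ) (y : ℂ) P).coeff (m + 1) ^ k := by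
      rw [hQ, map_sum, Polynomial.finsetSum_coeff, Finset.sum_eq_single k]
      · rw [map_mul, line_C, map_pow]
        simp only [hq]
        rw [Nat.sub_self, mul_zero, pow_zero, mul_one, hp.coeff_natDegree, Polynomial.reflect_one,
          Polynomial.coeff_X_pow_mul', if_pos (by omega), Nat.add_sub_cancel_left, mul_comm (m + 1) k,
          Polynomial.coeff_pow_of_natDegree_le (line_natDegree hW)]
      · intro i hi hik'
        have hik : i ≤ k := by rw [Finset.mem_range] at hi; omega
        rw [map_mul, line_C, map_pow]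
        apply Polynomial.coeff_eq_zero_of_natDegree_lt
        refine lt_of_le_of_lt Polynomial.natDegree_mul_le ?_
        have h3 := hqd i hik
        have h4 : (line (x : ℂ) (y : ℂ) P ^ i).natDegree ≤ i * (m + 1) :=
          Polynomial.natDegree_pow_le_of_le i (line_natDegree hW)
        obtain ⟨j, hj⟩ := Nat.exists_eq_add_of_le hik
        have h5 : D + m * (k - i) + i * (m + 1) < D + (m + 1) * k := by
          rw [hj, Nat.add_sub_cancel_left]
          ring_nf
          omega
        omega
      · intro h3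
        exact absurd (Finset.mem_range.2 (Nat.lt_succ_self k)) h3
    rw [h2] at h1
    exact eq_zero_of_pow_eq_zero h1
  have h3 := W_drop ht hW hline
  exact h3.mono (by push_cast; omega)

theorem exists_of_mem {n : ℕ} {z : K} (hz : z ∈ H0 (lpow M.L n)) :
    ∃ P : RS, P.totalDegree < t ∧ W n P ∧ M.ev P = z := by
  rw [M.mem_H0_pow] at hz
  obtain ⟨P₀, hP₀⟩ := M.exists_ev (z := z) (fun w hw => by
    have h1 := hz w
    rwa [max_eq_left hw, one_pow] at h1)
  obtain ⟨m₀, hm₀⟩ := exists_W P₀
  obtain ⟨P, h1, h2, h3⟩ := M.exists_red hm₀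
  have hPz : M.ev P = z := by rw [h3, hP₀]
  refine ⟨P, h2, ?_, hPz⟩
  have key : ∀ j : ℕ, W (n + j : ℕ) P → W n P := by
    intro j
    induction j with
    | zero => exact id
    | succ j ih =>
      intro h
      refine ih (M.W_of_mem h2 (n := n) (by rw [hPz]; exact hz) h (by omega))
  exact key m₀ (h1.mono (by push_cast; omega))

theorem H0_pow_eq (n : ℕ) :
    H0 (lpow M.L n) = Submodule.span ℂ (Set.range (mon t n M.s M.u M.v)) := by
  refine le_antisymm ?_ ?_
  · intro z hz
    obtain ⟨P, h1, h2, rfl⟩ := M.exists_of_mem hz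
    rw [M.ev_eq]
    exact mem_span_mon _ _ _ h1 h2
  · rw [Submodule.span_le]
    rintro _ ⟨q, rfl⟩
    have h1 := M.ev_mem_H0 (W.mono_of (ixe q) q.2.2 (1 : ℂ) (n := n) (by
      rw [ixe_degree]
      have := q.2.2.2
      omega))
    rw [M.ev_eq, evm_monomial, one_smul, ixe, ex_zero, ex_one] at h1
    exact h1

theorem indep (n : ℕ) : LinearIndependent ℂ (mon t n M.s M.u M.v) :=
  (mon_indep_iff M.pos _ _ _).2 (fun P hP h0 => M.ev_inj hP (by rw [M.ev_eq]; exact h0)) n

theorem finrank_H0_pow (n : ℕ) :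
    Module.finrank ℂ (H0 (lpow M.L n)) = Fintype.card (Ix t n) := by
  rw [M.H0_pow_eq]
  exact finrank_span_eq_card (M.indep n)

theorem finite_H0_pow (n : ℕ) : FiniteDimensional ℂ (H0 (lpow M.L n)) := by
  rw [M.H0_pow_eq]
  exact FiniteDimensional.span_of_finite ℂ (Set.finite_range _)

end Model

theorem card_TT (t : ℕ) : 2 * (TT t).card = t * (t + 1) := by
  induction t with
  | zero => rfl
  | succ t ih =>
    have h1 : TT (t + 1) = TT t ∪ Finset.HasAntidiagonal.antidiagonal t := by
      ext p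
      rw [Finset.mem_union, mem_TT, mem_TT, Finset.HasAntidiagonal.mem_antidiagonal]
      omega
    have h2 : Disjoint (TT t) (Finset.HasAntidiagonal.antidiagonal t) := by
      rw [Finset.disjoint_left]
      intro p hp hp'
      rw [mem_TT] at hp
      rw [Finset.HasAntidiagonal.mem_antidiagonal] at hp'
      omega
    rw [h1, Finset.card_union_of_disjoint h2, Finset.Nat.card_antidiagonal, mul_add, ih]
    ring

/-- existence of the numbers `g` and `d` -/
theorem exists_gd (t : ℕ) (ht : 3 ≤ t) :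
    ∃ g d : ℕ, 2 * d = t * (t + 1) ∧ 6 * ((g : ℤ) - 1) = t * (t + 1) * (2 * t - 5) ∧ 1 ≤ g := by
  have h1 := card_Ix t t (by omega)
  have h2 := card_TT t
  have h3 : (0 : ℤ) ≤ t * (TT t).card + 1 - Fintype.card (Ix t t) := by
    have h4 : (2 * (TT t).card : ℤ) = t * (t + 1) := by exact_mod_cast h2
    have h5 : (3 : ℤ) ≤ t := by exact_mod_cast ht
    nlinarith [mul_nonneg (mul_nonneg (by omega : (0 : ℤ) ≤ t) (by omega : (0 : ℤ) ≤ t + 1))
      (by omega : (0 : ℤ) ≤ 2 * t - 5)]
  obtain ⟨g, hg⟩ := Int.eq_ofNat_of_zero_le h3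
  have h4 : (2 * (TT t).card : ℤ) = t * (t + 1) := by exact_mod_cast h2
  have h6 : 6 * ((g : ℤ) - 1) = t * (t + 1) * (2 * t - 5) := by
    have h7 : (g : ℤ) = t * (TT t).card + 1 - Fintype.card (Ix t t) := by
      rw [hg]
    rw [h7]
    linear_combination (3 * t : ℤ) * h4 - h1
  refine ⟨g, (TT t).card, h2, h6, ?_⟩
  have h5 : (3 : ℤ) ≤ t := by exact_mod_cast ht
  have h8 : (0 : ℤ) < t * (t + 1) * (2 * t - 5) :=
    mul_pos (mul_pos (by omega) (by omega)) (by omega)
  omega

namespace Model

variable {t : ℕ} {a : Fin t × Fin (t + 1) → ℂ} {K : Type} [Field K] [Algebra ℂ K] (M : Model t a K)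

include M in
theorem genus_eq {g d : ℕ} (hd : 2 * d = t * (t + 1))
    (hg : 6 * ((g : ℤ) - 1) = t * (t + 1) * (2 * t - 5)) (h1 : 1 ≤ g) : genus K = g := by
  have hd' : d = (TT t).card := by
    have := card_TT t
    omega
  have ht := M.pos
  refine Pool.Agent.W518.EG.s_GEN K M.isCurve d g t M.L ?_ h1 ?_ ?_
  · have h2 : 1 * 2 ≤ t * (t + 1) := Nat.mul_le_mul ht (by omega)
    omega
  · rw [M.degree_L, hd']
  · intro n hn
    refine ⟨M.finite_H0_pow n, ?_⟩
    rw [M.finrank_H0_pow]
    have h2 := card_Ix t n (by omega)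
    have h3 : (2 * d : ℤ) = t * (t + 1) := by exact_mod_cast hd
    have h4 : (6 : ℤ) * (Fintype.card (Ix t n)) = 6 * (n * d + 1 - g) := by
      rw [h2]
      linear_combination (-3 * n : ℤ) * h3 + hg
    exact mul_left_cancel₀ (by norm_num) h4

end Model

end Pool.Agent.H931.RC
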