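import Pool.Graph.R_seed8.W518.PC.Defs
import Pool.Graph.R_seed8.Helper395.BC.ModDefs

/-!
# The moduli spaces `𝒲^r_{d,g}` and the rigid curves conjecture: definitions

A smooth, projective, irreducible curve `C` over `ℂ` is described by its function field `K`, as in
`Pool/Graph/R_seed8/Helper395/CS/Defs.lean` (Hartshorne, Algebraic Geometry, I.6): `IsCurve K` says
that `K` is a finitely generated field extension of `ℂ` of transcendence degree one, the type
`Point K` of closed points of `C` consists of the normalised discrete valuations of `K` which are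
trivial on `ℂ`, and a line bundle `L : LineBundle K` is given by its stalks `ℓ_v 𝒪_v ⊆ K`. The genus
`genus K` is the dimension of `H¹(C, 𝒪_C)`, and `H0 L` is the space of global sections of `L`.

The moduli space `𝒲^r_{d,g}` is a coarse moduli space, and locally in the étale topology it carries a
universal family. Hence the Zariski topology on the set of its closed points, i.e. on the set of
isomorphism classes of pairs `(C, L)`, is the finest topology for which all algebraic families of
pairs parametrised by affine varieties induce continuous maps. We take this as the definition.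
-/

set_option autoImplicit false

open scoped WithZero Matrix
open Pool.Agent.Helper395.CS hiding genus
open Pool.Agent.Helper395.BC
open Pool.Agent.W518.PC (lpow)

namespace Pool.Agent.H931.RC

/-- A pair `(C, L)`: a curve `C` of genus `g` with function field `K` and a line bundle `L` of degree
`d` on `C` with `h⁰(C, L) ≥ r + 1`. -/
structure Pair (r g : ℕ) (d : ℤ) : Type 1 where
  /-- the function field of the curve -/
  K : Type
  [field : Field K]
  [algebra : Algebra ℂ K]
  isCurve : IsCurve K
  genus_eq : genus K = g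
  /-- the line bundle -/
  L : LineBundle K
  degree_eq : L.degree = d
  le_sections : r + 1 ≤ Module.finrank ℂ (H0 L)

attribute [instance] Pair.field Pair.algebra

/-- The point of the curve with function field `K` that corresponds to the point `v` of the curve
with function field `K'`, for an isomorphism `φ : K ≃ K'` of function fields. -/
def ptMap {K K' : Type} [Field K] [Algebra ℂ K] [Field K'] [Algebra ℂ K'] (φ : K ≃ₐ[ℂ] K')
    (v : Point K') : Point K where
  val := v.val.comap (φ : K →+* K')
  surj := by
    intro y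
    obtain ⟨x, hx⟩ := v.surj y
    exact ⟨φ.symm x, by rw [Valuation.comap_apply]; simpa using hx⟩
  const := by
    intro c hc
    rw [Valuation.comap_apply]
    have h : (φ : K →+* K') (algebraMap ℂ K c) = algebraMap ℂ K' c := φ.commutes c
    rw [h]
    exact v.const c hc

theorem ptMap_val {K K' : Type} [Field K] [Algebra ℂ K] [Field K'] [Algebra ℂ K'] (φ : K ≃ₐ[ℂ] K')
    (v : Point K') (x : K) : (ptMap φ v).val x = v.val (φ x) := rfl

variable {r g : ℕ} {d : ℤ}

/-- Two pairs `(C, L)` and `(C', L')` are isomorphic if there are an isomorphism of curves, given by an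
isomorphism `φ : K ≃ K'` of the function fields over `ℂ`, and an isomorphism of the line bundles over
it, given by `s ↦ c φ(s)` for some `c ∈ K'ˣ`, which maps stalks onto stalks. -/
def Pair.Iso (X Y : Pair r g d) : Prop :=
  ∃ (φ : X.K ≃ₐ[ℂ] Y.K) (c : Y.Kˣ), ∀ (v : Point Y.K) (s : X.K),
    s ∈ X.L.stalk (ptMap φ v) ↔ (c : Y.K) * φ s ∈ Y.L.stalk v

theorem Pair.Iso.refl (X : Pair r g d) : X.Iso X :=
  ⟨AlgEquiv.refl, 1, fun v s => by
    have h : ptMap (AlgEquiv.refl : X.K ≃ₐ[ℂ] X.K) v = v := by
      apply Point.ext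
      ext x
      rfl
    rw [h, Units.val_one, one_mul]
    rfl⟩

theorem Pair.Iso.symm {X Y : Pair r g d} (h : X.Iso Y) : Y.Iso X := by
  obtain ⟨φ, c, h⟩ := h
  refine ⟨φ.symm, Units.mk0 (φ.symm (c : Y.K)⁻¹) (by simp), fun v s => ?_⟩
  have h1 : ptMap φ (ptMap φ.symm v) = v := by
    apply Point.ext
    ext x
    rw [ptMap_val, ptMap_val, φ.symm_apply_apply]
  have h2 := h (ptMap φ.symm v) (φ.symm ((c : Y.K)⁻¹ * s))
  rw [h1, φ.apply_symm_apply, ← mul_assoc, mul_inv_cancel₀ c.ne_zero, one_mul, map_mul] at h2
  exact h2.symm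

theorem Pair.Iso.trans {X Y Z : Pair r g d} (h : X.Iso Y) (h' : Y.Iso Z) : X.Iso Z := by
  obtain ⟨φ, c, h⟩ := h
  obtain ⟨ψ, e, h'⟩ := h'
  refine ⟨φ.trans ψ, e * Units.mk0 (ψ (c : Y.K)) (by simp), fun v s => ?_⟩
  have h1 : ptMap (φ.trans ψ) v = ptMap φ (ptMap ψ v) := by
    apply Point.ext
    ext x
    rfl
  rw [h1, h, h', map_mul, Units.val_mul, Units.val_mk0, AlgEquiv.trans_apply, mul_assoc]

/-- isomorphism of pairs as an equivalence relation -/
instance pairSetoid (r g : ℕ) (d : ℤ) : Setoid (Pair r g d) where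
  r := Pair.Iso
  iseqv := ⟨Pair.Iso.refl, Pair.Iso.symm, Pair.Iso.trans⟩

/-- The set of closed points of the moduli space `𝒲^r_{d,g}`: the isomorphism classes of pairs
`(C, L)` of a curve `C` of genus `g` and a line bundle `L` of degree `d` on `C` with
`h⁰(C, L) ≥ r + 1`. -/
def WSpace (r g : ℕ) (d : ℤ) : Type 1 := Quotient (pairSetoid r g d)

/-- the point of the moduli space defined by a pair -/
def Pair.pt (X : Pair r g d) : WSpace r g d := Quotient.mk _ X

/-- The dimension `i p + j d + 1 - g` of `H⁰(C, P^i ⊗ L^j)` for line bundles `P` of degree `p ≥ 2 g + 1`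
and `L` of degree `d ≥ 0` on a curve of genus `g`, for `i ≥ 1` and `j ≥ 0`. -/
def dimPL (g : ℕ) (d : ℤ) (p i j : ℕ) : ℕ := ((i : ℤ) * p + j * d + 1 - g).toNat

/-- Algebraic families of pairs, parametrised by the affine variety `B` with coordinate ring `A`
(a finitely generated `ℂ`-algebra; the closed points of `B` are the `ℂ`-algebra homomorphisms
`b : A → ℂ`). The family is given by the pairs `(C_b, L_b)`, `b ∈ B`, and the condition is that locally
on `B` there are line bundles `P_b` of the same degree `p ≥ 2 g + 1` on the curves `C_b` such that the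
`(C_b, P_b, L_b)` form an algebraic family. Since `H¹(C_b, P_b^i ⊗ L_b^j) = 0` for `i ≥ 1` and `j ≥ 0`,
this means that, locally on `B`, the spaces `H⁰(C_b, P_b^i ⊗ L_b^j)`, `1 ≤ i ≤ m`, `0 ≤ j ≤ m`, have
bases `e_b i j` for which the multiplication
`H⁰(P_b^i ⊗ L_b^j) ⊗ H⁰(P_b^{i'} ⊗ L_b^{j'}) → H⁰(P_b^{i+i'} ⊗ L_b^{j+j'})` is given by structure
constants which are values `b(γ)` of regular functions `γ ∈ A`. (The line bundle `P_b` is very ample
with `C_b` cut out by quadrics and cubics, so the structure constants for small `m` determine the curves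
`C_b` and the line bundles `P_b` and `L_b` algebraically.) -/
def IsAlgebraicFamily {A : Type} [CommRing A] [Algebra ℂ A]
    (X : (A →ₐ[ℂ] ℂ) → Pair r g d) : Prop :=
  ∀ (b₀ : A →ₐ[ℂ] ℂ) (m : ℕ), ∃ f : A, b₀ f ≠ 0 ∧ ∃ p : ℕ, 2 * g + 1 ≤ p ∧
    ∃ γ : (i j i' j' : ℕ) → Fin (dimPL g d p i j) → Fin (dimPL g d p i' j') →
        Fin (dimPL g d p (i + i') (j + j')) → A,
      ∀ b : A →ₐ[ℂ] ℂ, b f ≠ 0 →
        ∃ P : LineBundle (X b).K, P.degree = p ∧
        ∃ e : (i j : ℕ) → Fin (dimPL g d p i j) → (X b).K,
          (∀ i j, 1 ≤ i → i ≤ m → j ≤ m → LinearIndependent ℂ (e i j) ∧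
            Submodule.span ℂ (Set.range (e i j)) = H0 (lmul (lpow P i) (lpow (X b).L j))) ∧
          (∀ i j i' j', 1 ≤ i → 1 ≤ i' → i + i' ≤ m → j + j' ≤ m → ∀ k k',
            e i j k * e i' j' k' = ∑ l, b (γ i j i' j' k k' l) • e (i + i') (j + j') l)

/-- The Zariski topology on `𝒲^r_{d,g}`: a set is open if its preimages under the maps defined by
algebraic families of pairs over affine varieties are Zariski open. -/
instance wTopology : TopologicalSpace (WSpace r g d) where
  IsOpen U := ∀ (A : Type) [CommRing A] [Algebra ℂ A] [Algebra.FiniteType ℂ A]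
    (X : (A →ₐ[ℂ] ℂ) → Pair r g d), IsAlgebraicFamily X → IsZariskiOpen {b | (X b).pt ∈ U}
  isOpen_univ := by
    intro A _ _ _ E _ b _
    exact ⟨1, by rw [map_one]; exact one_ne_zero, fun _ _ => trivial⟩
  isOpen_inter := by
    intro U V hU hV A _ _ _ E hE b hb
    obtain ⟨f, hf, hf'⟩ := hU A E hE b hb.1
    obtain ⟨g, hg, hg'⟩ := hV A E hE b hb.2
    refine ⟨f * g, by rw [map_mul]; exact mul_ne_zero hf hg, fun b' hb' => ?_⟩
    rw [map_mul] at hb'
    exact ⟨hf' b' (left_ne_zero_of_mul hb'), hg' b' (right_ne_zero_of_mul hb')⟩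
  isOpen_sUnion := by
    intro S hS A _ _ _ E hE b hb
    obtain ⟨U, hUS, hbU⟩ := hb
    obtain ⟨f, hf, hf'⟩ := hS U hUS A E hE b hbU
    exact ⟨f, hf, fun b' hb' => ⟨U, hUS, hf' b' hb'⟩⟩

/-- There is an algebraic family of pairs parametrised by an irreducible affine variety of dimension
`n`, all of whose members define points of `Z`, and such that every point of `Z` is defined by only
finitely many members of the family. -/
def HasFamily (Z : Set (WSpace r g d)) (n : ℕ) : Prop :=
  ∃ (A : Type) (_ : CommRing A) (_ : IsDomain A) (_ : Algebra ℂ A) (_ : Algebra.FiniteType ℂ A)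
    (X : (A →ₐ[ℂ] ℂ) → Pair r g d), IsAlgebraicFamily X ∧ Algebra.trdeg ℂ A = n ∧
      (∀ b, (X b).pt ∈ Z) ∧ ∀ z, {b | (X b).pt = z}.Finite

/-- The largest dimension of an algebraic family of pairs in `Z` in which every pair occurs only
finitely often. -/
noncomputable def moduliNumber (Z : Set (WSpace r g d)) : ℕ∞ :=
  ⨆ (n : ℕ) (_ : HasFamily Z n), (n : ℕ∞)

/-- The dimension of an irreducible closed subset `Z` of the moduli space: for every nonempty open
subset `Z ∩ U` of `Z`, it is the largest dimension of an algebraic family of pairs in `Z ∩ U` in which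
every pair occurs only finitely often. (The moduli space has quasi-finite coverings by varieties which
carry a family of pairs, and all nonempty open subsets of an irreducible variety have the same
dimension, so this number is the dimension of `Z`, and it is the same for all `U`.) -/
noncomputable def dimension (Z : Set (WSpace r g d)) : ℕ∞ :=
  ⨅ (U : Set (WSpace r g d)) (_ : IsOpen U) (_ : (Z ∩ U).Nonempty), moduliNumber (Z ∩ U)

/-- **The rigid curves conjecture** (Q1 of the problem): for every `r ≥ 0` there is a real number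
`C > 0` such that for all `g ≥ 2` and `d` with `g - d + r ≥ 2` every irreducible component of
`𝒲^r_{d,g}` has dimension at least `C g`. -/
def RigidCurvesConjecture : Prop :=
  ∀ r : ℕ, ∃ C : ℝ, 0 < C ∧ ∀ (g : ℕ) (d : ℤ), 2 ≤ g → 2 ≤ (g : ℤ) - d + r →
    ∀ Z ∈ irreducibleComponents (WSpace r g d),
      ENNReal.ofReal (C * g) ≤ ((dimension Z : ℕ∞) : ENNReal)

end Pool.Agent.H931.RC
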