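import Mathlib

/-!
# Derivations of `ℂ` with prescribed values at algebraically independent numbers
-/

set_option autoImplicit false

namespace Pool.Agent.H931.RC

open scoped IntermediateField.algebraAdjoinAdjoin

theorem formallySmooth_adjoin {ι : Type} (a : ι → ℂ) :
    Algebra.FormallySmooth (IntermediateField.adjoin ℚ (Set.range a)) ℂ := by
  obtain ⟨s, hs⟩ := exists_isTranscendenceBasis (IntermediateField.adjoin ℚ (Set.range a)) ℂ
  have h1 := hs.isAlgebraic_field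
  have h2 : Algebra.IsSeparable (IntermediateField.adjoin
    (IntermediateField.adjoin ℚ (Set.range a)) (Set.range ((↑) : s → ℂ))) ℂ := inferInstance
  exact Algebra.FormallySmooth.of_algebraicIndependent_of_isSeparable hs.1

theorem exists_hom {ι : Type} (a : ι → ℂ) (ha : AlgebraicIndependent ℚ a) (y : ι → ℂ) :
    ∃ ψ : ℂ →+* TrivSqZeroExt ℂ ℂ, (∀ x, (ψ x).fst = x) ∧ ∀ i, (ψ (a i)).snd = y i := by
  have h1 := formallySmooth_adjoin a
  have h2 : Algebra.FormallySmooth (Algebra.adjoin ℚ (Set.range a))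
      (IntermediateField.adjoin ℚ (Set.range a)) := .of_isLocalization (nonZeroDivisors _)
  have h3 : Algebra.FormallySmooth (Algebra.adjoin ℚ (Set.range a)) ℂ :=
    .comp _ (IntermediateField.adjoin ℚ (Set.range a)) _
  set φ : MvPolynomial ι ℚ →ₐ[ℚ] TrivSqZeroExt ℂ ℂ :=
    MvPolynomial.aeval (fun i => TrivSqZeroExt.inl (a i) + TrivSqZeroExt.inr (y i)) with hφ
  set ψ₀ : Algebra.adjoin ℚ (Set.range a) →+* TrivSqZeroExt ℂ ℂ :=
    (φ : MvPolynomial ι ℚ →+* TrivSqZeroExt ℂ ℂ).comp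
      (ha.aevalEquiv.symm : Algebra.adjoin ℚ (Set.range a) →+* MvPolynomial ι ℚ) with hψ₀
  have hfst : ∀ x, (ψ₀ x).fst = (x : ℂ) := by
    intro x
    obtain ⟨p, rfl⟩ := ha.aevalEquiv.surjective x
    have h4 : ψ₀ (ha.aevalEquiv p) = φ p := by
      rw [hψ₀, RingHom.comp_apply]
      have h9 : (ha.aevalEquiv.symm : Algebra.adjoin ℚ (Set.range a) →+* MvPolynomial ι ℚ)
        (ha.aevalEquiv p) = p := ha.aevalEquiv.symm_apply_apply p
      rw [h9]
      rfl
    rw [h4, ha.algebraMap_aevalEquiv p |> fun h => (show ((ha.aevalEquiv p :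
      Algebra.adjoin ℚ (Set.range a)) : ℂ) = MvPolynomial.aeval a p from h)]
    have h5 : ((TrivSqZeroExt.fstHom ℚ ℂ ℂ).comp φ) = MvPolynomial.aeval a := by
      apply MvPolynomial.algHom_ext
      intro i
      rw [AlgHom.comp_apply, hφ, MvPolynomial.aeval_X, MvPolynomial.aeval_X]
      simp
    rw [← h5]
    rfl
  let _ : Algebra (Algebra.adjoin ℚ (Set.range a)) (TrivSqZeroExt ℂ ℂ) := ψ₀.toAlgebra
  let g : TrivSqZeroExt ℂ ℂ →ₐ[Algebra.adjoin ℚ (Set.range a)] ℂ :=
    { (TrivSqZeroExt.fstHom ℂ ℂ ℂ : TrivSqZeroExt ℂ ℂ →+* ℂ) with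
      commutes' := fun x => hfst x }
  have hgs : Function.Surjective g := fun x => ⟨TrivSqZeroExt.inl x, TrivSqZeroExt.fst_inl ℂ x⟩
  have hgn : IsNilpotent (RingHom.ker (g : TrivSqZeroExt ℂ ℂ →+* ℂ)) := by
    refine ⟨2, ?_⟩
    have hsq : (RingHom.ker (g : TrivSqZeroExt ℂ ℂ →+* ℂ)) ^ 2 =
      RingHom.ker (g : TrivSqZeroExt ℂ ℂ →+* ℂ) * RingHom.ker (g : TrivSqZeroExt ℂ ℂ →+* ℂ) :=
        pow_two _
    rw [hsq, Ideal.zero_eq_bot, eq_bot_iff, Ideal.mul_le]
    intro r hr s hs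
    have hr' : r.fst = 0 := hr
    have hs' : s.fst = 0 := hs
    rw [Ideal.mem_bot]
    apply TrivSqZeroExt.ext
    · rw [TrivSqZeroExt.fst_mul, hr', zero_mul, TrivSqZeroExt.fst_zero]
    · rw [TrivSqZeroExt.snd_mul, hr', hs', TrivSqZeroExt.snd_zero]
      simp
  let ψ := Algebra.FormallySmooth.liftOfSurjective (R := Algebra.adjoin ℚ (Set.range a))
    (AlgHom.id _ ℂ) g hgs hgn
  refine ⟨ψ, fun x => ?_, fun i => ?_⟩
  · exact Algebra.FormallySmooth.liftOfSurjective_apply (AlgHom.id _ ℂ) g hgs hgn x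
  · have h6 : ψ (algebraMap (Algebra.adjoin ℚ (Set.range a)) ℂ
      ⟨a i, Algebra.subset_adjoin (Set.mem_range_self i)⟩) = ψ₀ ⟨a i, Algebra.subset_adjoin
        (Set.mem_range_self i)⟩ := ψ.commutes _
    have h7 : ha.aevalEquiv (MvPolynomial.X i) = ⟨a i, Algebra.subset_adjoin
        (Set.mem_range_self i)⟩ := by
      apply Subtype.ext
      rw [show ((ha.aevalEquiv (MvPolynomial.X i) : Algebra.adjoin ℚ (Set.range a)) : ℂ) =
        MvPolynomial.aeval a (MvPolynomial.X i) from ha.algebraMap_aevalEquiv _,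
        MvPolynomial.aeval_X]
    have h8 : ψ₀ ⟨a i, Algebra.subset_adjoin (Set.mem_range_self i)⟩ =
        TrivSqZeroExt.inl (a i) + TrivSqZeroExt.inr (y i) := by
      rw [← h7, hψ₀, RingHom.comp_apply]
      have h9 : (ha.aevalEquiv.symm : Algebra.adjoin ℚ (Set.range a) →+* MvPolynomial ι ℚ)
        (ha.aevalEquiv (MvPolynomial.X i)) = MvPolynomial.X i :=
          ha.aevalEquiv.symm_apply_apply _
      rw [h9, hφ]
      exact MvPolynomial.aeval_X _ _
    rw [h8] at h6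
    change (ψ (a i)).snd = y i
    rw [show ψ (a i) = _ from h6]
    simp

/-- derivations of `ℂ` -/
theorem exists_der {ι : Type} (a : ι → ℂ) (ha : AlgebraicIndependent ℚ a) (y : ι → ℂ) :
    ∃ D : ℂ →+ ℂ, (∀ x z, D (x * z) = x * D z + z * D x) ∧ ∀ i, D (a i) = y i := by
  obtain ⟨ψ, h1, h2⟩ := exists_hom a ha y
  refine ⟨⟨⟨fun x => (ψ x).snd, ?_⟩, fun x z => ?_⟩, fun x z => ?_, h2⟩
  · simp only [map_zero, TrivSqZeroExt.snd_zero]
  · simp only [map_add, TrivSqZeroExt.snd_add]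
  · change (ψ (x * z)).snd = x * (ψ z).snd + z * (ψ x).snd
    simp only [map_mul, TrivSqZeroExt.snd_mul, h1, smul_eq_mul, MulOpposite.smul_eq_mul_unop,
      MulOpposite.unop_op]
    ring

theorem exists_algInd (ι : Type) [Finite ι] : ∃ a : ι → ℂ, AlgebraicIndependent ℚ a := by
  obtain ⟨s, hs⟩ := exists_isTranscendenceBasis ℚ ℂ
  have h1 : Infinite s := by
    by_contra hfin
    rw [not_infinite_iff_finite] at hfin
    have h2 : Countable s := Finite.to_countable
    have h3 : Algebra.IsAlgebraic (IntermediateField.adjoin ℚ (Set.range ((↑) : s → ℂ))) ℂ :=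
      hs.isAlgebraic_field
    have h4 : Cardinal.mk ℂ ≤ max (Cardinal.mk (IntermediateField.adjoin ℚ
      (Set.range ((↑) : s → ℂ)))) Cardinal.aleph0 := Algebra.IsAlgebraic.cardinalMk_le_max _ _
    have h5 : Cardinal.mk (IntermediateField.adjoin ℚ (Set.range ((↑) : s → ℂ))) ≤
        Cardinal.aleph0 := by
      refine (IntermediateField.cardinalMk_adjoin_le ℚ _).trans ?_
      refine max_le (max_le Cardinal.mk_le_aleph0 ?_) le_rfl
      have h6 : Countable (Set.range ((↑) : s → ℂ)) := (Set.countable_range _).to_subtype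
      exact Cardinal.mk_le_aleph0
    rw [max_eq_right h5, Cardinal.mk_complex] at h4
    exact absurd h4 (not_le.2 Cardinal.aleph0_lt_continuum)
  obtain ⟨n, ⟨e⟩⟩ := Finite.exists_equiv_fin ι
  let f : ℕ ↪ s := Infinite.natEmbedding s
  refine ⟨fun i => (f (e i) : ℂ), ?_⟩
  exact hs.1.comp (fun i => f (e i)) (fun x y hxy => e.injective (Fin.ext (f.injective hxy)))

end Pool.Agent.H931.RC
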