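import Mathlib

/-!
# Local rings with principal maximal ideal
-/

set_option autoImplicit false

namespace Pool.Agent.H931.RC

open IsLocalRing

/-- a Noetherian local ring whose maximal ideal is generated by a nonzerodivisor is a domain -/
theorem isDomain_of_principal {L : Type*} [CommRing L] [IsNoetherianRing L] [IsLocalRing L] (x : L)
    (hx : maximalIdeal L = Ideal.span {x}) (hreg : x ∈ nonZeroDivisors L) : IsDomain L := by
  have hpow : ∀ z : L, z ≠ 0 → ∃ (n : ℕ) (u : L), IsUnit u ∧ z = x ^ n * u := by
    intro z hz
    have h1 : ⨅ i : ℕ, (maximalIdeal L) ^ i = ⊥ :=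
      Ideal.iInf_pow_eq_bot_of_isLocalRing _ (Ideal.IsPrime.ne_top inferInstance)
    have h2 : ∃ n : ℕ, z ∉ (maximalIdeal L) ^ n := by
      by_contra hcon
      push Not at hcon
      apply hz
      have h3 : z ∈ ⨅ i : ℕ, (maximalIdeal L) ^ i := by
        rw [Ideal.mem_iInf]
        exact hcon
      rw [h1] at h3
      exact h3
    classical
    set n := Nat.find h2 with hn
    have h3 : z ∉ (maximalIdeal L) ^ n := Nat.find_spec h2
    have h4 : n ≠ 0 := by
      intro h5
      rw [h5, pow_zero, Ideal.one_eq_top] at h3
      exact h3 trivial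
    obtain ⟨m, hm⟩ : ∃ m, n = m + 1 := ⟨n - 1, by omega⟩
    have h5 : z ∈ (maximalIdeal L) ^ m := by
      by_contra h6
      exact Nat.find_min h2 (m := m) (by omega) h6
    rw [hx, Ideal.span_singleton_pow, Ideal.mem_span_singleton] at h5
    obtain ⟨u, hu⟩ := h5
    refine ⟨m, u, ?_, hu⟩
    by_contra h6
    have h7 : u ∈ maximalIdeal L := (mem_maximalIdeal u).2 h6
    rw [hx, Ideal.mem_span_singleton] at h7
    obtain ⟨w, hw⟩ := h7
    apply h3
    rw [hm, hx, Ideal.span_singleton_pow, Ideal.mem_span_singleton]
    exact ⟨w, by rw [hu, hw, pow_succ]; ring⟩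
  have : NoZeroDivisors L := by
    refine ⟨fun {y z} hyz => ?_⟩
    by_contra hcon
    push Not at hcon
    obtain ⟨n, u, hu, hy⟩ := hpow y hcon.1
    obtain ⟨m, w, hw, hz⟩ := hpow z hcon.2
    have h1 : x ^ (n + m) * (u * w) = 0 := by
      rw [← hyz, hy, hz, pow_add]
      ring
    have h2 : u * w = 0 := by
      have h3 := pow_mem hreg (n + m)
      rw [mem_nonZeroDivisors_iff] at h3
      exact h3.1 _ h1
    have h4 := (hu.mul hw).ne_zero
    exact h4 h2
  exact NoZeroDivisors.to_isDomain L

/-- a Noetherian ring with trivial idempotents whose localizations at the maximal ideals are domains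
is a domain -/
theorem isDomain_of_local {R : Type*} [CommRing R] [Nontrivial R] [IsNoetherianRing R]
    (hloc : ∀ (m : Ideal R) [m.IsMaximal], IsDomain (Localization.AtPrime m))
    (hid : ∀ e : R, e * e = e → e = 0 ∨ e = 1) : IsDomain R := by
  have : NoZeroDivisors R := by
    refine ⟨fun {x y} hxy => ?_⟩
    by_contra hcon
    push Not at hcon
    set J : Ideal R := Ideal.span {x} |>.annihilator with hJ
    have hmemJ : ∀ z, z ∈ J ↔ z * x = 0 := by
      intro z
      rw [hJ, Submodule.mem_annihilator_span_singleton, smul_eq_mul]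
    have hidem : IsIdempotentElem J := by
      refine le_antisymm Ideal.mul_le_right fun a ha => ?_
      have hK : (⊤ : Ideal R) ≤ (J * J).colon {a} := by
        by_contra hne
        have hne' : (J * J).colon {a} ≠ ⊤ := fun h => hne (by rw [h])
        obtain ⟨m, hm, hle⟩ := Ideal.exists_le_maximal _ hne'
        have := hloc m
        have hax : algebraMap R (Localization.AtPrime m) a *
            algebraMap R (Localization.AtPrime m) x = 0 := by
          rw [← map_mul, (hmemJ a).1 ha, map_zero]
        have key : ∀ z : R, algebraMap R (Localization.AtPrime m) z = 0 →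
            ∃ r, r ∉ m ∧ r * z = 0 := by
          intro z hz
          rw [IsLocalization.map_eq_zero_iff m.primeCompl] at hz
          obtain ⟨⟨r, hr⟩, hrz⟩ := hz
          exact ⟨r, hr, hrz⟩
        rcases mul_eq_zero.1 hax with h1 | h1
        · obtain ⟨r, hr, hra⟩ := key a h1
          apply hr
          apply hle
          rw [Submodule.mem_colon_singleton, smul_eq_mul, hra]
          exact Submodule.zero_mem _
        · obtain ⟨r, hr, hrx⟩ := key x h1
          apply hr
          apply hle
          rw [Submodule.mem_colon_singleton, smul_eq_mul]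
          exact Ideal.mul_mem_mul ((hmemJ r).2 hrx) ha
      have h1 : (1 : R) ∈ (J * J).colon {a} := hK trivial
      rwa [Submodule.mem_colon_singleton, one_smul] at h1
    obtain ⟨e, he, heJ⟩ := (Ideal.isIdempotentElem_iff_of_fg J
      (IsNoetherian.noetherian J)).1 hidem
    rcases hid e he with rfl | rfl
    · have h1 : y ∈ J := (hmemJ y).2 (by rw [mul_comm]; exact hxy)
      rw [heJ] at h1
      simp at h1
      exact hcon.2 h1
    · have h1 : (1 : R) ∈ J := by rw [heJ]; exact Ideal.mem_span_singleton_self 1
      rw [hmemJ, one_mul] at h1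
      exact hcon.1 h1
  exact NoZeroDivisors.to_isDomain R

/-- if `m ⊆ (x) + m²`, then the maximal ideal of the localization is generated by `x` -/
theorem maximalIdeal_eq_span {R : Type*} [CommRing R] [IsNoetherianRing R] (m : Ideal R)
    [m.IsMaximal] (x : R) (hx : x ∈ m) (h : m ≤ Ideal.span {x} ⊔ m ^ 2) :
    maximalIdeal (Localization.AtPrime m) =
      Ideal.span {algebraMap R (Localization.AtPrime m) x} := by
  have h1 : maximalIdeal (Localization.AtPrime m) =
      m.map (algebraMap R (Localization.AtPrime m)) :=
    (Localization.AtPrime.map_eq_maximalIdeal).symm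
  apply le_antisymm
  · have h2 : maximalIdeal (Localization.AtPrime m) ≤
        Ideal.span {algebraMap R (Localization.AtPrime m) x} ⊔
          maximalIdeal (Localization.AtPrime m) • maximalIdeal (Localization.AtPrime m) := by
      have h3 := Ideal.map_mono (f := algebraMap R (Localization.AtPrime m)) h
      rw [Ideal.map_sup, Ideal.map_span, Set.image_singleton, Ideal.map_pow, ← h1, pow_two] at h3
      exact h3
    exact Submodule.le_of_le_smul_of_le_jacobson_bot (IsNoetherian.noetherian _)
      (IsLocalRing.maximalIdeal_le_jacobson _) h2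
  · rw [Ideal.span_singleton_le_iff_mem, h1]
    exact Ideal.mem_map_of_mem _ hx

end Pool.Agent.H931.RC
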