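import Pool.Agent.H931.RC.Reg

/-!
# Regularity of a generic determinantal curve: the cotangent spaces are one-dimensional
-/

set_option autoImplicit false

namespace Pool.Agent.H931.RC

open Matrix

variable {t : ℕ}

theorem map_NN {R : Type*} [CommRing R] [Algebra ℂ R] (a : Fin t × Fin (t + 1) → ℂ)
    (B : Matrix (Fin t) (Fin (t + 1)) ℤ) (u v s : R) {S : Type*} [CommRing S] [Algebra ℂ S]
    (φ : R →ₐ[ℂ] S) (i : Fin t) (j : Fin (t + 1)) :
    φ (NN a B u v s i j) = NN a B (φ u) (φ v) (φ s) i j := by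
  simp only [NN, Psi, bid, map_sub, apply_ite φ, map_zero, map_mul, map_intCast, AlgHom.commutes]

theorem map_pad_NN {R : Type*} [CommRing R] [Algebra ℂ R] (a : Fin t × Fin (t + 1) → ℂ)
    (B : Matrix (Fin t) (Fin (t + 1)) ℤ) (u v s : R) {S : Type*} [CommRing S] [Algebra ℂ S]
    (φ : R →ₐ[ℂ] S) : (pad (NN a B u v s)).map φ = pad (NN a B (φ u) (φ v) (φ s)) := by
  ext i j
  rw [Matrix.map_apply]
  unfold pad
  split_ifs with h
  · exact map_NN a B u v s φ _ _
  · exact map_zero _

/-- the linear algebra of the derivation argument -/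
theorem surj_aux (a : Fin t × Fin (t + 1) → ℂ) (ha : AlgebraicIndependent ℚ a)
    (B : Matrix (Fin t) (Fin (t + 1)) ℤ) (u v s : ℂ) (V U : Matrix (Fin (t + 1)) (Fin (t + 1)) ℂ)
    (hV : IsUnit V.det) (hU : IsUnit U.det) (d : Fin (t + 1) → ℂ)
    (hE : V * pad (NN a B u v s) * U = Matrix.diagonal d) (hZ : ∃ a, d a = 0) :
    ∃ a₃, d a₃ = 0 ∧ ∀ ζ : Fin (t + 1) → Fin (t + 1) → ℂ, ∃ x : Fin 3 → ℂ, ∀ a' b, d a' = 0 →
      a' ≠ a₃ → d b = 0 → ∑ k, x k * Th B V U k a' b = ζ a' b := by
  classical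
  set S₀ := pad (NN a B u v s) with hS₀
  have hcol : ∀ q, d q = 0 → ∀ i, (S₀ * U) i q = 0 := by
    intro q hq i
    have h1 : S₀ * U = V⁻¹ * Matrix.diagonal d := by
      rw [← hE, mul_assoc V, ← mul_assoc V⁻¹, Matrix.nonsing_inv_mul V hV, one_mul]
    rw [h1, Matrix.mul_diagonal, hq, mul_zero]
  have hrow : ∀ p, d p = 0 → ∀ k, (V * S₀) p k = 0 := by
    intro p hp k
    have h1 : V * S₀ = Matrix.diagonal d * U⁻¹ := by
      rw [← hE, mul_assoc _ U, Matrix.mul_nonsing_inv U hU, mul_one]
    rw [h1, Matrix.diagonal_mul, hp, zero_mul]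
  set μ : Fin (t + 1) → ℂ := fun i => V⁻¹ (Fin.last t) i with hμ
  obtain ⟨a₃, ha₃, hμ₃⟩ : ∃ a₃, d a₃ = 0 ∧ (μ a₃ ≠ 0 ∨ ∀ i, d i = 0 → μ i = 0) := by
    by_cases h : ∃ a₃, d a₃ = 0 ∧ μ a₃ ≠ 0
    · obtain ⟨a₃, h1, h2⟩ := h
      exact ⟨a₃, h1, Or.inl h2⟩
    · push Not at h
      obtain ⟨a₃, h1⟩ := hZ
      exact ⟨a₃, h1, Or.inr h⟩
  refine ⟨a₃, ha₃, fun ζ => ?_⟩
  set ζ' : Fin (t + 1) → Fin (t + 1) → ℂ := fun i j => if d i = 0 ∧ d j = 0 then ζ i j else 0
    with hζ'
  set T : Fin (t + 1) → ℂ := fun j => ∑ i ∈ Finset.univ.erase a₃, μ i * ζ' i j with hT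
  set X : Matrix (Fin (t + 1)) (Fin (t + 1)) ℂ := fun i j =>
    if i = a₃ then -(T j) / μ a₃ else ζ' i j with hX
  have hμX : ∀ j, ∑ i, μ i * X i j = 0 := by
    intro j
    rw [← Finset.add_sum_erase _ _ (Finset.mem_univ a₃)]
    have h1 : ∑ i ∈ Finset.univ.erase a₃, μ i * X i j = T j := by
      refine Finset.sum_congr rfl fun i hi => ?_
      rw [hX]
      simp only
      rw [if_neg (Finset.ne_of_mem_erase hi)]
    rw [h1]
    have h2 : X a₃ j = -(T j) / μ a₃ := if_pos rfl
    rw [h2]
    rcases hμ₃ with h3 | h3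
    · field_simp
      ring
    · have h4 : T j = 0 := by
        refine Finset.sum_eq_zero fun i _ => ?_
        rw [hζ']
        simp only
        split_ifs with h5
        · rw [h3 i h5.1, zero_mul]
        · rw [mul_zero]
      rw [h4]
      simp
  set Yh : Matrix (Fin (t + 1)) (Fin (t + 1)) ℂ := V⁻¹ * X * U⁻¹ with hYh
  have hlast : ∀ j, Yh (Fin.last t) j = 0 := by
    intro j
    rw [hYh, Matrix.mul_apply]
    refine Finset.sum_eq_zero fun k _ => ?_
    rw [Matrix.mul_apply]
    have := hμX k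
    rw [hμ] at this
    rw [this, zero_mul]
  set Y : Matrix (Fin t) (Fin (t + 1)) ℂ := fun i j => Yh i.castSucc j with hY
  have hpad : pad Y = Yh := by
    ext i j
    refine Fin.lastCases ?_ (fun i => ?_) i
    · rw [pad_last, hlast]
    · rw [pad_castSucc]
  obtain ⟨x, hx⟩ := deriv_identity a ha B u v s V U Y
  refine ⟨x, fun a' b ha' hne hb => ?_⟩
  rw [← hx a' b (hrow a' ha') (hcol b hb), hpad]
  have h1 : V * Yh * U = X := by
    rw [hYh, ← mul_assoc V, ← mul_assoc V, Matrix.mul_nonsing_inv V hV, one_mul, mul_assoc,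
      Matrix.nonsing_inv_mul U hU, mul_one]
  rw [h1, hX]
  simp only
  rw [if_neg hne, hζ']
  simp only
  rw [if_pos ⟨ha', hb⟩]

theorem reg {R : Type*} [CommRing R] [Algebra ℂ R] (a : Fin t × Fin (t + 1) → ℂ)
    (ha : AlgebraicIndependent ℚ a) (B : Matrix (Fin t) (Fin (t + 1)) ℤ) (ε : R →ₐ[ℂ] ℂ)
    (u v s : R) (hN : ∀ j, mnr (NN a B u v s) j = 0) (w : Fin 3 → R)
    (hw : w = ![u - algebraMap ℂ R (ε u), v - algebraMap ℂ R (ε v), s - algebraMap ℂ R (ε s)]) :
    ∃ κ : Fin 3 → ℂ, ∀ k : Fin 3, w k ∈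
      Ideal.span {∑ l, algebraMap ℂ R (κ l) * w l} ⊔ (RingHom.ker (ε : R →+* ℂ)) ^ 2 := by
  classical
  set S := pad (NN a B u v s) with hS
  set S₀ := pad (NN a B (ε u) (ε v) (ε s)) with hS₀
  have hSε : S.map ε = S₀ := map_pad_NN a B u v s ε
  have hadj : S.adjugate = 0 := adj_pad _ hN
  have hadj₀ : S₀.adjugate = 0 := by
    have h1 := RingHom.map_adjugate (ε : R →+* ℂ) S
    rw [hadj, map_zero] at h1
    have h2 : (ε : R →+* ℂ).mapMatrix S = S₀ := hSε
    rw [h2] at h1
    exact h1.symm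
  obtain ⟨V, U, e, hV, hU, hE⟩ := Matrix.exists_rank_normal_form S₀
  have hVd : IsUnit V.det := (Matrix.isUnit_iff_isUnit_det _).1 hV
  have hUd : IsUnit U.det := (Matrix.isUnit_iff_isUnit_det _).1 hU
  set d : Fin (t + 1) → ℂ := fun i => if (e i).isLeft then 1 else 0 with hd
  have hEd : V * S₀ * U = Matrix.diagonal d := by
    rw [hE]
    ext i j
    rw [Matrix.submatrix_apply]
    rcases hi : e i with x | x <;> rcases hj : e j with y | y
    · rw [Matrix.fromBlocks_apply₁₁]
      rcases eq_or_ne i j with rfl | hij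
      · have : x = y := by rw [hi] at hj; exact Sum.inl_injective hj
        rw [this, Matrix.one_apply_eq, Matrix.diagonal_apply_eq, hd]
        simp [hi]
      · rw [Matrix.diagonal_apply_ne _ hij, Matrix.one_apply_ne]
        rintro rfl
        exact hij (e.injective (hi.trans hj.symm))
    · rw [Matrix.fromBlocks_apply₁₂, Matrix.zero_apply, Matrix.diagonal_apply_ne]
      rintro rfl
      rw [hi] at hj
      exact absurd hj (by simp)
    · rw [Matrix.fromBlocks_apply₂₁, Matrix.zero_apply, Matrix.diagonal_apply_ne]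
      rintro rfl
      rw [hi] at hj
      exact absurd hj (by simp)
    · rw [Matrix.fromBlocks_apply₂₂, Matrix.zero_apply]
      rcases eq_or_ne i j with rfl | hij
      · rw [Matrix.diagonal_apply_eq, hd]
        simp [hi]
      · rw [Matrix.diagonal_apply_ne _ hij]
  have hd01 : ∀ i, d i = 0 ∨ d i = 1 := by
    intro i
    rw [hd]
    simp only
    split_ifs
    · exact Or.inr rfl
    · exact Or.inl rfl
  have hadjE : (Matrix.diagonal d).adjugate = 0 := by
    rw [← hEd, Matrix.adjugate_mul_distrib, Matrix.adjugate_mul_distrib, hadj₀]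
    simp
  -- at least two zeros
  have hZ2 : ∀ p : Fin (t + 1), ∃ q, q ≠ p ∧ d q = 0 := by
    intro p
    by_contra hcon
    push Not at hcon
    have h1 := congrFun (congrFun hadjE p) p
    rw [Matrix.adjugate_diagonal, Matrix.diagonal_apply_eq, Matrix.zero_apply,
      Finset.prod_eq_zero_iff] at h1
    obtain ⟨q, hq, hq0⟩ := h1
    exact hcon q (Finset.ne_of_mem_erase hq) hq0
  obtain ⟨a₃, ha₃, hK⟩ := surj_aux a ha B (ε u) (ε v) (ε s) V U hVd hUd d hEd
    (by obtain ⟨q, -, hq⟩ := hZ2 0; exact ⟨q, hq⟩)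
  obtain ⟨p, hpa, hp0⟩ := hZ2 a₃
  have hle2 : ∀ q, d q = 0 → q ≠ a₃ → q = p := by
    intro q hq hqa
    by_contra hqp
    set f : Fin 2 → Fin (t + 1) := ![p, q] with hf
    set F : (Fin 3 → ℂ) →ₗ[ℂ] (Fin 2 × Fin 2 → ℂ) :=
      { toFun := fun x ij => ∑ k, x k * Th B V U k (f ij.1) (f ij.2)
        map_add' := by
          intro x y
          funext ij
          simp only [Pi.add_apply, add_mul, Finset.sum_add_distrib]
        map_smul' := by
          intro c x
          funext ij
          simp only [Pi.smul_apply, smul_eq_mul, RingHom.id_apply, Finset.mul_sum, mul_assoc] }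
      with hF
    have hFs : Function.Surjective F := by
      intro τ
      obtain ⟨x, hx⟩ := hK (fun i j => τ (if i = p then 0 else 1, if j = p then 0 else 1))
      refine ⟨x, funext fun ij => ?_⟩
      have hfz : ∀ i : Fin 2, d (f i) = 0 := by
        intro i
        fin_cases i
        · exact hp0
        · exact hq
      have hfa : ∀ i : Fin 2, f i ≠ a₃ := by
        intro i
        fin_cases i
        · exact hpa
        · exact hqa
      have hfi : ∀ i : Fin 2, (if f i = p then (0 : Fin 2) else 1) = i := by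
        intro i
        fin_cases i
        · simp [hf]
        · simp [hf, hqp]
      have h1 := hx (f ij.1) (f ij.2) (hfz _) (hfa _) (hfz _)
      rw [hfi, hfi] at h1
      exact h1
    have h2 := LinearMap.finrank_le_finrank_of_surjective hFs
    simp at h2
  have hd1 : ∀ i, i ≠ a₃ → i ≠ p → d i = 1 := by
    intro i h1 h2
    rcases hd01 i with h3 | h3
    · exact absurd (hle2 i h3 h1) h2
    · exact h3
  -- the transformed matrix
  set VR : Matrix (Fin (t + 1)) (Fin (t + 1)) R := V.map (algebraMap ℂ R) with hVR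
  set UR : Matrix (Fin (t + 1)) (Fin (t + 1)) R := U.map (algebraMap ℂ R) with hUR
  set S' := VR * S * UR with hS'
  have hS'adj : S'.adjugate = 0 := by
    rw [hS', Matrix.adjugate_mul_distrib, Matrix.adjugate_mul_distrib, hadj]
    simp
  have hmapc : ∀ M : Matrix (Fin (t + 1)) (Fin (t + 1)) ℂ,
      (M.map (algebraMap ℂ R)).map (ε : R →+* ℂ) = M := by
    intro M
    ext i j
    simp only [Matrix.map_apply]
    exact ε.commutes _
  have hS'ε : S'.map (ε : R →+* ℂ) = Matrix.diagonal d := by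
    rw [hS', Matrix.map_mul, Matrix.map_mul, hVR, hUR, hmapc, hmapc, ← hEd]
    congr 2
  have hpp : S' p p ∈ (RingHom.ker (ε : R →+* ℂ)) ^ 2 :=
    diag_mem (ε : R →+* ℂ) S' hS'adj d hS'ε a₃ p hpa.symm hp0 hd1
  have hpa3 : S' p a₃ ∈ (RingHom.ker (ε : R →+* ℂ)) ^ 2 := by
    set T : Matrix (Fin (t + 1)) (Fin (t + 1)) R := 1 + Matrix.single a₃ p 1 with hT
    have h1 : (S' * T).adjugate = 0 := by
      rw [Matrix.adjugate_mul_distrib, hS'adj, mul_zero]
    have h2 : (S' * T).map (ε : R →+* ℂ) = Matrix.diagonal d := by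
      rw [Matrix.map_mul, hS'ε]
      have h3 : T.map (ε : R →+* ℂ) = 1 + Matrix.single a₃ p 1 := by
        rw [hT, Matrix.map_add _ (fun x y => map_add _ x y)]
        congr 1
        · exact Matrix.map_one _ (map_zero _) (map_one _)
        · rw [Matrix.map_single, map_one]
      rw [h3, mul_add, mul_one]
      have h4 : Matrix.diagonal d * Matrix.single a₃ p 1 = 0 := by
        ext i j
        rw [Matrix.diagonal_mul, Matrix.zero_apply]
        rcases eq_or_ne i a₃ with rfl | hi
        · rw [ha₃, zero_mul]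
        · rw [Matrix.single_apply_of_row_ne hi.symm, mul_zero]
      rw [h4, add_zero]
    have h3 := diag_mem (ε : R →+* ℂ) (S' * T) h1 d h2 a₃ p hpa.symm hp0 hd1
    have h4 : (S' * T) p p = S' p p + S' p a₃ := by
      rw [hT, mul_add, mul_one, Matrix.add_apply]
      congr 1
      rw [Matrix.mul_apply, Finset.sum_eq_single a₃]
      · rw [Matrix.single_apply_same, mul_one]
      · intro i _ hi
        rw [Matrix.single_apply_of_row_ne hi.symm, mul_zero]
      · intro h; exact absurd (Finset.mem_univ _) h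
    rw [h4] at h3
    have h5 := Ideal.sub_mem _ h3 hpp
    rwa [add_sub_cancel_left] at h5
  -- the linear relations
  have hSdec : ∀ i j, S i j = algebraMap ℂ R (S₀ i j) + ∑ k, w k * algebraMap ℂ R
      ((![pad (Psi t 1 0), pad (Psi t 0 1), -pad (B.map (Int.cast : ℤ → ℂ))] :
        Fin 3 → Matrix (Fin (t + 1)) (Fin (t + 1)) ℂ) k i j) := by
    intro i j
    rw [Fin.sum_univ_three, hS, hS₀, hw]
    simp only [Matrix.cons_val_zero, Matrix.cons_val_one, Matrix.cons_val_two,
      Matrix.head_cons, Matrix.tail_cons, Matrix.neg_apply]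
    unfold pad
    split_ifs with h
    · simp only [NN, Psi, bid, Matrix.map_apply, map_sub, map_mul, map_neg, map_intCast,
        apply_ite (algebraMap ℂ R), map_zero, map_one, Algebra.algebraMap_self, RingHom.id_apply]
      split_ifs <;> ring
    · simp
  have hS'dec : ∀ i j, S' i j = algebraMap ℂ R (Matrix.diagonal d i j) +
      ∑ k, w k * algebraMap ℂ R (Th B V U k i j) := by
    intro i j
    have h1 : ∀ M : Matrix (Fin (t + 1)) (Fin (t + 1)) R,
        (VR * M * UR) i j = ∑ l, ∑ m, VR i m * M m l * UR l j := by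
      intro M
      rw [Matrix.mul_apply]
      refine Finset.sum_congr rfl fun k _ => ?_
      rw [Matrix.mul_apply, Finset.sum_mul]
    have h2 : ∀ M : Matrix (Fin (t + 1)) (Fin (t + 1)) ℂ,
        algebraMap ℂ R ((V * M * U) i j) = ∑ l, ∑ m, VR i m * algebraMap ℂ R (M m l) * UR l j := by
      intro M
      rw [Matrix.mul_apply, map_sum]
      refine Finset.sum_congr rfl fun k _ => ?_
      rw [Matrix.mul_apply, Finset.sum_mul, map_sum]
      refine Finset.sum_congr rfl fun m _ => ?_
      rw [map_mul, map_mul]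
      rfl
    rw [hS', h1, ← hEd, h2]
    simp only [Th, h2, hSdec, Finset.mul_sum]
    rw [Finset.sum_comm (s := Finset.univ (α := Fin 3)), ← Finset.sum_add_distrib]
    refine Finset.sum_congr rfl fun l _ => ?_
    rw [Finset.sum_comm (s := Finset.univ (α := Fin 3)), ← Finset.sum_add_distrib]
    refine Finset.sum_congr rfl fun m _ => ?_
    rw [mul_add, add_mul, Finset.mul_sum, Finset.sum_mul]
    congr 1
    exact Finset.sum_congr rfl fun k _ => by ring
  have hrel : ∀ b, d b = 0 → (b = p ∨ b = a₃) →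
      ∑ k, w k * algebraMap ℂ R (Th B V U k p b) ∈ (RingHom.ker (ε : R →+* ℂ)) ^ 2 := by
    intro b hb hb'
    have h1 := hS'dec p b
    have h2 : Matrix.diagonal d p b = 0 := by
      rcases eq_or_ne p b with rfl | h
      · rw [Matrix.diagonal_apply_eq, hp0]
      · rw [Matrix.diagonal_apply_ne _ h]
    rw [h2, map_zero, zero_add] at h1
    rw [← h1]
    rcases hb' with rfl | rfl
    · exact hpp
    · exact hpa3
  -- extension to a basis
  set θ : Fin 2 → Fin 3 → ℂ := ![fun k => Th B V U k p p, fun k => Th B V U k p a₃] with hθ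
  have hli : LinearIndependent ℂ θ := by
    rw [LinearIndependent.pair_iff' (by
      intro h0
      obtain ⟨x, hx⟩ := hK (fun _ _ => 1)
      have h1 := hx p p hp0 hpa hp0
      have h2 : ∀ k, Th B V U k p p = 0 := fun k => congrFun h0 k
      simp only [h2, mul_zero, Finset.sum_const_zero] at h1
      exact zero_ne_one h1)]
    intro c hc
    obtain ⟨x, hx⟩ := hK (fun _ j => if j = a₃ then 1 else 0)
    have h1 := hx p p hp0 hpa hp0
    have h2 := hx p a₃ hp0 hpa ha₃
    rw [if_neg hpa] at h1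
    rw [if_pos rfl] at h2
    have h3 : ∀ k, c * Th B V U k p p = Th B V U k p a₃ := fun k => congrFun hc k
    have h4 : ∑ k, x k * Th B V U k p a₃ = c * ∑ k, x k * Th B V U k p p := by
      rw [Finset.mul_sum]
      refine Finset.sum_congr rfl fun k _ => ?_
      rw [← h3 k]
      ring
    rw [h4, h1, mul_zero] at h2
    exact zero_ne_one h2
  obtain ⟨κ, hκ⟩ := exists_linearIndependent_cons_of_lt_finrank hli (by simp)
  have hspan := hκ.span_eq_top_of_card_eq_finrank (by simp)
  refine ⟨κ, fun k => ?_⟩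
  set J := Ideal.span {∑ l, algebraMap ℂ R (κ l) * w l} ⊔ (RingHom.ker (ε : R →+* ℂ)) ^ 2 with hJ
  -- the linear map
  have hmem : ∀ y ∈ Submodule.span ℂ (Set.range (Fin.cons κ θ : Fin 3 → Fin 3 → ℂ)),
      ∑ l, algebraMap ℂ R (y l) * w l ∈ J := by
    intro y hy
    induction hy using Submodule.span_induction with
    | mem y hy =>
      obtain ⟨i, rfl⟩ := hy
      refine Fin.cases ?_ (fun i => ?_) i
      · rw [Fin.cons_zero]
        exact Ideal.mem_sup_left (Ideal.mem_span_singleton_self _)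
      · rw [Fin.cons_succ]
        apply Ideal.mem_sup_right
        fin_cases i
        · have h1 := hrel p hp0 (Or.inl rfl)
          convert h1 using 1
          exact Finset.sum_congr rfl fun k _ => mul_comm _ _
        · have h1 := hrel a₃ ha₃ (Or.inr rfl)
          convert h1 using 1
          exact Finset.sum_congr rfl fun k _ => mul_comm _ _
    | zero => simp
    | add x y _ _ hx hy =>
      have h1 : ∑ l, algebraMap ℂ R ((x + y) l) * w l =
          ∑ l, algebraMap ℂ R (x l) * w l + ∑ l, algebraMap ℂ R (y l) * w l := by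
        rw [← Finset.sum_add_distrib]
        exact Finset.sum_congr rfl fun l _ => by rw [Pi.add_apply, map_add, add_mul]
      rw [h1]
      exact Ideal.add_mem _ hx hy
    | smul c x _ hx =>
      have h1 : ∑ l, algebraMap ℂ R ((c • x) l) * w l =
          algebraMap ℂ R c * ∑ l, algebraMap ℂ R (x l) * w l := by
        rw [Finset.mul_sum]
        exact Finset.sum_congr rfl fun l _ => by
          rw [Pi.smul_apply, smul_eq_mul, map_mul, mul_assoc]
      rw [h1]
      exact Ideal.mul_mem_left _ _ hx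
  have h1 := hmem (Pi.single k 1) (by rw [hspan]; trivial)
  rw [Finset.sum_eq_single k] at h1
  · rwa [Pi.single_eq_same, map_one, one_mul] at h1
  · intro l _ hl
    rw [Pi.single_eq_of_ne hl, map_zero, zero_mul]
  · intro h; exact absurd (Finset.mem_univ _) h

end Pool.Agent.H931.RC
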