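import Pool.Agent.H931.RC.Ring
import Pool.Agent.H931.RC.Reg2
import Pool.Agent.H931.RC.Loc

/-!
# The coordinate ring is an integrally closed domain
-/

set_option autoImplicit false

namespace Pool.Agent.H931.RC

open MvPolynomial

variable {t : ℕ}

/-- the coordinate ring of the affine curve -/
def R0 (a : Fin t × Fin (t + 1) → ℂ) : Type := RS ⧸ II a

noncomputable instance R0_commRing (a : Fin t × Fin (t + 1) → ℂ) : CommRing (R0 a) :=
  inferInstanceAs (CommRing (RS ⧸ II a))

noncomputable instance R0_algebra (a : Fin t × Fin (t + 1) → ℂ) : Algebra ℂ (R0 a) :=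
  inferInstanceAs (Algebra ℂ (RS ⧸ II a))

/-- the quotient map -/
noncomputable def mk0 (a : Fin t × Fin (t + 1) → ℂ) : RS →ₐ[ℂ] R0 a := Ideal.Quotient.mkₐ ℂ (II a)

theorem mk0_surj (a : Fin t × Fin (t + 1) → ℂ) : Function.Surjective (mk0 a) :=
  Ideal.Quotient.mkₐ_surjective ℂ (II a)

theorem mk0_eq_zero (a : Fin t × Fin (t + 1) → ℂ) (P : RS) : mk0 a P = 0 ↔ P ∈ II a :=
  Ideal.Quotient.eq_zero_iff_mem

/-- the coordinate `u` -/
noncomputable def uu (a : Fin t × Fin (t + 1) → ℂ) : R0 a := mk0 a (X 0)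
/-- the coordinate `v` -/
noncomputable def vv (a : Fin t × Fin (t + 1) → ℂ) : R0 a := mk0 a (X 1)
/-- the coordinate `s` -/
noncomputable def ss (a : Fin t × Fin (t + 1) → ℂ) : R0 a := mk0 a (MvPolynomial.C Polynomial.X)

theorem exists_reduced (ht : 1 ≤ t) (a : Fin t × Fin (t + 1) → ℂ) {n : ℤ} {P : RS} (hP : W n P) :
    ∃ P' : RS, W n P' ∧ P'.totalDegree < t ∧ mk0 a P' = mk0 a P := by
  obtain ⟨c, P', h1, h2, h3, h4⟩ := II_spanning ht a hP
  refine ⟨P', h2, h3, ?_⟩
  have hsum : ∑ j, c j * ff a j ∈ II a :=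
    Ideal.sum_mem _ fun j _ => Ideal.mul_mem_left _ _ (ff_mem a j)
  rw [h4, map_add, (mk0_eq_zero a _).2 hsum, zero_add]

theorem exists_reduced' (ht : 1 ≤ t) (a : Fin t × Fin (t + 1) → ℂ) (x : R0 a) :
    ∃ P : RS, P.totalDegree < t ∧ mk0 a P = x := by
  obtain ⟨P, rfl⟩ := mk0_surj a x
  obtain ⟨n, hn⟩ := exists_W P
  obtain ⟨P', -, h2, h3⟩ := exists_reduced ht a hn
  exact ⟨P', h2, h3⟩

theorem reduced_inj (a : Fin t × Fin (t + 1) → ℂ) {P : RS} (ht : P.totalDegree < t)
    (h : mk0 a P = 0) : P = 0 := II_reduced a ((mk0_eq_zero a P).1 h) ht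

theorem R0_nontrivial (ht : 1 ≤ t) (a : Fin t × Fin (t + 1) → ℂ) : Nontrivial (R0 a) := by
  refine ⟨⟨(1 : R0 a), (0 : R0 a), fun h => ?_⟩⟩
  rw [← map_one (mk0 a)] at h
  have h1 := reduced_inj a (by rw [totalDegree_one]; omega) h
  exact one_ne_zero h1

theorem torsionfree (ht : 1 ≤ t) (a : Fin t × Fin (t + 1) → ℂ) {p : Polynomial ℂ} (hp : p ≠ 0)
    {x : R0 a} (h : mk0 a (MvPolynomial.C p) * x = 0) : x = 0 := by
  obtain ⟨P, hP, rfl⟩ := exists_reduced' ht a x
  rw [← map_mul] at h
  have h1 := reduced_inj a (lt_of_le_of_lt (totalDegree_mul _ _) (by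
    rw [totalDegree_C, zero_add]; exact hP)) h
  have h2 : P = 0 := (mul_eq_zero.1 h1).resolve_left (by
    intro h3
    exact hp (C_injective (Fin 2) (Polynomial ℂ) (by rw [h3, map_zero])))
  rw [h2, map_zero]

theorem ss_sub_reg (ht : 1 ≤ t) (a : Fin t × Fin (t + 1) → ℂ) (c : ℂ) :
    ss a - algebraMap ℂ (R0 a) c ∈ nonZeroDivisors (R0 a) := by
  have h1 : ss a - algebraMap ℂ (R0 a) c =
      mk0 a (MvPolynomial.C (Polynomial.X - Polynomial.C c)) := by
    rw [map_sub, map_sub]
    rfl
  rw [mem_nonZeroDivisors_iff]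
  refine ⟨fun x hx => ?_, fun x hx => ?_⟩
  · rw [h1] at hx
    exact torsionfree ht a (Polynomial.X_sub_C_ne_zero c) hx
  · rw [mul_comm, h1] at hx
    exact torsionfree ht a (Polynomial.X_sub_C_ne_zero c) hx

theorem ss_reg (ht : 1 ≤ t) (a : Fin t × Fin (t + 1) → ℂ) : ss a ∈ nonZeroDivisors (R0 a) := by
  have h := ss_sub_reg ht a 0
  rwa [map_zero, sub_zero] at h

theorem minors_zero (a : Fin t × Fin (t + 1) → ℂ) (j : Fin (t + 1)) :
    mnr (NN a (B0 t) (uu a) (vv a) (ss a)) j = 0 := by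
  have h1 : NN a (B0 t) (uu a) (vv a) (ss a) = (NM (CM a)).map (mk0 a : RS →+* R0 a) := by
    ext i k
    rw [Matrix.map_apply]
    simp only [NN, NM, Matrix.sub_apply, Matrix.map_apply, CM, Psi, bid, map_sub, map_add, map_mul,
      apply_ite (mk0 a : RS →+* R0 a), map_zero]
    have h2 : (mk0 a : RS →+* R0 a) (MvPolynomial.C (Polynomial.C (a (i, k)))) =
        algebraMap ℂ (R0 a) (a (i, k)) := rfl
    have h3 : (mk0 a : RS →+* R0 a) (MvPolynomial.C (Polynomial.C ((B0 t i k : ℤ) : ℂ))) =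
        ((B0 t i k : ℤ) : R0 a) := by
      rw [map_intCast, map_intCast, map_intCast]
    rw [h2, h3]
    have h4 : (mk0 a : RS →+* R0 a) (X 1) = vv a := rfl
    have h5 : (mk0 a : RS →+* R0 a) (X 0) = uu a := rfl
    have h6 : (mk0 a : RS →+* R0 a) (MvPolynomial.C Polynomial.X) = ss a := rfl
    rw [h4, h5, h6]
    ring
  rw [h1, ← map_mnr]
  have h2 : mnr (NM (CM a)) j = (-1) ^ t * ff a j := by
    rw [ff, ← mul_assoc, ← pow_add]
    have h3 : ((-1 : RS)) ^ (t + t) = 1 := by
      rw [pow_add]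
      rcases neg_one_pow_eq_or RS t with h | h
      · rw [h, mul_one]
      · rw [h]; ring
    rw [h3, one_mul]
  rw [h2]
  exact (mk0_eq_zero a _).2 (Ideal.mul_mem_left _ _ (ff_mem a j))

theorem R0_adjoin (a : Fin t × Fin (t + 1) → ℂ) (S : Subalgebra ℂ (R0 a)) (h0 : uu a ∈ S)
    (h1 : vv a ∈ S) (h2 : ss a ∈ S) (x : R0 a) : x ∈ S := by
  obtain ⟨P, rfl⟩ := mk0_surj a x
  induction P using MvPolynomial.induction_on with
  | C p =>
    induction p using Polynomial.induction_on with
    | C c => exact S.algebraMap_mem c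
    | add p q hp hq => rw [map_add, map_add]; exact S.add_mem hp hq
    | monomial n c _ =>
      rw [map_mul, map_pow, map_mul, map_pow]
      exact S.mul_mem (S.algebraMap_mem c) (S.pow_mem h2 _)
  | add p q hp hq => rw [map_add]; exact S.add_mem hp hq
  | mul_X p i hp =>
    rw [map_mul]
    refine S.mul_mem hp ?_
    fin_cases i
    · exact h0
    · exact h1

instance R0_finiteType (a : Fin t × Fin (t + 1) → ℂ) : Algebra.FiniteType ℂ (R0 a) := by
  classical
  refine ⟨⟨{uu a, vv a, ss a}, ?_⟩⟩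
  rw [eq_top_iff]
  intro x _
  refine R0_adjoin a _ ?_ ?_ ?_ x
  · exact Algebra.subset_adjoin (by simp)
  · exact Algebra.subset_adjoin (by simp)
  · exact Algebra.subset_adjoin (by simp)

instance R0_noetherian (a : Fin t × Fin (t + 1) → ℂ) : IsNoetherianRing (R0 a) :=
  Algebra.FiniteType.isNoetherianRing ℂ (R0 a)

/-- the residue map at a maximal ideal of a finitely generated `ℂ`-algebra -/
theorem exists_residue {R : Type} [CommRing R] [Algebra ℂ R] [Algebra.FiniteType ℂ R]
    (m : Ideal R) [m.IsMaximal] : ∃ ε : R →ₐ[ℂ] ℂ, RingHom.ker (ε : R →+* ℂ) = m := by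
  let _ := Ideal.Quotient.field m
  have h1 : Module.Finite ℂ (R ⧸ m) := finite_of_finite_type_of_isJacobsonRing ℂ (R ⧸ m)
  have h2 : Function.Bijective (algebraMap ℂ (R ⧸ m)) :=
    IsAlgClosed.algebraMap_bijective_of_isIntegral
  let e : ℂ ≃ₐ[ℂ] (R ⧸ m) := AlgEquiv.ofBijective (Algebra.ofId ℂ (R ⧸ m)) h2
  refine ⟨(e.symm : (R ⧸ m) →ₐ[ℂ] ℂ).comp (Ideal.Quotient.mkₐ ℂ m), ?_⟩
  ext x
  rw [RingHom.mem_ker]
  change e.symm (Ideal.Quotient.mk m x) = 0 ↔ _
  rw [map_eq_zero_iff _ e.symm.injective, Ideal.Quotient.eq_zero_iff_mem]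

/-- the maximal ideals are locally principal -/
theorem R0_local (ht : 1 ≤ t) (a : Fin t × Fin (t + 1) → ℂ) (ha : AlgebraicIndependent ℚ a)
    (m : Ideal (R0 a)) [m.IsMaximal] : IsDomain (Localization.AtPrime m) ∧
      (IsLocalRing.maximalIdeal (Localization.AtPrime m)).IsPrincipal := by
  obtain ⟨ε, hε⟩ := exists_residue m
  set w : Fin 3 → R0 a := ![uu a - algebraMap ℂ (R0 a) (ε (uu a)),
    vv a - algebraMap ℂ (R0 a) (ε (vv a)), ss a - algebraMap ℂ (R0 a) (ε (ss a))] with hw
  obtain ⟨κ, hκ⟩ := reg a ha (B0 t) ε (uu a) (vv a) (ss a) (minors_zero a) w hw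
  rw [hε] at hκ
  set x := ∑ l, algebraMap ℂ (R0 a) (κ l) * w l with hx
  have hεw : ∀ k, w k ∈ m := by
    intro k
    rw [← hε, RingHom.mem_ker, hw]
    fin_cases k
    · change ε (uu a - algebraMap ℂ (R0 a) (ε (uu a))) = 0
      rw [map_sub, ε.commutes]
      exact sub_self _
    · change ε (vv a - algebraMap ℂ (R0 a) (ε (vv a))) = 0
      rw [map_sub, ε.commutes]
      exact sub_self _
    · change ε (ss a - algebraMap ℂ (R0 a) (ε (ss a))) = 0
      rw [map_sub, ε.commutes]
      exact sub_self _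
  have hxm : x ∈ m := Ideal.sum_mem _ fun l _ => Ideal.mul_mem_left _ _ (hεw l)
  have hle : m ≤ Ideal.span {x} ⊔ m ^ 2 := by
    set J := Ideal.span {x} ⊔ m ^ 2 with hJ
    let S : Subalgebra ℂ (R0 a) :=
      { carrier := {y | y - algebraMap ℂ (R0 a) (ε y) ∈ J}
        mul_mem' := by
          intro y z hy hz
          have h1 : y * z - algebraMap ℂ (R0 a) (ε (y * z)) =
              z * (y - algebraMap ℂ (R0 a) (ε y)) +
                algebraMap ℂ (R0 a) (ε y) * (z - algebraMap ℂ (R0 a) (ε z)) := by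
            rw [map_mul, map_mul]; ring
          change _ ∈ J
          rw [h1]
          exact Ideal.add_mem _ (Ideal.mul_mem_left _ _ hy) (Ideal.mul_mem_left _ _ hz)
        add_mem' := by
          intro y z hy hz
          have h1 : y + z - algebraMap ℂ (R0 a) (ε (y + z)) =
              (y - algebraMap ℂ (R0 a) (ε y)) + (z - algebraMap ℂ (R0 a) (ε z)) := by
            rw [map_add, map_add]; ring
          change _ ∈ J
          rw [h1]
          exact Ideal.add_mem _ hy hz
        algebraMap_mem' := by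
          intro c
          change _ ∈ J
          rw [ε.commutes]
          have h1 : (algebraMap ℂ ℂ c) = c := rfl
          rw [h1, sub_self]
          exact Ideal.zero_mem _ }
    intro y hy
    have h1 : y ∈ S := R0_adjoin a S (hκ 0) (hκ 1) (hκ 2) y
    have h2 : y - algebraMap ℂ (R0 a) (ε y) ∈ J := h1
    have h3 : ε y = 0 := by
      rw [← hε, RingHom.mem_ker] at hy
      exact hy
    rwa [h3, map_zero, sub_zero] at h2
  have hspan := maximalIdeal_eq_span m x hxm hle
  have hreg : algebraMap (R0 a) (Localization.AtPrime m) x ∈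
      nonZeroDivisors (Localization.AtPrime m) := by
    have h1 : algebraMap (R0 a) (Localization.AtPrime m) (w 2) ∈
        nonZeroDivisors (Localization.AtPrime m) :=
      IsLocalization.nonZeroDivisors_le_comap m.primeCompl _ (ss_sub_reg ht a (ε (ss a)))
    have h2 : algebraMap (R0 a) (Localization.AtPrime m) (w 2) ∈
        Ideal.span {algebraMap (R0 a) (Localization.AtPrime m) x} := by
      rw [← hspan]
      rw [← Localization.AtPrime.map_eq_maximalIdeal]
      exact Ideal.mem_map_of_mem _ (hεw 2)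
    rw [Ideal.mem_span_singleton] at h2
    obtain ⟨y, hy⟩ := h2
    rw [hy] at h1
    exact (mul_mem_nonZeroDivisors.1 h1).1
  exact ⟨isDomain_of_principal _ hspan hreg, ⟨⟨_, hspan⟩⟩⟩

/-- the only idempotents are `0` and `1` -/
theorem R0_idempotent (ht : 1 ≤ t) (a : Fin t × Fin (t + 1) → ℂ) (e : R0 a) (he : e * e = e) :
    e = 0 ∨ e = 1 := by
  classical
  obtain ⟨P, hPt, rfl⟩ := exists_reduced' ht a e
  have hex : ∃ n : ℕ, W n P := exists_W P
  set n := Nat.find hex with hn
  have hW : W n P := Nat.find_spec hex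
  have hn0 : n = 0 := by
    by_contra hne
    have hmem : P * P - P ∈ II a := by
      rw [← mk0_eq_zero, map_sub, map_mul, he, sub_self]
    have h1 : W (n - 1) P := by
      refine W_drop hPt hW fun x hx y hy => ?_
      have h2 : W ((n + n : ℕ) : ℤ) (P * P - P) := by
        push_cast
        exact (hW.mul hW).sub (hW.mono (by omega))
      have h3 := II_line ht a h2 hmem hx hy
      have h4 : (line (x : ℂ) (y : ℂ) P).coeff (n + n) = 0 :=
        Polynomial.coeff_eq_zero_of_natDegree_lt (lt_of_le_of_lt (line_natDegree hW) (by omega))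
      rw [map_sub, map_mul, Polynomial.coeff_sub, Polynomial.coeff_mul_add_eq_of_natDegree_le
        (line_natDegree hW) (line_natDegree hW), h4, sub_zero] at h3
      exact mul_self_eq_zero.1 h3
    have h2 : W ((n - 1 : ℕ) : ℤ) P := h1.mono (by omega)
    exact Nat.find_min hex (m := n - 1) (by omega) h2
  rw [hn0] at hW
  have hP : P = MvPolynomial.C (Polynomial.C ((coeff 0 P).coeff 0)) := by
    ext m b
    by_cases h : m = 0 ∧ b = 0
    · rw [h.1, h.2, coeff_C, if_pos rfl, Polynomial.coeff_C_zero]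
    · rw [hW m b, coeff_C]
      · split_ifs with h1
        · subst h1
          rw [Polynomial.coeff_C, if_neg (fun hb => h ⟨rfl, hb⟩)]
        · rw [Polynomial.coeff_zero]
      · have h1 : 0 < b + m.degree := by
          by_contra hcon
          apply h
          refine ⟨?_, by omega⟩
          have h2 : m.degree = 0 := by omega
          rw [deg_fin2] at h2
          rw [← ex_eta m]
          have h3 : m 0 = 0 := by omega
          have h4 : m 1 = 0 := by omega
          rw [h3, h4]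
          simp [ex]
        push_cast
        omega
  set c := (coeff 0 P).coeff 0 with hc
  have h1 : mk0 a P = algebraMap ℂ (R0 a) c := by rw [hP]; rfl
  have := R0_nontrivial ht a
  have hinj : Function.Injective (algebraMap ℂ (R0 a)) := FaithfulSMul.algebraMap_injective _ _
  rw [h1, ← map_mul] at he
  have h2 : c * c = c := hinj he
  rw [h1]
  rcases mul_eq_zero.1 (show c * (c - 1) = 0 by rw [mul_sub, h2, mul_one, sub_self]) with h3 | h3
  · left; rw [h3, map_zero]
  · right; rw [sub_eq_zero.1 h3, map_one]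

theorem R0_isDomain (ht : 1 ≤ t) (a : Fin t × Fin (t + 1) → ℂ) (ha : AlgebraicIndependent ℚ a) :
    IsDomain (R0 a) := by
  have := R0_nontrivial ht a
  exact isDomain_of_local (fun m _ => (R0_local ht a ha m).1) (R0_idempotent ht a)

theorem R0_isIntegrallyClosed (ht : 1 ≤ t) (a : Fin t × Fin (t + 1) → ℂ)
    (ha : AlgebraicIndependent ℚ a) : IsIntegrallyClosed (R0 a) := by
  have := R0_isDomain ht a ha
  refine IsIntegrallyClosed.of_localization_maximal fun m _ hm => ?_
  have h1 := (R0_local ht a ha m).2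
  have h2 := ((tfae_of_isNoetherianRing_of_isLocalRing_of_isDomain
    (Localization.AtPrime m)).out 3 4).2 h1
  exact h2.1

end Pool.Agent.H931.RC
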