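import Pool.Agent.H931.RC.Defs
import Pool.Agent.H931.RC.Mon

/-!
# The open condition on pairs
-/

set_option autoImplicit false
set_option linter.unusedSectionVars false

open scoped WithZero
open Pool.Agent.Helper395.CS hiding genus
open Pool.Agent.Helper395.BC
open Pool.Agent.W518.PC (lpow)

namespace Pool.Agent.H931.RC

variable {K : Type} [Field K] [Algebra ℂ K]

/-- the reduced monomials of degree `n` in homogeneous coordinates -/
def hmon (t n : ℕ) (x : Fin 4 → K) (q : Ix t n) : K :=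
  x 0 ^ (n - (q.1 : ℕ) - (q.2.2 : ℕ)) *
    (x 1 ^ (q.2.2 : ℕ) * (x 2 ^ (q.2.1 : ℕ) * x 3 ^ ((q.1 : ℕ) - (q.2.1 : ℕ))))

theorem hmon_eq {t n : ℕ} {x : Fin 4 → K} (h0 : x 0 ≠ 0) (q : Ix t n) :
    hmon t n x q = x 0 ^ n * mon t n (x 1 / x 0) (x 2 / x 0) (x 3 / x 0) q := by
  obtain ⟨k, i, b⟩ := q
  have hi := i.2
  have hb := b.2
  simp only [hmon, mon]
  have h1 : x 0 ^ n = x 0 ^ (n - (k : ℕ) - (b : ℕ)) * (x 0 ^ (b : ℕ) *
      (x 0 ^ (i : ℕ) * x 0 ^ ((k : ℕ) - (i : ℕ)))) := by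
    rw [← pow_add, ← pow_add, ← pow_add]
    congr 1
    omega
  rw [h1, div_pow, div_pow, div_pow]
  field_simp

theorem hmon_smul {t n : ℕ} (x : Fin 4 → K) (c : K) (q : Ix t n) :
    hmon t n (fun i => c * x i) q = c ^ n * hmon t n x q := by
  obtain ⟨k, i, b⟩ := q
  have hi := i.2
  have hb := b.2
  simp only [hmon, mul_pow]
  have h1 : c ^ n = c ^ (n - (k : ℕ) - (b : ℕ)) * (c ^ (b : ℕ) *
      (c ^ (i : ℕ) * c ^ ((k : ℕ) - (i : ℕ)))) := by
    rw [← pow_add, ← pow_add, ← pow_add]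
    congr 1
    omega
  rw [h1]
  ring

/-- the open condition on a line bundle -/
structure Good (t g : ℕ) (d : ℤ) (L : LineBundle K) : Prop where
  h4 : Module.finrank ℂ (H0 L) = 4
  h1 : (Module.finrank ℂ (H0 (lpow L ((t - 2 : ℕ) : ℤ))) : ℤ) = (t - 2 : ℕ) * d + 1 - g
  ind : ∃ x : Fin 4 → K, (∀ i, x i ∈ H0 L) ∧ LinearIndependent ℂ (hmon t t x)

theorem H0_lpow_one (L : LineBundle K) : H0 (lpow L 1) = H0 L := by
  ext z
  refine forall_congr' fun v => ?_
  change v.val z ≤ v.val ((L.frame v ^ (1 : ℤ) : Kˣ) : K) ↔ _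
  rw [zpow_one]
  rfl

theorem card_Ix_one (t : ℕ) (h : 2 ≤ t) : Fintype.card (Ix t 1) = 4 := by
  have h1 : Fintype.card (Ix t 1) = ∑ k ∈ Finset.range t, (k + 1) * (1 + 1 - k) := by
    rw [Fintype.card_sigma, ← Fin.sum_univ_eq_sum_range (fun k => (k + 1) * (1 + 1 - k))]
    refine Finset.sum_congr rfl fun k _ => ?_
    rw [Fintype.card_prod, Fintype.card_fin, Fintype.card_fin]
  rw [h1]
  clear h1
  induction t, h using Nat.le_induction with
  | base => rfl
  | succ t ht ih =>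
    rw [Finset.sum_range_succ, ih]
    have : 1 + 1 - t = 0 := by omega
    rw [this, mul_zero, add_zero]

end Pool.Agent.H931.RC
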