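import Pool.Agent.H931.RC.Curve2
import Pool.Agent.H931.RC.Good

/-!
# Existence of good pairs
-/

set_option autoImplicit false

open scoped WithZero
open Pool.Agent.Helper395.CS hiding genus exists_residue
open Pool.Agent.Helper395.BC
open Pool.Agent.W518.PC (lpow)

namespace Pool.Agent.H931.RC

theorem exists_model (t : ℕ) (ht : 1 ≤ t) :
    ∃ (a : Fin t × Fin (t + 1) → ℂ) (K : Type) (_ : Field K) (_ : Algebra ℂ K),
      Nonempty (Model t a K) := by
  obtain ⟨a, ha⟩ := exists_algInd (Fin t × Fin (t + 1))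
  have hd : IsDomain (R0 a) := R0_isDomain ht a ha
  have hi : IsIntegrallyClosed (R0 a) := R0_isIntegrallyClosed ht a ha
  refine ⟨a, FractionRing (R0 a), inferInstance, inferInstance, ⟨?_⟩⟩
  have hinj : Function.Injective (algebraMap (R0 a) (FractionRing (R0 a))) :=
    IsFractionRing.injective _ _
  exact
    { ev := (IsScalarTower.toAlgHom ℂ (R0 a) (FractionRing (R0 a))).comp (mk0 a)
      ker := by
        intro P
        rw [← mk0_eq_zero]
        change algebraMap (R0 a) (FractionRing (R0 a)) (mk0 a P) = 0 ↔ _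
        rw [← map_zero (algebraMap (R0 a) (FractionRing (R0 a))), hinj.eq_iff]
      frac := by
        intro z
        obtain ⟨⟨x, y⟩, h⟩ := IsLocalization.surj (nonZeroDivisors (R0 a)) z
        obtain ⟨P, rfl⟩ := mk0_surj a x
        obtain ⟨Q, hQ⟩ := mk0_surj a y
        refine ⟨P, Q, ?_, ?_⟩
        · change algebraMap (R0 a) (FractionRing (R0 a)) (mk0 a Q) ≠ 0
          rw [hQ]
          intro h0
          rw [← map_zero (algebraMap (R0 a) (FractionRing (R0 a)))] at h0
          exact nonZeroDivisors.coe_ne_zero y (hinj h0)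
        · change z * algebraMap (R0 a) (FractionRing (R0 a)) (mk0 a Q) = _
          rw [hQ]
          exact h
      closed := by
        rintro z ⟨p, hp, hp0⟩
        have h1 : IsIntegral (R0 a) z := by
          refine ⟨p.map (mk0 a : RS →+* R0 a), hp.map _, ?_⟩
          rw [Polynomial.eval₂_map]
          exact hp0
        obtain ⟨y, hy⟩ := IsIntegrallyClosed.isIntegral_iff.1 h1
        obtain ⟨P, rfl⟩ := mk0_surj a y
        exact ⟨P, hy.symm⟩
      pos := ht }

theorem Model.good {t : ℕ} {a : Fin t × Fin (t + 1) → ℂ} {K : Type} [Field K] [Algebra ℂ K]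
    (M : Model t a K) (h2 : 2 ≤ t) {g d : ℕ} (hd : 2 * d = t * (t + 1))
    (hg : 6 * ((g : ℤ) - 1) = t * (t + 1) * (2 * t - 5)) : Good t g d M.L where
  h4 := by
    have h1 := M.finrank_H0_pow 1
    rw [Nat.cast_one, H0_lpow_one, card_Ix_one t h2] at h1
    exact h1
  h1 := by
    rw [M.finrank_H0_pow]
    have h3 := card_Ix t (t - 2) (by omega)
    have h4 : (2 * d : ℤ) = t * (t + 1) := by exact_mod_cast hd
    rw [Nat.cast_sub h2] at h3 ⊢
    have h5 : (6 : ℤ) * (Fintype.card (Ix t (t - 2))) = 6 * ((t - (2 : ℕ)) * d + 1 - g) := by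
      rw [h3]
      push_cast
      linear_combination (-3 * ((t : ℤ) - 2)) * h4 + hg
    exact mul_left_cancel₀ (by norm_num) h5
  ind := by
    refine ⟨![1, M.s, M.u, M.v], ?_, ?_⟩
    · have h1 : ∀ i, ∃ P : RS, W (1 : ℕ) P ∧ ![1, M.s, M.u, M.v] i = M.ev P := by
        intro i
        fin_cases i
        · exact ⟨1, W.one.mono (by simp), (map_one _).symm⟩
        · exact ⟨MvPolynomial.C Polynomial.X, W.C (by simp), rfl⟩
        · exact ⟨MvPolynomial.X 0, W.X 0, rfl⟩
        · exact ⟨MvPolynomial.X 1, W.X 1, rfl⟩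
      intro i
      obtain ⟨P, hP, h2⟩ := h1 i
      rw [h2, ← H0_lpow_one]
      exact M.ev_mem_H0 hP
    · have h1 : hmon t t ![1, M.s, M.u, M.v] = mon t t M.s M.u M.v := by
        funext q
        rw [hmon_eq (by simp)]
        simp
      rw [h1]
      exact M.indep t

/-- existence of good pairs -/
theorem exists_pair {t : ℕ} (ht : 3 ≤ t) {g d : ℕ} (hd : 2 * d = t * (t + 1))
    (hg : 6 * ((g : ℤ) - 1) = t * (t + 1) * (2 * t - 5)) (h1 : 1 ≤ g) :
    ∃ X : Pair 3 g d, Good t g d X.L := by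
  obtain ⟨a, K, i1, i2, ⟨M⟩⟩ := exists_model t (by omega)
  refine ⟨⟨K, M.isCurve, M.genus_eq hd hg h1, M.L, ?_, ?_⟩, M.good (by omega) hd hg⟩
  · rw [M.degree_L]
    have := card_TT t
    have h2 : (TT t).card = d := by omega
    rw [h2]
  · rw [(M.good (by omega) hd hg).h4]

end Pool.Agent.H931.RC
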