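import Mathlib

/-!
# Linear algebra with parameters
-/

set_option autoImplicit false
set_option linter.unusedSectionVars false

open scoped Matrix

namespace Pool.Agent.H931.RC

variable {A : Type} [CommRing A] [Algebra ℂ A]

/-- the constant matrix -/
noncomputable def cst {m n : Type} (P : Matrix m n ℂ) : Matrix m n A := P.map (algebraMap ℂ A)

theorem map_cst {m n : Type} (P : Matrix m n ℂ) (b : A →ₐ[ℂ] ℂ) :
    (cst P : Matrix m n A).map (b : A →+* ℂ) = P := by
  ext i j
  change b (algebraMap ℂ A (P i j)) = P i j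
  exact b.commutes _

/-- the kernel of a matrix with parameters -/
theorem ker_param {m n : Type} [Fintype m] [Fintype n] [DecidableEq m] [DecidableEq n]
    (T : Matrix m n A) (b₀ : A →ₐ[ℂ] ℂ) :
    ∃ (h : A) (E : (n → ℂ) → (n → A)), b₀ h ≠ 0 ∧
      (∀ w, (T.map (b₀ : A →+* ℂ)) *ᵥ w = 0 → ∀ l, b₀ (E w l) = w l) ∧
      ∀ b : A →ₐ[ℂ] ℂ, b h ≠ 0 →
        Module.finrank ℂ (LinearMap.ker (T.map (b : A →+* ℂ)).mulVecLin) ≤
          Module.finrank ℂ (LinearMap.ker (T.map (b₀ : A →+* ℂ)).mulVecLin) ∧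
        (Module.finrank ℂ (LinearMap.ker (T.map (b : A →+* ℂ)).mulVecLin) =
          Module.finrank ℂ (LinearMap.ker (T.map (b₀ : A →+* ℂ)).mulVecLin) →
          ∀ w, (T.map (b₀ : A →+* ℂ)) *ᵥ w = 0 →
            (T.map (b : A →+* ℂ)) *ᵥ (fun l => b (E w l)) = 0) := by
  set T₀ := T.map (b₀ : A →+* ℂ) with hT₀
  set ρ := Module.finrank ℂ (LinearMap.range T₀.mulVecLin) with hρ
  have hex : ∃ (P : Matrix (Fin ρ) m ℂ) (Q : Matrix n (Fin ρ) ℂ), P * T₀ * Q = 1 := by
    let B := Module.finBasis ℂ (LinearMap.range T₀.mulVecLin)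
    have h1 : ∀ i, ∃ q : n → ℂ, T₀ *ᵥ q = (B i : m → ℂ) := fun i => (B i).2
    choose q hq using h1
    have h2 : LinearIndependent ℂ (fun i => (B i : m → ℂ)) :=
      B.linearIndependent.map' (Submodule.subtype _) (Submodule.ker_subtype _)
    obtain ⟨P₀, hP₀⟩ := LinearMap.exists_leftInverse_of_injective
      (Fintype.linearCombination ℂ (fun i => (B i : m → ℂ))) (by
        rw [LinearMap.ker_eq_bot]
        exact linearIndependent_iff_injective_fintypeLinearCombination.1 h2)
    refine ⟨LinearMap.toMatrix' P₀, Matrix.of fun l i => q i l, ?_⟩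
    rw [Matrix.mul_assoc]
    ext i j
    have h3 : ∀ j, (T₀ * Matrix.of fun l i => q i l).col j = (B j : m → ℂ) := by
      intro j
      rw [← hq j]
      ext l
      simp [Matrix.mul_apply, Matrix.mulVec, dotProduct]
    have h4 : (LinearMap.toMatrix' P₀ * (T₀ * Matrix.of fun l i => q i l)) i j =
        P₀ ((T₀ * Matrix.of fun l i => q i l).col j) i := by
      rw [← LinearMap.toMatrix'_mulVec P₀]
      rfl
    rw [h4, h3]
    have h5 := congrArg (fun f => f (Pi.single j 1)) hP₀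
    simp only [LinearMap.comp_apply, Fintype.linearCombination_apply_single, one_smul,
      LinearMap.id_apply] at h5
    rw [h5, Pi.single_apply, Matrix.one_apply]
  obtain ⟨P, Q, hPQ⟩ := hex
  set M : Matrix (Fin ρ) (Fin ρ) A := (cst P : Matrix (Fin ρ) m A) * T * (cst Q : Matrix n (Fin ρ) A)
    with hM
  have hMb : ∀ b : A →ₐ[ℂ] ℂ, M.map (b : A →+* ℂ) = P * T.map (b : A →+* ℂ) * Q := by
    intro b
    rw [hM, Matrix.map_mul, Matrix.map_mul, map_cst, map_cst]
  have hdet : ∀ b : A →ₐ[ℂ] ℂ, b M.det = (P * T.map (b : A →+* ℂ) * Q).det := by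
    intro b
    rw [← hMb]
    exact RingHom.map_det (b : A →+* ℂ) M
  set E : (n → ℂ) → (n → A) := fun w l => M.det * algebraMap ℂ A (w l) -
    (cst Q *ᵥ (M.adjugate *ᵥ (cst P *ᵥ (T *ᵥ fun l => algebraMap ℂ A (w l))))) l with hE
  have hEb : ∀ (b : A →ₐ[ℂ] ℂ) (w : n → ℂ), (fun l => b (E w l)) =
      (P * T.map (b : A →+* ℂ) * Q).det • w - Q *ᵥ ((P * T.map (b : A →+* ℂ) * Q).adjugate *ᵥ
        (P *ᵥ (T.map (b : A →+* ℂ) *ᵥ w))) := by
    intro b w
    funext l
    have h1 : ∀ {m n : Type} [Fintype n] (X : Matrix m n A) (y : n → A) (i : m),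
        b ((X *ᵥ y) i) = (X.map (b : A →+* ℂ) *ᵥ (fun j => b (y j))) i := by
      intro m n _ X y i
      exact RingHom.map_mulVec (b : A →+* ℂ) X y i
    have h2 : (fun l => b (algebraMap ℂ A (w l))) = w := funext fun l => b.commutes _
    have h3 : M.adjugate.map (b : A →+* ℂ) = (P * T.map (b : A →+* ℂ) * Q).adjugate := by
      rw [← hMb]
      exact RingHom.map_adjugate (b : A →+* ℂ) M
    simp only [hE, map_sub, map_mul, b.commutes]
    rw [h1, map_cst, hdet]
    simp only [h1, map_cst, h3, h2]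
    simp only [Algebra.algebraMap_self, RingHom.id_apply, Pi.sub_apply, Pi.smul_apply, smul_eq_mul]
  refine ⟨M.det, E, ?_, ?_, ?_⟩
  · rw [hdet, ← hT₀, hPQ, Matrix.det_one]
    exact one_ne_zero
  · intro w hw l
    have h1 := congrFun (hEb b₀ w) l
    rw [← hT₀, hPQ, hw, Matrix.det_one] at h1
    simpa using h1
  · intro b hb
    rw [hdet] at hb
    set Tb := T.map (b : A →+* ℂ) with hTb
    have hu : IsUnit (P * Tb * Q).det := isUnit_iff_ne_zero.2 hb
    -- rank at least `ρ`
    have h1 : ∀ Y : Matrix m n ℂ, Module.finrank ℂ (LinearMap.range Y.mulVecLin) +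
        Module.finrank ℂ (LinearMap.ker Y.mulVecLin) = Fintype.card n := by
      intro Y
      rw [LinearMap.finrank_range_add_finrank_ker, Module.finrank_fintype_fun_eq_card]
    let π : LinearMap.range Tb.mulVecLin →ₗ[ℂ] (Fin ρ → ℂ) :=
      P.mulVecLin.comp (Submodule.subtype _)
    have hπ : Function.Surjective π := by
      intro y
      refine ⟨⟨Tb *ᵥ (Q *ᵥ ((P * Tb * Q)⁻¹ *ᵥ y)), ⟨_, rfl⟩⟩, ?_⟩
      change P *ᵥ (Tb *ᵥ (Q *ᵥ ((P * Tb * Q)⁻¹ *ᵥ y))) = y
      rw [Matrix.mulVec_mulVec, Matrix.mulVec_mulVec, Matrix.mulVec_mulVec,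
        Matrix.mul_nonsing_inv _ hu, Matrix.one_mulVec]
    have h2 : ρ ≤ Module.finrank ℂ (LinearMap.range Tb.mulVecLin) := by
      have := LinearMap.finrank_le_finrank_of_surjective hπ
      rwa [Module.finrank_fintype_fun_eq_card, Fintype.card_fin] at this
    have h3 := h1 Tb
    have h4 := h1 T₀
    refine ⟨by omega, ?_⟩
    intro h5 w hw
    have h6 : Module.finrank ℂ (LinearMap.range Tb.mulVecLin) = Module.finrank ℂ (Fin ρ → ℂ) := by
      rw [Module.finrank_fintype_fun_eq_card, Fintype.card_fin]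
      omega
    have h7 : Function.Injective π :=
      (LinearMap.injective_iff_surjective_of_finrank_eq_finrank h6).2 hπ
    have h8 : π ⟨Tb *ᵥ (fun l => b (E w l)), ⟨_, rfl⟩⟩ = 0 := by
      change P *ᵥ (Tb *ᵥ (fun l => b (E w l))) = 0
      rw [hEb, Matrix.mulVec_sub, Matrix.mulVec_sub, Matrix.mulVec_smul, Matrix.mulVec_smul]
      have h9 : P *ᵥ Tb *ᵥ Q *ᵥ (P * Tb * Q).adjugate *ᵥ P *ᵥ Tb *ᵥ w =
          (P * Tb * Q).det • (P *ᵥ Tb *ᵥ w) := by
        rw [Matrix.mulVec_mulVec _ Tb Q, Matrix.mulVec_mulVec _ P (Tb * Q),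
          Matrix.mulVec_mulVec _ (P * (Tb * Q)), ← Matrix.mul_assoc P Tb Q, Matrix.mul_adjugate,
          Matrix.smul_mulVec, Matrix.one_mulVec]
      rw [h9, sub_self]
    have h9 := h7 (h8.trans (map_zero π).symm)
    exact congrArg Subtype.val h9

/-- Cramer's rule with parameters -/
theorem cramer_param {κ ν : Type} [Fintype κ] [Fintype ν] [DecidableEq κ] [DecidableEq ν]
    (V : κ → ν → A) (b₀ : A →ₐ[ℂ] ℂ) (h₀ : LinearIndependent ℂ (fun q l => b₀ (V q l))) :
    ∃ (h : A) (C : (ν → A) → (κ → A)), b₀ h ≠ 0 ∧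
      ∀ b : A →ₐ[ℂ] ℂ, b h ≠ 0 → LinearIndependent ℂ (fun q l => b (V q l)) ∧
        ∀ (u : ν → A) (c : κ → ℂ), (∀ l, b (u l) = ∑ q, c q * b (V q l)) →
          ∀ q, b h * c q = b (C u q) := by
  obtain ⟨P₀, hP₀⟩ := LinearMap.exists_leftInverse_of_injective
    (Fintype.linearCombination ℂ (fun q l => b₀ (V q l))) (by
      rw [LinearMap.ker_eq_bot]
      exact linearIndependent_iff_injective_fintypeLinearCombination.1 h₀)
  set P : Matrix κ ν ℂ := LinearMap.toMatrix' P₀ with hP
  set D : Matrix κ κ A := (cst P : Matrix κ ν A) * (Matrix.of fun l q => V q l : Matrix ν κ A)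
    with hD
  have hDb : ∀ b : A →ₐ[ℂ] ℂ, D.map (b : A →+* ℂ) = P * (Matrix.of fun l q => b (V q l)) := by
    intro b
    rw [hD, Matrix.map_mul, map_cst]
    rfl
  have hdet : ∀ b : A →ₐ[ℂ] ℂ, b D.det = (P * (Matrix.of fun l q => b (V q l))).det := by
    intro b
    rw [← hDb]
    exact RingHom.map_det (b : A →+* ℂ) D
  have hcomb : ∀ (b : A →ₐ[ℂ] ℂ) (c : κ → ℂ), (Matrix.of fun l q => b (V q l)) *ᵥ c =
      fun l => ∑ q, c q * b (V q l) := by
    intro b c
    funext l
    simp only [Matrix.mulVec, dotProduct, Matrix.of_apply]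
    exact Finset.sum_congr rfl fun q _ => mul_comm _ _
  refine ⟨D.det, fun u => D.adjugate *ᵥ (cst P *ᵥ u), ?_, ?_⟩
  · rw [hdet]
    have h1 : P * (Matrix.of fun l q => b₀ (V q l)) = 1 := by
      apply Matrix.toLin'.injective
      rw [Matrix.toLin'_mul, hP, Matrix.toLin'_toMatrix', Matrix.toLin'_one, ← hP₀]
      congr 1
      ext c l
      simp [Matrix.toLin'_apply, Matrix.mulVec, dotProduct, Fintype.linearCombination_apply, mul_comm]
    rw [h1, Matrix.det_one]
    exact one_ne_zero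
  · intro b hb
    rw [hdet] at hb
    constructor
    · rw [Fintype.linearIndependent_iff]
      intro c hc
      have h1 : (Matrix.of fun l q => b (V q l)) *ᵥ c = 0 := by
        rw [hcomb]
        funext l
        have h2 := congrFun hc l
        simpa using h2
      have h2 : (P * (Matrix.of fun l q => b (V q l))) *ᵥ c = 0 := by
        rw [← Matrix.mulVec_mulVec, h1, Matrix.mulVec_zero]
      intro q
      exact congrFun (Matrix.eq_zero_of_mulVec_eq_zero hb h2) q
    · intro u c hc q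
      have h1 : (fun l => b (u l)) = (Matrix.of fun l q => b (V q l)) *ᵥ c := by
        rw [hcomb]
        exact funext hc
      have h2 : b ((D.adjugate *ᵥ (cst P *ᵥ u)) q) =
          ((P * (Matrix.of fun l q => b (V q l))).adjugate *ᵥ (P *ᵥ (fun l => b (u l)))) q := by
        have h3 := RingHom.map_mulVec (b : A →+* ℂ) D.adjugate (cst P *ᵥ u) q
        have h4 : D.adjugate.map (b : A →+* ℂ) =
            (P * (Matrix.of fun l q => b (V q l))).adjugate := by
          rw [← hDb]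
          exact RingHom.map_adjugate (b : A →+* ℂ) D
        have h5 : (fun i => b ((cst P *ᵥ u) i)) = P *ᵥ (fun l => b (u l)) := by
          funext i
          have h6 := RingHom.map_mulVec (b : A →+* ℂ) (cst P) u i
          rw [map_cst] at h6
          exact h6
        rw [h4] at h3
        rw [← h5]
        exact h3
      rw [h2, h1, Matrix.mulVec_mulVec _ P, Matrix.mulVec_mulVec, Matrix.adjugate_mul,
        Matrix.smul_mulVec, Matrix.one_mulVec, hdet]
      rfl

end Pool.Agent.H931.RC
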