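import Pool.Agent.H931.RC.Base
import Pool.Agent.H931.RC.LA

/-!
# Algebraic families: sections of the powers of `L` as kernels
-/

set_option autoImplicit false
set_option linter.unusedSectionVars false

open scoped WithZero Matrix
open Pool.Agent.Helper395.CS hiding genus
open Pool.Agent.Helper395.BC
open Pool.Agent.W518.PC (lpow)
open Pool.Agent.W45.PCG (lpow_degree)

namespace Pool.Agent.H931.RC

variable {r g : ℕ} {d : ℤ} {A : Type} [CommRing A] [Algebra ℂ A]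

/-- local data of an algebraic family -/
structure Loc (X : (A →ₐ[ℂ] ℂ) → Pair r g d) (f : A) (m p : ℕ) where
  P : ∀ b, LineBundle (X b).K
  e : ∀ b (i j : ℕ), Fin (dimPL g d p i j) → (X b).K
  γ : (i j i' j' : ℕ) → Fin (dimPL g d p i j) → Fin (dimPL g d p i' j') →
        Fin (dimPL g d p (i + i') (j + j')) → A
  hp : 2 * g + 1 ≤ p
  deg : ∀ b, b f ≠ 0 → (P b).degree = p
  ind : ∀ b, b f ≠ 0 → ∀ i j, 1 ≤ i → i ≤ m → j ≤ m → LinearIndependent ℂ (e b i j)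
  spn : ∀ b, b f ≠ 0 → ∀ i j, 1 ≤ i → i ≤ m → j ≤ m →
    Submodule.span ℂ (Set.range (e b i j)) = H0 (lmul (lpow (P b) i) (lpow (X b).L j))
  mul : ∀ b, b f ≠ 0 → ∀ i j i' j', 1 ≤ i → 1 ≤ i' → i + i' ≤ m → j + j' ≤ m → ∀ k k',
    e b i j k * e b i' j' k' = ∑ l, b (γ i j i' j' k k' l) • e b (i + i') (j + j') l

theorem exists_loc {X : (A →ₐ[ℂ] ℂ) → Pair r g d} (hX : IsAlgebraicFamily X) (b₀ : A →ₐ[ℂ] ℂ)
    (m : ℕ) : ∃ (f : A) (p : ℕ), b₀ f ≠ 0 ∧ Nonempty (Loc X f m p) := by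
  obtain ⟨f, hf, p, hp, γ, h⟩ := hX b₀ m
  have h1 : ∀ b : A →ₐ[ℂ] ℂ, ∃ (P : LineBundle (X b).K)
      (e : (i j : ℕ) → Fin (dimPL g d p i j) → (X b).K), b f ≠ 0 → (P.degree = p ∧
        (∀ i j, 1 ≤ i → i ≤ m → j ≤ m → LinearIndependent ℂ (e i j) ∧
            Submodule.span ℂ (Set.range (e i j)) = H0 (lmul (lpow P i) (lpow (X b).L j))) ∧
          (∀ i j i' j', 1 ≤ i → 1 ≤ i' → i + i' ≤ m → j + j' ≤ m → ∀ k k',
            e i j k * e i' j' k' = ∑ l, b (γ i j i' j' k k' l) • e (i + i') (j + j') l)) := by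
    intro b
    by_cases hb : b f ≠ 0
    · obtain ⟨P, h1, e, h2, h3⟩ := h b hb
      exact ⟨P, e, fun _ => ⟨h1, h2, h3⟩⟩
    · exact ⟨(X b).L, fun _ _ _ => 0, fun h => absurd h hb⟩
  choose P e h2 using h1
  exact ⟨f, p, hf, ⟨{ P := P, e := e, γ := γ, hp := hp
                      deg := fun b hb => (h2 b hb).1
                      ind := fun b hb i j h1 h3 h4 => ((h2 b hb).2.1 i j h1 h3 h4).1
                      spn := fun b hb i j h1 h3 h4 => ((h2 b hb).2.1 i j h1 h3 h4).2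
                      mul := fun b hb => (h2 b hb).2.2 }⟩⟩

theorem mem_PL {K : Type} [Field K] [Algebra ℂ K] (P L : LineBundle K) (i j : ℕ) (z : K) :
    z ∈ H0 (lmul (lpow P i) (lpow L j)) ↔
      ∀ w : Point K, w.val z ≤ w.val (P.frame w : K) ^ i * w.val (L.frame w : K) ^ j := by
  refine forall_congr' fun w => ?_
  rw [mem_lmul, lpow_frame, lpow_frame]

namespace Loc

variable {X : (A →ₐ[ℂ] ℂ) → Pair r g d} {f : A} {m p : ℕ} (D : Loc X f m p)

/-- restriction to a smaller open subset -/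
def restrict (h : A) : Loc X (f * h) m p where
  P := D.P
  e := D.e
  γ := D.γ
  hp := D.hp
  deg := fun b hb => D.deg b (by rw [map_mul] at hb; exact left_ne_zero_of_mul hb)
  ind := fun b hb => D.ind b (by rw [map_mul] at hb; exact left_ne_zero_of_mul hb)
  spn := fun b hb => D.spn b (by rw [map_mul] at hb; exact left_ne_zero_of_mul hb)
  mul := fun b hb => D.mul b (by rw [map_mul] at hb; exact left_ne_zero_of_mul hb)

/-- regular families of sections of `P^i L^j` -/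
def Rg (z : ∀ b, (X b).K) (i j : ℕ) : Prop :=
  ∃ Y : Fin (dimPL g d p i j) → A, ∀ b, b f ≠ 0 → z b = ∑ l, b (Y l) • D.e b i j l

theorem Rg.mul {z z' : ∀ b, (X b).K} {i j i' j' : ℕ} (hz : D.Rg z i j) (hz' : D.Rg z' i' j')
    (hi : 1 ≤ i) (hi' : 1 ≤ i') (hii : i + i' ≤ m) (hjj : j + j' ≤ m) :
    D.Rg (fun b => z b * z' b) (i + i') (j + j') := by
  obtain ⟨Y, hY⟩ := hz
  obtain ⟨Y', hY'⟩ := hz'
  refine ⟨fun l => ∑ k, ∑ k', Y k * Y' k' * D.γ i j i' j' k k' l, fun b hb => ?_⟩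
  change z b * z' b = _
  rw [hY b hb, hY' b hb, Finset.sum_mul_sum]
  simp only [map_sum, map_mul, Finset.sum_smul]
  conv_rhs => rw [Finset.sum_comm]
  refine Finset.sum_congr rfl fun k _ => ?_
  conv_rhs => rw [Finset.sum_comm]
  refine Finset.sum_congr rfl fun k' _ => ?_
  rw [smul_mul_smul_comm, D.mul b hb i j i' j' hi hi' hii hjj, Finset.smul_sum]
  refine Finset.sum_congr rfl fun l _ => ?_
  rw [smul_smul]

/-- the matrix whose kernel is `H⁰(L^j)` -/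
noncomputable def T (j : ℕ) : Matrix (Fin (dimPL g d p 1 0) × Fin (dimPL g d p 1 0) ×
    Fin (dimPL g d p (1 + 1) (j + 0))) (Fin (dimPL g d p 1 0) × Fin (dimPL g d p 1 j)) A :=
  Matrix.of fun a c => (if c.1 = a.1 then D.γ 1 j 1 0 c.2 a.2.1 a.2.2 else 0) -
    (if c.1 = a.2.1 then D.γ 1 j 1 0 c.2 a.1 a.2.2 else 0)

theorem T_mulVec (j : ℕ) (b : A →ₐ[ℂ] ℂ)
    (y : Fin (dimPL g d p 1 0) × Fin (dimPL g d p 1 j) → ℂ)
    (a : Fin (dimPL g d p 1 0) × Fin (dimPL g d p 1 0) × Fin (dimPL g d p (1 + 1) (j + 0))) :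
    (((D.T j).map (b : A →+* ℂ)) *ᵥ y) a =
      (∑ l, y (a.1, l) * b (D.γ 1 j 1 0 l a.2.1 a.2.2)) -
        ∑ l, y (a.2.1, l) * b (D.γ 1 j 1 0 l a.1 a.2.2) := by
  rw [Matrix.mulVec, dotProduct, Fintype.sum_prod_type]
  have h1 : ∀ (x : Fin (dimPL g d p 1 0)) (l : Fin (dimPL g d p 1 j)),
      (D.T j).map (b : A →+* ℂ) a (x, l) * y (x, l) =
        (if x = a.1 then y (x, l) * b (D.γ 1 j 1 0 l a.2.1 a.2.2) else 0) -
          (if x = a.2.1 then y (x, l) * b (D.γ 1 j 1 0 l a.1 a.2.2) else 0) := by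
    intro x l
    change b ((if x = a.1 then D.γ 1 j 1 0 l a.2.1 a.2.2 else 0) -
      (if x = a.2.1 then D.γ 1 j 1 0 l a.1 a.2.2 else 0)) * y (x, l) = _
    split_ifs <;> simp only [map_sub, map_zero] <;> ring
  simp only [h1, Finset.sum_sub_distrib]
  congr 1
  · rw [Finset.sum_eq_single a.1]
    · exact Finset.sum_congr rfl fun l _ => if_pos rfl
    · intro x _ hx
      exact Finset.sum_eq_zero fun l _ => if_neg hx
    · intro h; exact absurd (Finset.mem_univ _) h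
  · rw [Finset.sum_eq_single a.2.1]
    · exact Finset.sum_congr rfl fun l _ => if_pos rfl
    · intro x _ hx
      exact Finset.sum_eq_zero fun l _ => if_neg hx
    · intro h; exact absurd (Finset.mem_univ _) h

/-- the sections defined by the coordinates -/
noncomputable def phi (j : ℕ) (b : A →ₐ[ℂ] ℂ)
    (y : Fin (dimPL g d p 1 0) × Fin (dimPL g d p 1 j) → ℂ) (k : Fin (dimPL g d p 1 0)) : (X b).K :=
  ∑ l, y (k, l) • D.e b 1 j l

theorem phi_mul (hm : 2 ≤ m) {j : ℕ} (hj : j ≤ m) {b : A →ₐ[ℂ] ℂ} (hb : b f ≠ 0)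
    (y : Fin (dimPL g d p 1 0) × Fin (dimPL g d p 1 j) → ℂ) (k k' : Fin (dimPL g d p 1 0)) :
    D.phi j b y k * D.e b 1 0 k' =
      ∑ l, (∑ l', y (k, l') * b (D.γ 1 j 1 0 l' k' l)) • D.e b (1 + 1) (j + 0) l := by
  rw [phi, Finset.sum_mul]
  simp only [Finset.sum_smul]
  rw [Finset.sum_comm]
  refine Finset.sum_congr rfl fun l' _ => ?_
  rw [smul_mul_assoc, D.mul b hb 1 j 1 0 le_rfl le_rfl hm (by omega), Finset.smul_sum]
  exact Finset.sum_congr rfl fun l _ => smul_smul _ _ _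

theorem ker_iff (hm : 2 ≤ m) {j : ℕ} (hj : j ≤ m) {b : A →ₐ[ℂ] ℂ} (hb : b f ≠ 0)
    (y : Fin (dimPL g d p 1 0) × Fin (dimPL g d p 1 j) → ℂ) :
    ((D.T j).map (b : A →+* ℂ)) *ᵥ y = 0 ↔
      ∀ k k', D.phi j b y k * D.e b 1 0 k' = D.phi j b y k' * D.e b 1 0 k := by
  constructor
  · intro h k k'
    rw [D.phi_mul hm hj hb, D.phi_mul hm hj hb]
    refine Finset.sum_congr rfl fun l _ => ?_
    have h1 := congrFun h (k, k', l)
    rw [T_mulVec, Pi.zero_apply, sub_eq_zero] at h1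
    rw [h1]
  · intro h
    funext a
    obtain ⟨k, k', l⟩ := a
    rw [T_mulVec, Pi.zero_apply, sub_eq_zero]
    have h1 := h k k'
    rw [D.phi_mul hm hj hb, D.phi_mul hm hj hb, ← sub_eq_zero, ← Finset.sum_sub_distrib] at h1
    simp only [← sub_smul] at h1
    have h2 := Fintype.linearIndependent_iff.1 (D.ind b hb (1 + 1) (j + 0) (by omega) hm (by omega))
      _ h1 l
    exact sub_eq_zero.1 h2

end Loc

end Pool.Agent.H931.RC
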