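import Pool.Agent.H931.RC.Fam

/-!
# Algebraic families: the kernel of `T_j` is `H⁰(L^j)`
-/

set_option autoImplicit false
set_option linter.unusedSectionVars false

open scoped WithZero Matrix
open Pool.Agent.Helper395.CS hiding genus
open Pool.Agent.Helper395.BC
open Pool.Agent.W518.PC (lpow)
open Pool.Agent.W45.PCG (lpow_degree)

namespace Pool.Agent.H931.RC

variable {r g : ℕ} {d : ℤ} {A : Type} [CommRing A] [Algebra ℂ A]

namespace Loc

variable {X : (A →ₐ[ℂ] ℂ) → Pair r g d} {f : A} {m p : ℕ} (D : Loc X f m p)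

include D in
theorem n0_pos : 0 < dimPL g d p 1 0 := by
  have := D.hp
  unfold dimPL
  push_cast
  omega

theorem e_mem {b : A →ₐ[ℂ] ℂ} (hb : b f ≠ 0) {i j : ℕ} (hi : 1 ≤ i) (him : i ≤ m) (hj : j ≤ m)
    (l : Fin (dimPL g d p i j)) (w : Point (X b).K) :
    w.val (D.e b i j l) ≤ w.val ((D.P b).frame w : (X b).K) ^ i *
      w.val ((X b).L.frame w : (X b).K) ^ j := by
  have h1 : D.e b i j l ∈ H0 (lmul (lpow (D.P b) i) (lpow (X b).L j)) := by
    rw [← D.spn b hb i j hi him hj]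
    exact Submodule.subset_span ⟨l, rfl⟩
  rw [mem_PL] at h1
  exact h1 w

theorem exists_phi (hm : 2 ≤ m) {j : ℕ} (hj : j ≤ m) {b : A →ₐ[ℂ] ℂ} (hb : b f ≠ 0)
    {z : (X b).K} (hz : z ∈ H0 (lpow (X b).L j)) :
    ∃ y : Fin (dimPL g d p 1 0) × Fin (dimPL g d p 1 j) → ℂ,
      ((D.T j).map (b : A →+* ℂ)) *ᵥ y = 0 ∧ ∀ k, D.phi j b y k = z * D.e b 1 0 k := by
  rw [mem_Hn] at hz
  have h1 : ∀ k, ∃ c : Fin (dimPL g d p 1 j) → ℂ, ∑ l, c l • D.e b 1 j l = z * D.e b 1 0 k := by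
    intro k
    have h2 : z * D.e b 1 0 k ∈ H0 (lmul (lpow (D.P b) (1 : ℕ)) (lpow (X b).L j)) := by
      rw [mem_PL]
      intro w
      have h3 := D.e_mem hb le_rfl (by omega) (Nat.zero_le m) k w
      rw [pow_zero, mul_one] at h3
      rw [map_mul, mul_comm]
      exact mul_le_mul' h3 (hz w)
    rw [← D.spn b hb 1 j le_rfl (by omega) hj] at h2
    exact (Submodule.mem_span_range_iff_exists_fun ℂ).1 h2
  choose c hc using h1
  refine ⟨fun q => c q.1 q.2, ?_, hc⟩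
  rw [D.ker_iff hm hj hb]
  intro k k'
  have h2 : ∀ k, D.phi j b (fun q => c q.1 q.2) k = z * D.e b 1 0 k := hc
  rw [h2, h2]
  ring

theorem exists_of_phi (hg : g ≠ 0) (hm : 2 ≤ m) {j : ℕ} (hj : j ≤ m) {b : A →ₐ[ℂ] ℂ} (hb : b f ≠ 0)
    {y : Fin (dimPL g d p 1 0) × Fin (dimPL g d p 1 j) → ℂ}
    (hy : ((D.T j).map (b : A →+* ℂ)) *ᵥ y = 0) :
    ∃ z ∈ H0 (lpow (X b).L j), ∀ k, D.phi j b y k = z * D.e b 1 0 k := by
  rw [D.ker_iff hm hj hb] at hy
  set k₀ : Fin (dimPL g d p 1 0) := ⟨0, D.n0_pos⟩ with hk₀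
  have he : D.e b 1 0 k₀ ≠ 0 := (D.ind b hb 1 0 le_rfl (by omega) (Nat.zero_le m)).ne_zero k₀
  have h1 : ∀ k, D.phi j b y k = D.phi j b y k₀ / D.e b 1 0 k₀ * D.e b 1 0 k := by
    intro k
    rw [div_mul_eq_mul_div, eq_div_iff he]
    exact hy k k₀
  refine ⟨_, ?_, h1⟩
  set z := D.phi j b y k₀ / D.e b 1 0 k₀ with hz
  rw [mem_Hn]
  intro w
  have hgen := (X b).genus_eq
  obtain ⟨ρ, hρ, hρ'⟩ := exists_line_gen (X b).isCurve (by rw [hgen]; exact hg) (R := D.P b) (by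
    rw [D.deg b hb, hgen]
    have := D.hp
    omega) w
  have h2 : ρ ∈ H0 (lmul (lpow (D.P b) (1 : ℕ)) (lpow (X b).L (0 : ℕ))) := by
    rw [mem_PL]
    intro w
    rw [pow_one, pow_zero, mul_one]
    exact hρ w
  rw [← D.spn b hb 1 0 le_rfl (by omega) (Nat.zero_le m)] at h2
  obtain ⟨c, hc⟩ := (Submodule.mem_span_range_iff_exists_fun ℂ).1 h2
  have h3 : w.val (z * ρ) ≤ w.val ((D.P b).frame w : (X b).K) *
      w.val ((X b).L.frame w : (X b).K) ^ j := by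
    have h4 : z * ρ = ∑ k, c k • D.phi j b y k := by
      rw [← hc, Finset.mul_sum]
      refine Finset.sum_congr rfl fun k _ => ?_
      rw [h1 k, mul_smul_comm]
    rw [h4]
    refine Valuation.map_sum_le _ fun k _ => ?_
    have h5 : D.phi j b y k ∈ H0 (lmul (lpow (D.P b) (1 : ℕ)) (lpow (X b).L j)) := by
      rw [← D.spn b hb 1 j le_rfl (by omega) hj]
      exact Submodule.sum_mem _ fun l _ =>
        Submodule.smul_mem _ _ (Submodule.subset_span ⟨l, rfl⟩)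
    rw [mem_PL] at h5
    have h6 := h5 w
    rw [pow_one] at h6
    refine le_trans ?_ h6
    rw [Algebra.smul_def, map_mul]
    exact mul_le_of_le_one_left' (w.const_le _)
  rw [map_mul, hρ', mul_comm] at h3
  exact (mul_le_mul_iff_right₀ (frame_pos (D.P b) w)).1 h3

theorem finrank_ker (hg : g ≠ 0) (hm : 2 ≤ m) {j : ℕ} (hj : j ≤ m) {b : A →ₐ[ℂ] ℂ}
    (hb : b f ≠ 0) :
    Module.finrank ℂ (LinearMap.ker ((D.T j).map (b : A →+* ℂ)).mulVecLin) =
      Module.finrank ℂ (H0 (lpow (X b).L j)) := by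
  let Ψ : (Fin (dimPL g d p 1 0) × Fin (dimPL g d p 1 j) → ℂ) →ₗ[ℂ]
      (Fin (dimPL g d p 1 0) → (X b).K) :=
    { toFun := fun y k => D.phi j b y k
      map_add' := by
        intro y y'
        funext k
        simp only [phi, Pi.add_apply, add_smul, Finset.sum_add_distrib]
      map_smul' := by
        intro c y
        funext k
        simp only [phi, Pi.smul_apply, smul_eq_mul, RingHom.id_apply, mul_smul, Finset.smul_sum] }
  let Θ : (X b).K →ₗ[ℂ] (Fin (dimPL g d p 1 0) → (X b).K) :=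
    { toFun := fun z k => z * D.e b 1 0 k
      map_add' := by
        intro y y'
        funext k
        simp only [Pi.add_apply, add_mul]
      map_smul' := by
        intro c y
        funext k
        simp only [Pi.smul_apply, RingHom.id_apply, smul_mul_assoc] }
  have hΨ : Function.Injective Ψ := by
    rw [injective_iff_map_eq_zero]
    intro y hy
    funext q
    obtain ⟨k, l⟩ := q
    have h1 : ∑ l, y (k, l) • D.e b 1 j l = 0 := congrFun hy k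
    exact Fintype.linearIndependent_iff.1 (D.ind b hb 1 j le_rfl (by omega) hj) _ h1 l
  have hΘ : Function.Injective Θ := by
    rw [injective_iff_map_eq_zero]
    intro z hz
    have h1 : z * D.e b 1 0 ⟨0, D.n0_pos⟩ = 0 := congrFun hz ⟨0, D.n0_pos⟩
    exact (mul_eq_zero.1 h1).resolve_right
      ((D.ind b hb 1 0 le_rfl (by omega) (Nat.zero_le m)).ne_zero _)
  have h1 : (LinearMap.ker ((D.T j).map (b : A →+* ℂ)).mulVecLin).map Ψ =
      (H0 (lpow (X b).L j)).map Θ := by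
    apply le_antisymm
    · rintro _ ⟨y, hy, rfl⟩
      obtain ⟨z, hz, h2⟩ := D.exists_of_phi hg hm hj hb (y := y) hy
      exact ⟨z, hz, funext fun k => (h2 k).symm⟩
    · rintro _ ⟨z, hz, rfl⟩
      obtain ⟨y, hy, h2⟩ := D.exists_phi hm hj hb hz
      exact ⟨y, hy, funext h2⟩
  rw [(Submodule.equivMapOfInjective Ψ hΨ _).finrank_eq, h1,
    ← (Submodule.equivMapOfInjective Θ hΘ _).finrank_eq]

include D in
/-- the number of sections of `L^j` is upper semicontinuous -/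
theorem semicont (hg : g ≠ 0) (hm : 2 ≤ m) {j : ℕ} (hj : j ≤ m) {b₀ : A →ₐ[ℂ] ℂ}
    (hb₀ : b₀ f ≠ 0) : ∃ h : A, b₀ h ≠ 0 ∧ ∀ b : A →ₐ[ℂ] ℂ, b f ≠ 0 → b h ≠ 0 →
      Module.finrank ℂ (H0 (lpow (X b).L j)) ≤ Module.finrank ℂ (H0 (lpow (X b₀).L j)) := by
  obtain ⟨h, E, h1, -, h3⟩ := ker_param (D.T j) b₀
  refine ⟨h, h1, fun b hb hbh => ?_⟩
  rw [← D.finrank_ker hg hm hj hb, ← D.finrank_ker hg hm hj hb₀]
  exact (h3 b hbh).1

/-- extension of sections -/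
theorem extend (hg : g ≠ 0) (hm : 2 ≤ m) {b₀ : A →ₐ[ℂ] ℂ} (hb₀ : b₀ f ≠ 0)
    (hc : ∀ b : A →ₐ[ℂ] ℂ, b f ≠ 0 →
      Module.finrank ℂ (H0 (X b).L) = Module.finrank ℂ (H0 (X b₀).L))
    {ι : Type} (x₀ : ι → (X b₀).K) (hx₀ : ∀ i, x₀ i ∈ H0 (X b₀).L) :
    ∃ (h : A) (x : ∀ b, ι → (X b).K), b₀ h ≠ 0 ∧ x b₀ = x₀ ∧
      (∀ i, (D.restrict h).Rg (fun b => x b i * D.e b 1 0 ⟨0, D.n0_pos⟩) 1 1) ∧
      ∀ b : A →ₐ[ℂ] ℂ, b (f * h) ≠ 0 → ∀ i, x b i ∈ H0 (X b).L := by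
  obtain ⟨h, E, h1, h2, h3⟩ := ker_param (D.T 1) b₀
  have h4 : ∀ i, ∃ y : Fin (dimPL g d p 1 0) × Fin (dimPL g d p 1 1) → ℂ,
      ((D.T 1).map (b₀ : A →+* ℂ)) *ᵥ y = 0 ∧ ∀ k, D.phi 1 b₀ y k = x₀ i * D.e b₀ 1 0 k := by
    intro i
    refine D.exists_phi hm (by omega) hb₀ ?_
    rw [Nat.cast_one, H0_lpow_one]
    exact hx₀ i
  choose w hw hwx using h4
  set k₀ : Fin (dimPL g d p 1 0) := ⟨0, D.n0_pos⟩ with hk₀
  have he : ∀ b : A →ₐ[ℂ] ℂ, b f ≠ 0 → D.e b 1 0 k₀ ≠ 0 := fun b hb =>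
    (D.ind b hb 1 0 le_rfl (by omega) (Nat.zero_le m)).ne_zero k₀
  refine ⟨h, fun b i => D.phi 1 b (fun l => b (E (w i) l)) k₀ / D.e b 1 0 k₀, h1, ?_, ?_, ?_⟩
  · funext i
    have h5 : (fun l => b₀ (E (w i) l)) = w i := funext (h2 (w i) (hw i))
    simp only [h5, hwx i]
    exact mul_div_cancel_right₀ _ (he b₀ hb₀)
  · intro i
    refine ⟨fun l => E (w i) (k₀, l), fun b hb => ?_⟩
    have hbf : b f ≠ 0 := by rw [map_mul] at hb; exact left_ne_zero_of_mul hb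
    change D.phi 1 b (fun l => b (E (w i) l)) k₀ / D.e b 1 0 k₀ * D.e b 1 0 k₀ = _
    rw [div_mul_cancel₀ _ (he b hbf)]
    rfl
  · intro b hb i
    have hbf : b f ≠ 0 := by rw [map_mul] at hb; exact left_ne_zero_of_mul hb
    have hbh : b h ≠ 0 := by rw [map_mul] at hb; exact right_ne_zero_of_mul hb
    have h5 := (h3 b hbh).2 (by
      rw [D.finrank_ker hg hm (by omega) hbf, D.finrank_ker hg hm (by omega) hb₀, Nat.cast_one,
        H0_lpow_one, H0_lpow_one, hc b hbf]) (w i) (hw i)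
    obtain ⟨z, hz, hz'⟩ := D.exists_of_phi hg hm (by omega) hbf h5
    rw [Nat.cast_one, H0_lpow_one] at hz
    change D.phi 1 b (fun l => b (E (w i) l)) k₀ / D.e b 1 0 k₀ ∈ _
    rw [hz' k₀, mul_div_cancel_right₀ _ (he b hbf)]
    exact hz

end Loc

end Pool.Agent.H931.RC
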