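import Pool.Agent.H931.RC.Dom

/-!
# Fibres of maps to affine space
-/

set_option autoImplicit false
set_option linter.unusedSectionVars false

open scoped Pointwise

namespace Pool.Agent.H931.RC

open Polynomial

/-- points of affine varieties avoiding a hypersurface -/
theorem exists_point {B : Type} [CommRing B] [IsDomain B] [Algebra ℂ B] [Algebra.FiniteType ℂ B]
    {g : B} (hg : g ≠ 0) : ∃ ψ : B →ₐ[ℂ] ℂ, ψ g ≠ 0 := by
  have h1 : IsJacobsonRing B := isJacobsonRing_of_finiteType (A := ℂ)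
  have h2 : (⊥ : Ideal B).jacobson = ⊥ :=
    IsJacobsonRing.out h1 (Ideal.IsPrime.isRadical Ideal.isPrime_bot)
  have h3 : g ∉ (⊥ : Ideal B).jacobson := by
    rw [h2, Ideal.mem_bot]
    exact hg
  rw [Ideal.jacobson, Submodule.mem_sInf] at h3
  push Not at h3
  obtain ⟨m, ⟨-, hm⟩, hgm⟩ := h3
  obtain ⟨ε, hε⟩ := exists_residue m
  refine ⟨ε, fun h => hgm ?_⟩
  rw [← hε]
  exact h

/-- ideals of affine rings have zeros -/
theorem exists_zero {B : Type} [CommRing B] [Algebra ℂ B] [Algebra.FiniteType ℂ B]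
    {I : Ideal B} (hI : I ≠ ⊤) : ∃ ψ : B →ₐ[ℂ] ℂ, ∀ x ∈ I, ψ x = 0 := by
  obtain ⟨m, hm, hIm⟩ := Ideal.exists_le_maximal I hI
  obtain ⟨ε, hε⟩ := exists_residue m
  refine ⟨ε, fun x hx => ?_⟩
  have h1 : x ∈ RingHom.ker (ε : B →+* ℂ) := by rw [hε]; exact hIm hx
  exact h1

variable {F : Type} [Field F] [Algebra ℂ F]

theorem isAlgebraic_of_gens {s : Set F} {S₀ : Set F} (hF : ∀ x : F, ∃ a ∈ Algebra.adjoin ℂ S₀,
      ∃ b ∈ Algebra.adjoin ℂ S₀, b ≠ 0 ∧ x * b = a)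
    (h : ∀ x ∈ S₀, IsAlgebraic (Algebra.adjoin ℂ s) x) :
    Algebra.IsAlgebraic (Algebra.adjoin ℂ s) F := by
  have h1 : Algebra.adjoin ℂ S₀ ≤
      (Subalgebra.algebraicClosure (Algebra.adjoin ℂ s) F).restrictScalars ℂ := by
    rw [Algebra.adjoin_le_iff]
    exact h
  refine ⟨fun x => ?_⟩
  obtain ⟨a, ha, b, hb, hb0, hx⟩ := hF x
  have ha' : IsAlgebraic (Algebra.adjoin ℂ s) a := h1 ha
  have hb' : IsAlgebraic (Algebra.adjoin ℂ s) b := h1 hb
  have h2 : x = a * b⁻¹ := by rw [← hx, mul_assoc, mul_inv_cancel₀ hb0, mul_one]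
  rw [h2]
  exact ha'.mul hb'.inv

theorem exists_split {ι : Type} [Finite ι] (c : ι → F) (S₀ : Finset F)
    (hF : ∀ x : F, ∃ a ∈ Algebra.adjoin ℂ (S₀ : Set F),
      ∃ b ∈ Algebra.adjoin ℂ (S₀ : Set F), b ≠ 0 ∧ x * b = a)
    (h3 : ¬ Algebra.IsAlgebraic (Algebra.adjoin ℂ (Set.range c)) F) :
    ∃ T : Finset F, ∃ z ∈ S₀, T ⊆ S₀ ∧
      Transcendental (Algebra.adjoin ℂ (Set.range c ∪ (T : Set F))) z ∧
      Algebra.IsAlgebraic (Algebra.adjoin ℂ (Set.range c ∪ (insert z (T : Set F)))) F := by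
  classical
  obtain ⟨T, hT, hmax⟩ := Finset.exists_max_image
    (S₀.powerset.filter fun T : Finset F =>
      ¬ Algebra.IsAlgebraic (Algebra.adjoin ℂ (Set.range c ∪ (T : Set F))) F) Finset.card
    ⟨∅, by
      rw [Finset.mem_filter]
      refine ⟨Finset.empty_mem_powerset _, ?_⟩
      rw [Finset.coe_empty, Set.union_empty]
      exact h3⟩
  rw [Finset.mem_filter, Finset.mem_powerset] at hT
  obtain ⟨hTS, hT3⟩ := hT
  obtain ⟨z, hz, hzt⟩ : ∃ z ∈ S₀, Transcendental (Algebra.adjoin ℂ (Set.range c ∪ (T : Set F))) z := by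
    by_contra hcon
    push Not at hcon
    refine hT3 (isAlgebraic_of_gens hF fun x hx => ?_)
    have := hcon x hx
    rwa [Transcendental, not_not] at this
  refine ⟨T, z, hz, hTS, hzt, ?_⟩
  by_contra hcon
  have hzT : z ∉ T := by
    intro h
    apply hzt
    exact isAlgebraic_algebraMap
      (⟨z, Algebra.subset_adjoin (Or.inr h)⟩ : Algebra.adjoin ℂ (Set.range c ∪ (T : Set F)))
  have h1 := hmax (insert z T) (by
    rw [Finset.mem_filter, Finset.mem_powerset]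
    refine ⟨Finset.insert_subset hz hTS, ?_⟩
    rwa [Finset.coe_insert])
  rw [Finset.card_insert_of_notMem hzT] at h1
  omega

/-- extension of points -/
theorem exists_ext (R : Subalgebra ℂ F) (S₀ : Finset F) (φ : R →ₐ[ℂ] ℂ) (y : R) (hφ : φ y ≠ 0)
    (hint : ∀ s ∈ S₀, IsIntegral R (y • s)) (hRA : R ≤ Algebra.adjoin ℂ (S₀ : Set F)) :
    ∃ b : Algebra.adjoin ℂ (S₀ : Set F) →ₐ[ℂ] ℂ, ∀ x : R, b ⟨x, hRA x.2⟩ = φ x := by
  have hft : Algebra.FiniteType ℂ (Algebra.adjoin ℂ (S₀ : Set F)) :=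
    (Subalgebra.fg_iff_finiteType _).1 ⟨S₀, rfl⟩
  set I : Ideal (Algebra.adjoin ℂ (S₀ : Set F)) :=
    Ideal.span {a | ∃ x : R, φ x = 0 ∧ a = ⟨x, hRA x.2⟩} with hI
  have hfrac : ∀ a ∈ Algebra.adjoin ℂ (S₀ : Set F), ∃ D : ℕ, IsIntegral R ((y : F) ^ D * a) := by
    intro a ha
    induction ha using Algebra.adjoin_induction with
    | mem x hx => exact ⟨1, by rw [pow_one]; exact hint x hx⟩
    | algebraMap r =>
      refine ⟨0, ?_⟩
      rw [pow_zero, one_mul]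
      exact isIntegral_algebraMap (R := R) (x := algebraMap ℂ R r)
    | add a b _ _ ha hb =>
      obtain ⟨D, hD⟩ := ha
      obtain ⟨E, hE⟩ := hb
      refine ⟨D + E, ?_⟩
      have h1 : (y : F) ^ (D + E) * (a + b) = (y : F) ^ E * ((y : F) ^ D * a) +
        (y : F) ^ D * ((y : F) ^ E * b) := by ring
      have h2 : ∀ n : ℕ, IsIntegral R ((y : F) ^ n) := fun n =>
        (isIntegral_algebraMap (R := R) (x := y)).pow n
      rw [h1]
      exact ((h2 E).mul hD).add ((h2 D).mul hE)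
    | mul a b _ _ ha hb =>
      obtain ⟨D, hD⟩ := ha
      obtain ⟨E, hE⟩ := hb
      refine ⟨D + E, ?_⟩
      have h1 : (y : F) ^ (D + E) * (a * b) = ((y : F) ^ D * a) * ((y : F) ^ E * b) := by ring
      rw [h1]
      exact hD.mul hE
  have hItop : I ≠ ⊤ := by
    intro htop
    have hprime : (RingHom.ker (φ : R →+* ℂ)).IsPrime := RingHom.ker_isPrime _
    obtain ⟨Q, hQ, hQP⟩ := Ideal.exists_ideal_over_prime_of_isIntegral_of_isDomain
      (R := R) (S := integralClosure R F) (RingHom.ker (φ : R →+* ℂ)) (by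
        have h1 : RingHom.ker (algebraMap R (integralClosure R F)) = ⊥ := by
          rw [RingHom.ker_eq_bot_iff_eq_zero]
          intro x hx
          apply Subtype.ext
          exact congrArg (fun w : integralClosure R F => (w : F)) hx
        rw [h1]
        exact bot_le)
    have hPr : ∀ a ∈ I, ∃ D : ℕ, ∃ w ∈ Q, ((w : integralClosure R F) : F) = (y : F) ^ D * a := by
      intro a ha
      induction ha using Submodule.span_induction with
      | mem a ha =>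
        obtain ⟨x, hx, rfl⟩ := ha
        refine ⟨0, algebraMap R (integralClosure R F) x, ?_, ?_⟩
        · have h1 : x ∈ Q.comap (algebraMap R (integralClosure R F)) := by rw [hQP]; exact hx
          exact h1
        · rw [pow_zero, one_mul]
          rfl
      | zero => exact ⟨0, 0, Q.zero_mem, by simp⟩
      | add a b _ _ ha hb =>
        obtain ⟨D, w, hw, hwa⟩ := ha
        obtain ⟨E, w', hw', hwb⟩ := hb
        refine ⟨D + E, algebraMap R (integralClosure R F) y ^ E * w +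
          algebraMap R (integralClosure R F) y ^ D * w',
          Q.add_mem (Q.mul_mem_left _ hw) (Q.mul_mem_left _ hw'), ?_⟩
        have h1 : ((algebraMap R (integralClosure R F) y ^ E * w +
          algebraMap R (integralClosure R F) y ^ D * w' : integralClosure R F) : F) =
            (y : F) ^ E * (w : F) + (y : F) ^ D * (w' : F) := rfl
        rw [h1, hwa, hwb]
        push_cast
        ring
      | smul c a _ ha =>
        obtain ⟨D, w, hw, hwa⟩ := ha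
        obtain ⟨E, hE⟩ := hfrac c c.2
        refine ⟨D + E, ⟨_, hE⟩ * w, Q.mul_mem_left _ hw, ?_⟩
        have h1 : (((⟨(y : F) ^ E * c, hE⟩ : integralClosure R F) * w : integralClosure R F) : F) =
            (y : F) ^ E * c * (w : F) := rfl
        rw [h1, hwa, smul_eq_mul]
        push_cast
        ring
    obtain ⟨D, w, hw, hw1⟩ := hPr 1 (by rw [htop]; exact Submodule.mem_top)
    have h1 : w = algebraMap R (integralClosure R F) (y ^ D) := by
      apply Subtype.ext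
      rw [hw1]
      push_cast
      rw [mul_one]
      rfl
    have h2 : y ^ D ∈ Q.comap (algebraMap R (integralClosure R F)) := by
      rw [Ideal.mem_comap, ← h1]
      exact hw
    rw [hQP, RingHom.mem_ker] at h2
    have h3 : φ (y ^ D) = 0 := h2
    rw [map_pow] at h3
    exact hφ (eq_zero_of_pow_eq_zero h3)
  obtain ⟨b, hb⟩ := exists_zero hItop
  refine ⟨b, fun x => ?_⟩
  have h1 : (⟨x, hRA x.2⟩ : Algebra.adjoin ℂ (S₀ : Set F)) =
      ⟨(x - algebraMap ℂ R (φ x) : R), hRA (x - algebraMap ℂ R (φ x)).2⟩ +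
        algebraMap ℂ (Algebra.adjoin ℂ (S₀ : Set F)) (φ x) := by
    apply Subtype.ext
    change (x : F) = ((x : F) - algebraMap ℂ F (φ x)) + algebraMap ℂ F (φ x)
    ring
  rw [h1, map_add, b.commutes, hb _ (Ideal.subset_span ⟨_, ?_, rfl⟩), zero_add]
  · rfl
  · rw [map_sub, φ.commutes]
    exact sub_self _

theorem infinite_fibre_field {ι : Type} [Finite ι] (c : ι → F) (S₀ : Finset F)
    (hF : ∀ x : F, ∃ a ∈ Algebra.adjoin ℂ (S₀ : Set F),
      ∃ b ∈ Algebra.adjoin ℂ (S₀ : Set F), b ≠ 0 ∧ x * b = a)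
    (hc : ∀ i, c i ∈ Algebra.adjoin ℂ (S₀ : Set F))
    (h3 : ¬ Algebra.IsAlgebraic (Algebra.adjoin ℂ (Set.range c)) F) :
    ∃ c₀ : ι → ℂ,
      {b : Algebra.adjoin ℂ (S₀ : Set F) →ₐ[ℂ] ℂ | ∀ i, b ⟨c i, hc i⟩ = c₀ i}.Infinite := by
  classical
  obtain ⟨T, z, hz, hTS, hzt, halg⟩ := exists_split c S₀ hF h3
  set B := Algebra.adjoin ℂ (Set.range c ∪ (T : Set F)) with hB
  have hBft : Algebra.FiniteType ℂ B := by
    rw [← Subalgebra.fg_iff_finiteType]
    exact Subalgebra.fg_def.2 ⟨_, (Set.finite_range c).union T.finite_toSet, rfl⟩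
  have hBA : B ≤ Algebra.adjoin ℂ (S₀ : Set F) := by
    rw [hB, Algebra.adjoin_le_iff]
    rintro x (⟨i, rfl⟩ | hx)
    · exact hc i
    · exact Algebra.subset_adjoin (hTS hx)
  have hzA : z ∈ Algebra.adjoin ℂ (S₀ : Set F) := Algebra.subset_adjoin hz
  let e : B[X] →ₐ[ℂ] F := (Polynomial.aeval z : B[X] →ₐ[B] F).restrictScalars ℂ
  have heC : ∀ x : B, e (C x) = x := fun x => Polynomial.aeval_C z x
  have heX : e X = z := Polynomial.aeval_X z
  have he : Function.Injective e := transcendental_iff_injective.1 hzt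
  have hR : Algebra.adjoin ℂ (Set.range c ∪ (insert z (T : Set F))) ≤ e.range := by
    rw [Algebra.adjoin_le_iff]
    rintro x (⟨i, rfl⟩ | hx)
    · exact ⟨C ⟨c i, Algebra.subset_adjoin (Or.inl ⟨i, rfl⟩)⟩, heC _⟩
    · rcases hx with rfl | hx
      · exact ⟨X, heX⟩
      · exact ⟨C ⟨x, Algebra.subset_adjoin (Or.inr hx)⟩, heC _⟩
  have hRalg : Algebra.IsAlgebraic e.range F := by
    refine ⟨fun x => ?_⟩
    exact (halg.isAlgebraic x).ringHom_of_comp_eq (Subalgebra.inclusion hR : _ →+* e.range)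
      (RingHom.id F) (Subalgebra.inclusion_injective hR) rfl
  have hRA : e.range ≤ Algebra.adjoin ℂ (S₀ : Set F) := by
    rintro _ ⟨p, rfl⟩
    change e p ∈ _
    induction p using Polynomial.induction_on with
    | C x => rw [heC]; exact hBA x.2
    | add p q hp hq => rw [map_add]; exact Subalgebra.add_mem _ hp hq
    | monomial n x h =>
      rw [map_mul, map_pow, heC, heX]
      exact Subalgebra.mul_mem _ (hBA x.2) (Subalgebra.pow_mem _ hzA _)
  obtain ⟨y, hy0, hint⟩ := Algebra.IsAlgebraic.exists_integral_multiples e.range S₀ (A := F)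
  obtain ⟨f, hf⟩ := y.2
  have hf' : e f = y := hf
  have hf0 : f ≠ 0 := by
    rintro rfl
    rw [map_zero] at hf'
    exact hy0 (Subtype.ext hf'.symm)
  obtain ⟨ψ, hψ⟩ := exists_point (leadingCoeff_ne_zero.2 hf0)
  let E : B[X] ≃ₐ[ℂ] e.range := AlgEquiv.ofInjective e he
  let ev : ℂ → B[X] →ₐ[ℂ] ℂ := fun z₀ => (Polynomial.aeval z₀).comp (Polynomial.mapAlgHom ψ)
  have hev : ∀ z₀ p, ev z₀ p = (p.map (ψ : B →+* ℂ)).eval z₀ := by
    intro z₀ p
    change Polynomial.aeval z₀ (p.map (ψ : B →+* ℂ)) = _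
    rw [Polynomial.coe_aeval_eq_eval]
  let φ : ℂ → e.range →ₐ[ℂ] ℂ := fun z₀ => (ev z₀).comp (E.symm : e.range →ₐ[ℂ] B[X])
  have hφ : ∀ z₀ p, φ z₀ ⟨e p, ⟨p, rfl⟩⟩ = (p.map (ψ : B →+* ℂ)).eval z₀ := by
    intro z₀ p
    change ev z₀ (E.symm ⟨e p, ⟨p, rfl⟩⟩) = _
    have h1 : E.symm ⟨e p, ⟨p, rfl⟩⟩ = p := by
      rw [AlgEquiv.symm_apply_eq]
      rfl
    rw [h1, hev]
  have hfψ : f.map (ψ : B →+* ℂ) ≠ 0 := by
    intro h
    have h1 : (f.map (ψ : B →+* ℂ)).coeff f.natDegree = 0 := by rw [h, coeff_zero]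
    rw [coeff_map] at h1
    exact hψ h1
  have hex : ∀ z₀ : ℂ, (f.map (ψ : B →+* ℂ)).eval z₀ ≠ 0 →
      ∃ b : Algebra.adjoin ℂ (S₀ : Set F) →ₐ[ℂ] ℂ, (∀ i, b ⟨c i, hc i⟩ =
        ψ ⟨c i, Algebra.subset_adjoin (Or.inl ⟨i, rfl⟩)⟩) ∧ b ⟨z, hzA⟩ = z₀ := by
    intro z₀ hz₀
    have h1 : φ z₀ y ≠ 0 := by
      have h2 : y = ⟨e f, ⟨f, rfl⟩⟩ := Subtype.ext hf'.symm
      rw [h2, hφ]
      exact hz₀
    obtain ⟨b, hb⟩ := exists_ext e.range S₀ (φ z₀) y h1 hint hRA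
    refine ⟨b, fun i => ?_, ?_⟩
    · have h2 := hb ⟨e (C ⟨c i, Algebra.subset_adjoin (Or.inl ⟨i, rfl⟩)⟩), ⟨_, rfl⟩⟩
      rw [hφ, Polynomial.map_C, Polynomial.eval_C] at h2
      have h3 : (⟨c i, hc i⟩ : Algebra.adjoin ℂ (S₀ : Set F)) =
          ⟨e (C ⟨c i, Algebra.subset_adjoin (Or.inl ⟨i, rfl⟩)⟩), hRA ⟨_, rfl⟩⟩ :=
        Subtype.ext (heC ⟨c i, Algebra.subset_adjoin (Or.inl ⟨i, rfl⟩)⟩).symm
      rw [h3]
      exact h2
    · have h2 := hb ⟨e X, ⟨_, rfl⟩⟩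
      rw [hφ, Polynomial.map_X, Polynomial.eval_X] at h2
      have h3 : (⟨z, hzA⟩ : Algebra.adjoin ℂ (S₀ : Set F)) = ⟨e X, hRA ⟨_, rfl⟩⟩ :=
        Subtype.ext heX.symm
      rw [h3]
      exact h2
  refine ⟨fun i => ψ ⟨c i, Algebra.subset_adjoin (Or.inl ⟨i, rfl⟩)⟩, ?_⟩
  have hinf : {z₀ : ℂ | (f.map (ψ : B →+* ℂ)).eval z₀ ≠ 0}.Infinite := by
    have h1 : {z₀ : ℂ | (f.map (ψ : B →+* ℂ)).eval z₀ ≠ 0} =
        {z₀ : ℂ | (f.map (ψ : B →+* ℂ)).IsRoot z₀}ᶜ := rfl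
    rw [h1]
    refine Set.Finite.infinite_compl ?_
    exact Polynomial.finite_setOfPred_isRoot hfψ
  have hne : Nonempty (Algebra.adjoin ℂ (S₀ : Set F) →ₐ[ℂ] ℂ) := by
    obtain ⟨z₁, hz₁⟩ := hinf.nonempty
    exact ⟨(hex z₁ hz₁).choose⟩
  choose! β hβ using hex
  refine Set.infinite_of_injOn_mapsTo (f := β) (s := {z₀ : ℂ | (f.map (ψ : B →+* ℂ)).eval z₀ ≠ 0})
    ?_ ?_ hinf
  · intro z₁ hz₁ z₂ hz₂ h
    rw [← (hβ z₁ hz₁).2, h, (hβ z₂ hz₂).2]
  · intro z₁ hz₁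
    exact (hβ z₁ hz₁).1

/-- the fibres of a rational map to an affine space of smaller dimension are infinite -/
theorem infinite_fibre {A : Type} [CommRing A] [IsDomain A] [Algebra ℂ A] [Algebra.FiniteType ℂ A]
    {ι : Type} [Fintype ι] {h : A} (hh : h ≠ 0) (γ : ι → A)
    (hn : (Fintype.card ι : Cardinal) < Algebra.trdeg ℂ A) :
    ∃ c₀ : ι → ℂ, {b : A →ₐ[ℂ] ℂ | b h ≠ 0 ∧ ∀ i, b (γ i) = b h * c₀ i}.Infinite := by
  classical
  set F := FractionRing A with hFdef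
  let am : A →ₐ[ℂ] F := IsScalarTower.toAlgHom ℂ A F
  have ham : Function.Injective am := IsFractionRing.injective A F
  obtain ⟨S₁, hS₁⟩ := (inferInstance : Algebra.FiniteType ℂ A).out
  set S₀ : Finset F := insert (am h)⁻¹ (S₁.image am) with hS₀
  have hh' : am h ≠ 0 := fun h0 => hh (ham (by rw [h0, map_zero]))
  have hA : ∀ a : A, am a ∈ Algebra.adjoin ℂ (S₀ : Set F) := by
    intro a
    have h1 : a ∈ Algebra.adjoin ℂ (S₁ : Set A) := by rw [hS₁]; exact Algebra.mem_top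
    have h2 : am a ∈ (Algebra.adjoin ℂ (S₁ : Set A)).map am := ⟨a, h1, rfl⟩
    rw [AlgHom.map_adjoin] at h2
    refine Algebra.adjoin_mono ?_ h2
    rw [hS₀, Finset.coe_insert, Finset.coe_image]
    exact Set.subset_insert _ _
  have hinv : (am h)⁻¹ ∈ Algebra.adjoin ℂ (S₀ : Set F) :=
    Algebra.subset_adjoin (by rw [hS₀, Finset.coe_insert]; exact Set.mem_insert _ _)
  set c : ι → F := fun i => am (γ i) * (am h)⁻¹ with hc
  have hcA : ∀ i, c i ∈ Algebra.adjoin ℂ (S₀ : Set F) := fun i => Subalgebra.mul_mem _ (hA _) hinv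
  obtain ⟨c₀, hc₀⟩ := infinite_fibre_field c S₀ (fun x => by
    obtain ⟨⟨a, b⟩, hab⟩ := IsLocalization.surj (nonZeroDivisors A) x
    refine ⟨am a, hA a, am b, hA b, ?_, hab⟩
    intro h0
    exact nonZeroDivisors.coe_ne_zero b (ham (by rw [h0, map_zero]))) hcA (fun halg => by
    have h1 : Algebra.trdeg ℂ F ≤ Cardinal.mk (Set.range c) :=
      Algebra.IsAlgebraic.trdeg_le_cardinalMk ℂ (Set.range c)
    have h2 : Algebra.trdeg ℂ A ≤ Algebra.trdeg ℂ F := trdeg_le_of_injective am ham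
    have h3 : Cardinal.mk (Set.range c) ≤ Cardinal.mk ι := Cardinal.mk_range_le
    rw [Cardinal.mk_fintype ι] at h3
    exact absurd (lt_of_lt_of_le hn (h2.trans (h1.trans h3))) (lt_irrefl _))
  refine ⟨c₀, ?_⟩
  let inc : A →ₐ[ℂ] Algebra.adjoin ℂ (S₀ : Set F) := am.codRestrict _ hA
  have hinc : ∀ (b : Algebra.adjoin ℂ (S₀ : Set F) →ₐ[ℂ] ℂ),
      b ⟨(am h)⁻¹, hinv⟩ * b (inc h) = 1 := by
    intro b
    rw [← map_mul]
    have h1 : (⟨(am h)⁻¹, hinv⟩ : Algebra.adjoin ℂ (S₀ : Set F)) * inc h = 1 :=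
      Subtype.ext (inv_mul_cancel₀ hh')
    rw [h1, map_one]
  refine Set.infinite_of_injOn_mapsTo (f := fun b => b.comp inc) ?_ ?_ hc₀
  · intro b₁ _ b₂ _ heq
    have heq' : ∀ a, b₁ (inc a) = b₂ (inc a) := fun a => congrArg (fun f : A →ₐ[ℂ] ℂ => f a) heq
    apply AlgHom.adjoin_ext
    intro x hx
    have hx' := hx
    rw [hS₀, Finset.coe_insert, Finset.coe_image] at hx'
    rcases hx' with rfl | ⟨a, -, rfl⟩
    · have e1 := hinc b₁
      have e2 := hinc b₂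
      rw [heq'] at e1
      have e3 : b₂ (inc h) ≠ 0 := right_ne_zero_of_mul_eq_one e2
      exact mul_right_cancel₀ e3 (e1.trans e2.symm)
    · exact heq' a
  · intro b hb
    refine ⟨?_, fun i => ?_⟩
    · exact right_ne_zero_of_mul_eq_one (hinc b)
    · have h1 := hb i
      change b (inc (γ i)) = b (inc h) * c₀ i
      rw [← h1, ← map_mul]
      congr 1
      apply Subtype.ext
      change am (γ i) = am h * (am (γ i) * (am h)⁻¹)
      rw [mul_left_comm, mul_inv_cancel₀ hh', mul_one]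

end Pool.Agent.H931.RC
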