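import Pool.Agent.H931.RC.Open
import Pool.Agent.H931.RC.Fibre
import Pool.Agent.H931.RC.Exist

/-!
# Dimension of the components of linear determinantal curves
-/

set_option autoImplicit false
set_option linter.unusedSectionVars false

open scoped WithZero Matrix
open Pool.Agent.Helper395.CS hiding genus exists_residue
open Pool.Agent.Helper395.BC
open Pool.Agent.W518.PC (lpow)

namespace Pool.Agent.H931.RC

/-- families of good pairs have dimension at most `2 t (t + 1)` -/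
theorem hasFamily_le {t g d : ℕ} (ht : 3 ≤ t) (hd : 2 * d = t * (t + 1))
    (hg : 6 * ((g : ℤ) - 1) = t * (t + 1) * (2 * t - 5)) {Z : Set (WSpace 3 g d)}
    (hZ : Z ⊆ GoodSet t g d) {n : ℕ} (h : HasFamily Z n) : n ≤ 2 * t * (t + 1) := by
  obtain ⟨A, i1, i2, i3, i4, X, hX, htr, hXZ, hfin⟩ := h
  by_contra hcon
  push Not at hcon
  obtain ⟨b₀, -⟩ := exists_point (B := A) (g := 1) one_ne_zero
  have h₀ : Good t g d (X b₀).L := (mem_GoodSet _).1 (hZ (hXZ b₀))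
  obtain ⟨h, r, hb₀, hloc⟩ := local_structure ht hd hg X hX b₀ h₀
  have hh : h ≠ 0 := by
    rintro rfl
    exact hb₀ (map_zero _)
  choose l hl using fun (i : Fin t) (j : Fin (t + 1)) (e : Fin 2) => exists_lin i j (e : ℕ)
  let γ : Fin t × Fin (t + 1) × Fin 2 → A := fun p =>
    ∑ j', ∑ q, r j' q * algebraMap ℂ A (l p.1 p.2.1 p.2.2 j' q)
  obtain ⟨c₀, hc₀⟩ := infinite_fibre hh γ (by
    rw [htr, Fintype.card_prod, Fintype.card_prod, Fintype.card_fin, Fintype.card_fin,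
      Fintype.card_fin]
    have h1 : t * ((t + 1) * 2) < n := by
      have h2 : t * ((t + 1) * 2) = 2 * t * (t + 1) := by ring
      omega
    exact_mod_cast h1)
  have hex : ∀ b : A →ₐ[ℂ] ℂ, (b h ≠ 0 ∧ ∀ i, b (γ i) = b h * c₀ i) →
      ∃ (x : Fin 4 → (X b).K) (ρ : Fin (t + 1) → Ix t t → ℂ), GData t g d (X b).K (X b).L x ∧
        (∀ j : Fin (t + 1), x 2 ^ (t - j : ℕ) * x 3 ^ (j : ℕ) = ∑ q, ρ j q • hmon t t x q) ∧
        ∀ i j (e : Fin 2), cc ρ i j e = c₀ (i, j, e) := by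
    rintro b ⟨hb, hbγ⟩
    obtain ⟨x, G, hx⟩ := hloc b hb
    obtain ⟨ρ, hρ⟩ := G.exists_rho
    refine ⟨x, ρ, G, hρ, fun i j e => ?_⟩
    have h1 := hx ρ hρ
    have h2 := hbγ (i, j, e)
    apply mul_left_cancel₀ hb
    rw [← h2, hl]
    change b h * _ = b (∑ j', ∑ q, r j' q * algebraMap ℂ A (l i j e j' q))
    rw [map_sum, Finset.mul_sum]
    refine Finset.sum_congr rfl fun j' _ => ?_
    rw [map_sum, Finset.mul_sum]
    refine Finset.sum_congr rfl fun q _ => ?_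
    rw [map_mul, b.commutes, ← h1 j' q, mul_assoc]
    rfl
  obtain ⟨b₁, hb₁⟩ := hc₀.nonempty
  obtain ⟨x₁, ρ₁, G₁, hρ₁, hcc₁⟩ := hex b₁ hb₁
  refine hc₀ ((hfin (X b₁).pt).subset fun b hb => ?_)
  obtain ⟨x, ρ, G, hρ, hcc⟩ := hex b hb
  obtain ⟨φ, c, hφ⟩ := iso_of_cc G G₁ hρ hρ₁ fun i j e => (hcc i j e).trans (hcc₁ i j e).symm
  exact Quotient.sound ⟨φ, c, hφ⟩

/-- the dimension of the components -/
theorem dimension_le {t g d : ℕ} (ht : 3 ≤ t) (hd : 2 * d = t * (t + 1))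
    (hg : 6 * ((g : ℤ) - 1) = t * (t + 1) * (2 * t - 5)) (X : Pair 3 g d)
    (hX : Good t g d X.L) :
    dimension (irreducibleComponent X.pt) ≤ ((2 * t * (t + 1) : ℕ) : ℕ∞) := by
  refine iInf_le_of_le (GoodSet t g d) (iInf_le_of_le (isOpen_GoodSet ht hd hg) (iInf_le_of_le
    ⟨X.pt, mem_irreducibleComponent, (mem_GoodSet X).2 hX⟩ ?_))
  refine iSup_le fun n => iSup_le fun hn => ?_
  exact_mod_cast hasFamily_le ht hd hg Set.inter_subset_right hn

/-- the main theorem -/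
theorem main (t : ℕ) (ht : 4 ≤ t) : ∃ g d : ℕ, 2 * d = t * (t + 1) ∧
    6 * ((g : ℤ) - 1) = t * (t + 1) * (2 * t - 5) ∧ 2 ≤ g ∧ 2 ≤ (g : ℤ) - d + (3 : ℕ) ∧
      ∃ Z ∈ irreducibleComponents (WSpace 3 g d), dimension Z ≤ ((2 * t * (t + 1) : ℕ) : ℕ∞) := by
  obtain ⟨g, d, hd, hg, h1⟩ := exists_gd t (by omega)
  obtain ⟨X, hX⟩ := exists_pair (by omega : 3 ≤ t) hd hg h1
  have h4 : (4 : ℤ) ≤ t := by exact_mod_cast ht
  have h5 : (2 * d : ℤ) = t * (t + 1) := by exact_mod_cast hd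
  refine ⟨g, d, hd, hg, ?_, ?_, irreducibleComponent X.pt,
    irreducibleComponent_mem_irreducibleComponents _, dimension_le (by omega) hd hg X hX⟩
  · have h6 : (0 : ℤ) < t * (t + 1) * (2 * t - 5) :=
      mul_pos (mul_pos (by omega) (by omega)) (by omega)
    omega
  · have h6 : (0 : ℤ) ≤ t * (t + 1) * (2 * t - 8) :=
      mul_nonneg (mul_nonneg (by omega) (by omega)) (by omega)
    have h7 : (6 : ℤ) * (g - 1 - d) = t * (t + 1) * (2 * t - 8) := by
      linear_combination hg - 3 * h5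
    push_cast
    omega

theorem not_rigidCurvesConjecture : ¬ RigidCurvesConjecture := by
  intro H
  obtain ⟨C, hC, H⟩ := H 3
  obtain ⟨N, hN⟩ := exists_nat_gt (12 / C)
  set t := N + 5 with ht
  obtain ⟨g, d, hd, hg, h2, h3, Z, hZ, hdim⟩ := main t (by omega)
  have h4 := H g d h2 h3 Z hZ
  have h5 : ENNReal.ofReal (C * g) ≤ ((2 * t * (t + 1) : ℕ) : ENNReal) := by
    refine h4.trans ?_
    have h6 : ((dimension Z : ℕ∞) : ENNReal) ≤ (((2 * t * (t + 1) : ℕ) : ℕ∞) : ENNReal) :=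
      ENat.toENNReal_mono hdim
    rwa [ENat.toENNReal_coe] at h6
  rw [← ENNReal.ofReal_natCast, ENNReal.ofReal_le_ofReal_iff (Nat.cast_nonneg _)] at h5
  have hg' : (6 : ℝ) * ((g : ℝ) - 1) = t * (t + 1) * (2 * t - 5) := by exact_mod_cast hg
  have htR : (t : ℝ) = N + 5 := by rw [ht]; push_cast; ring
  have hN0 : (0 : ℝ) ≤ N := Nat.cast_nonneg _
  have h12 : 12 < C * N := by
    rw [div_lt_iff₀ hC] at hN
    linarith
  push_cast at h5
  have h7 : (0 : ℝ) < t * (t + 1) := by rw [htR]; positivity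
  have h8 : 12 < C * (2 * t - 5) := by
    rw [htR]
    nlinarith
  have h9 : 6 * (C * g) = C * (t * (t + 1) * (2 * t - 5)) + 6 * C := by
    rw [← hg']
    ring
  nlinarith

end Pool.Agent.H931.RC
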