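import Pool.Agent.H931.RC.Poly

/-!
# The ring `k[u, v] / (maximal minors)` is free with basis `u^i v^j`, `i + j < t`
-/

set_option autoImplicit false

namespace Pool.Agent.H931.RC

open MvPolynomial

section General

variable {k₀ : Type*} [CommRing k₀] {t : ℕ}

/-- the substitution `X i ↦ X i * T` -/
noncomputable def Phi : MvPolynomial (Fin 2) k₀ →+* Polynomial (MvPolynomial (Fin 2) k₀) :=
  eval₂Hom (Polynomial.C.comp MvPolynomial.C)
    (fun i => Polynomial.C (MvPolynomial.X i) * Polynomial.X)

theorem Phi_monomial (m : Fin 2 →₀ ℕ) (c : k₀) :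
    Phi (monomial m c) = Polynomial.monomial m.degree (monomial m c) := by
  rw [Phi, coe_eval₂Hom, eval₂_monomial]
  simp only [mul_pow, Finsupp.prod_mul]
  have h1 : (m.prod fun _ (n : ℕ) => (Polynomial.X : Polynomial (MvPolynomial (Fin 2) k₀)) ^ n) =
      Polynomial.X ^ m.degree := by
    rw [Finsupp.prod, Finset.prod_pow_eq_pow_sum]
    rfl
  have h2 : (m.prod fun i (n : ℕ) => (Polynomial.C (MvPolynomial.X i) :
      Polynomial (MvPolynomial (Fin 2) k₀)) ^ n) =
      Polynomial.C (m.prod fun i n => (MvPolynomial.X i : MvPolynomial (Fin 2) k₀) ^ n) := by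
    rw [Finsupp.prod, Finsupp.prod, map_prod]
    exact Finset.prod_congr rfl fun i _ => (map_pow _ _ _).symm
  rw [h1, h2, RingHom.comp_apply, ← mul_assoc, ← Polynomial.C_mul, ← monomial_eq,
    Polynomial.C_mul_X_pow_eq_monomial]

theorem hc_monomial (n : ℕ) (m : Fin 2 →₀ ℕ) (c : k₀) :
    homogeneousComponent n (monomial m c) = if m.degree = n then monomial m c else 0 := by
  classical
  ext d
  rw [coeff_homogeneousComponent]
  split_ifs with h1 h2 h2
  · rfl
  · rw [coeff_monomial, if_neg, coeff_zero]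
    rintro rfl
    exact h2 h1
  · rw [coeff_monomial, if_neg]
    rintro rfl
    exact h1 h2
  · rfl

theorem coeff_Phi (p : MvPolynomial (Fin 2) k₀) (n : ℕ) :
    (Phi p).coeff n = homogeneousComponent n p := by
  induction p using MvPolynomial.induction_on' with
  | monomial m c =>
    rw [Phi_monomial, hc_monomial, Polynomial.coeff_monomial]
  | add p q hp hq => rw [map_add, map_add, Polynomial.coeff_add, hp, hq]

theorem td_le_iff (p : MvPolynomial (Fin 2) k₀) (n : ℕ) :
    p.totalDegree ≤ n ↔ ∀ N, n < N → homogeneousComponent N p = 0 := by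
  constructor
  · intro h N hN
    exact homogeneousComponent_eq_zero N p (lt_of_le_of_lt h hN)
  · intro h
    rw [totalDegree]
    refine Finset.sup_le fun m hm => ?_
    by_contra hcon
    push Not at hcon
    have h1 := h _ hcon
    have h2 : coeff m (homogeneousComponent (m.sum fun _ e => e) p) = 0 := by rw [h1, coeff_zero]
    rw [coeff_homogeneousComponent,
      if_pos (show Finsupp.degree m = m.sum fun _ e => e from rfl)] at h2
    exact (mem_support_iff.1 hm) h2

theorem natDegree_Phi_le {p : MvPolynomial (Fin 2) k₀} {n : ℕ} (h : p.totalDegree ≤ n) :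
    (Phi p).natDegree ≤ n := by
  rw [Polynomial.natDegree_le_iff_coeff_eq_zero]
  intro N hN
  rw [coeff_Phi]
  exact (td_le_iff p n).1 h N hN

theorem td_le_of_natDegree {p : MvPolynomial (Fin 2) k₀} {n : ℕ} (h : (Phi p).natDegree ≤ n) :
    p.totalDegree ≤ n := by
  rw [td_le_iff]
  intro N hN
  rw [← coeff_Phi]
  exact Polynomial.natDegree_le_iff_coeff_eq_zero.1 h N hN

theorem hc_mul {p q : MvPolynomial (Fin 2) k₀} {a b : ℕ} (hp : p.totalDegree ≤ a)
    (hq : q.totalDegree ≤ b) : homogeneousComponent (a + b) (p * q) =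
      homogeneousComponent a p * homogeneousComponent b q := by
  rw [← coeff_Phi, ← coeff_Phi, ← coeff_Phi, map_mul]
  exact Polynomial.coeff_mul_add_eq_of_natDegree_le (natDegree_Phi_le hp) (natDegree_Phi_le hq)

theorem hc_X_mul (i : Fin 2) (p : MvPolynomial (Fin 2) k₀) (n : ℕ) :
    homogeneousComponent (n + 1) (X i * p) = X i * homogeneousComponent n p := by
  rw [← coeff_Phi, ← coeff_Phi, map_mul]
  have h : Phi (X i : MvPolynomial (Fin 2) k₀) = Polynomial.C (X i) * Polynomial.X := by
    rw [Phi, coe_eval₂Hom, eval₂_X]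
  rw [h, mul_assoc, Polynomial.coeff_C_mul, Polynomial.coeff_X_mul]

theorem hc_zero_X_mul (i : Fin 2) (p : MvPolynomial (Fin 2) k₀) :
    homogeneousComponent 0 (X i * p) = 0 := by
  rw [← coeff_Phi, map_mul]
  have h : Phi (X i : MvPolynomial (Fin 2) k₀) = Polynomial.C (X i) * Polynomial.X := by
    rw [Phi, coe_eval₂Hom, eval₂_X]
  rw [h, mul_assoc, Polynomial.coeff_C_mul, Polynomial.coeff_X_mul_zero, mul_zero]

/-- the matrix `Ψ(u, v) - C` -/
noncomputable def NM (C : Matrix (Fin t) (Fin (t + 1)) k₀) :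
    Matrix (Fin t) (Fin (t + 1)) (MvPolynomial (Fin 2) k₀) :=
  Psi t (X 0) (X 1) - C.map MvPolynomial.C

theorem NM_map_Phi (C : Matrix (Fin t) (Fin (t + 1)) k₀) :
    (NM C).map Phi = (Polynomial.X : Polynomial (MvPolynomial (Fin 2) k₀)) •
      (Psi t (X 0) (X 1)).map Polynomial.C + (-C.map MvPolynomial.C).map Polynomial.C := by
  ext1 i j
  simp only [Matrix.map_apply, Matrix.add_apply, Matrix.smul_apply, Matrix.neg_apply, NM,
    Matrix.sub_apply, Psi, bid, smul_eq_mul, map_sub, map_neg]
  have h0 : ∀ i : Fin 2, Phi (X i : MvPolynomial (Fin 2) k₀) = Polynomial.C (X i) * Polynomial.X := by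
    intro i
    rw [Phi, coe_eval₂Hom, eval₂_X]
  have h1 : ∀ c : k₀, Phi (MvPolynomial.C c) = Polynomial.C (MvPolynomial.C c) := by
    intro c
    rw [Phi, coe_eval₂Hom, eval₂_C]
    rfl
  rw [apply_ite Phi, apply_ite Phi, apply_ite Polynomial.C, apply_ite Polynomial.C, map_zero,
    map_zero, h0, h0, h1]
  split_ifs <;> ring

theorem mnr_X_add_C {R : Type*} [CommRing R] (A B : Matrix (Fin t) (Fin (t + 1)) R)
    (j : Fin (t + 1)) :
    (mnr ((Polynomial.X : Polynomial R) • A.map Polynomial.C + B.map Polynomial.C) j).natDegree ≤ t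
      ∧ (mnr ((Polynomial.X : Polynomial R) • A.map Polynomial.C + B.map Polynomial.C) j).coeff t =
        mnr A j := by
  have h2 := Polynomial.natDegree_det_X_add_C_le (A.submatrix id j.succAbove)
    (B.submatrix id j.succAbove)
  have h3 := Polynomial.coeff_det_X_add_C_card (A.submatrix id j.succAbove)
    (B.submatrix id j.succAbove)
  rw [Fintype.card_fin] at h2 h3
  have h4 : ((-1 : Polynomial R) ^ (j : ℕ)) = Polynomial.C ((-1) ^ (j : ℕ)) := by
    rw [map_pow, map_neg, map_one]
  have h5 : mnr ((Polynomial.X : Polynomial R) • A.map Polynomial.C + B.map Polynomial.C) j =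
      Polynomial.C ((-1) ^ (j : ℕ)) * ((Polynomial.X : Polynomial R) •
        (A.submatrix id j.succAbove).map Polynomial.C +
          (B.submatrix id j.succAbove).map Polynomial.C).det := by
    rw [← h4]
    rfl
  rw [h5]
  refine ⟨(Polynomial.natDegree_C_mul_le _ _).trans h2, ?_⟩
  rw [Polynomial.coeff_C_mul, h3]
  rfl

theorem mnr_aux (C : Matrix (Fin t) (Fin (t + 1)) k₀) (j : Fin (t + 1)) :
    (Phi (mnr (NM C) j)).natDegree ≤ t ∧
      (Phi (mnr (NM C) j)).coeff t = (-1) ^ t * (X 0 ^ (t - j : ℕ) * X 1 ^ (j : ℕ)) := by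
  rw [map_mnr, NM_map_Phi, ← mnr_Psi]
  exact mnr_X_add_C _ _ _

theorem mnr_td (C : Matrix (Fin t) (Fin (t + 1)) k₀) (j : Fin (t + 1)) :
    (mnr (NM C) j).totalDegree ≤ t := td_le_of_natDegree (mnr_aux C j).1

theorem mnr_hc (C : Matrix (Fin t) (Fin (t + 1)) k₀) (j : Fin (t + 1)) :
    homogeneousComponent t (mnr (NM C) j) = (-1) ^ t * (X 0 ^ (t - j : ℕ) * X 1 ^ (j : ℕ)) := by
  rw [← coeff_Phi]
  exact (mnr_aux C j).2

variable [IsDomain k₀]

/-- the relations between the monomials of degree `t` -/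
theorem syzygy : ∀ (t : ℕ) (a : Fin (t + 1) → MvPolynomial (Fin 2) k₀),
    ∑ j : Fin (t + 1), a j * (X 0 ^ (t - j : ℕ) * X 1 ^ (j : ℕ)) = 0 →
      ∃ b : Fin t → MvPolynomial (Fin 2) k₀, ∀ j, a j = ∑ i, b i * Psi t (X 0) (X 1) i j
  | 0, a, h => by
    refine ⟨fun _ => 0, fun j => ?_⟩
    rw [Fin.sum_univ_one] at h
    have hj : j = 0 := Fin.ext (by have := j.2; omega)
    subst hj
    simpa using h
  | t + 1, a, h => by
    rw [Fin.sum_univ_succ] at h
    have h2 : ∑ j : Fin (t + 1), a j.succ * (X 0 ^ (t + 1 - (j.succ : Fin (t + 2)) : ℕ) *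
        X 1 ^ ((j.succ : Fin (t + 2)) : ℕ)) =
        X 1 * ∑ j : Fin (t + 1), a j.succ * (X 0 ^ (t - j : ℕ) * X 1 ^ (j : ℕ)) := by
      rw [Finset.mul_sum]
      refine Finset.sum_congr rfl fun j _ => ?_
      rw [Fin.val_succ, Nat.add_sub_add_right, pow_succ]
      ring
    rw [h2] at h
    have h0 : ((0 : Fin (t + 2)) : ℕ) = 0 := rfl
    rw [h0, Nat.sub_zero, pow_zero, mul_one] at h
    have h3 : (X 1 : MvPolynomial (Fin 2) k₀) ∣ a 0 * X 0 ^ (t + 1) :=
      ⟨-∑ j : Fin (t + 1), a j.succ * (X 0 ^ (t - j : ℕ) * X 1 ^ (j : ℕ)), by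
        linear_combination h⟩
    have h4 : (X 1 : MvPolynomial (Fin 2) k₀) ∣ a 0 := by
      rcases (X_prime (i := (1 : Fin 2))).dvd_or_dvd h3 with h5 | h5
      · exact h5
      · have h6 := (X_prime (i := (1 : Fin 2))).dvd_of_dvd_pow h5
        rw [X_dvd_X] at h6
        exact absurd h6 (by decide)
    obtain ⟨b₀, hb₀⟩ := h4
    have h5 : ∑ j : Fin (t + 1), a j.succ * (X 0 ^ (t - j : ℕ) * X 1 ^ (j : ℕ)) +
        b₀ * X 0 ^ (t + 1) = 0 := by
      have h6 : (X 1 : MvPolynomial (Fin 2) k₀) * (∑ j : Fin (t + 1), a j.succ *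
          (X 0 ^ (t - j : ℕ) * X 1 ^ (j : ℕ)) + b₀ * X 0 ^ (t + 1)) = 0 := by
        rw [hb₀] at h
        linear_combination h
      exact (mul_eq_zero.1 h6).resolve_left (X_ne_zero 1)
    set a' : Fin (t + 1) → MvPolynomial (Fin 2) k₀ := fun j =>
      a j.succ + if j = 0 then X 0 * b₀ else 0 with ha'
    obtain ⟨b', hb'⟩ := syzygy t a' (by
      rw [← h5]
      simp only [ha', add_mul, Finset.sum_add_distrib]
      congr 1
      rw [Finset.sum_eq_single 0]
      · rw [if_pos rfl]
        have h0' : ((0 : Fin (t + 1)) : ℕ) = 0 := rfl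
        rw [h0', Nat.sub_zero]
        ring
      · intro j _ hj
        rw [if_neg hj, zero_mul]
      · intro h7
        exact absurd (Finset.mem_univ _) h7)
    refine ⟨Fin.cons b₀ b', fun j => ?_⟩
    rw [Fin.sum_univ_succ]
    refine Fin.cases ?_ (fun j => ?_) j
    · rw [Finset.sum_eq_zero]
      · rw [Fin.cons_zero, add_zero, hb₀]
        simp [Psi, bid, mul_comm]
      · intro i _
        simp [Psi, bid]
    · have h7 := hb' j
      have h8 : ∀ i : Fin t, Psi (t + 1) (X 0 : MvPolynomial (Fin 2) k₀) (X 1) i.succ j.succ =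
          Psi t (X 0) (X 1) i j := by
        intro i
        simp only [Psi, bid, Fin.val_succ, Nat.add_right_cancel_iff]
      simp only [Fin.cons_succ, Fin.cons_zero, h8]
      rw [← h7, ha']
      simp only [Psi, bid, Fin.val_succ]
      rcases eq_or_ne j 0 with rfl | hj
      · simp
        ring
      · have hj' : (j : ℕ) ≠ 0 := fun h => hj (Fin.ext h)
        simp [hj, hj']

/-- the reduced polynomials are independent modulo the maximal minors -/
theorem indep (C : Matrix (Fin t) (Fin (t + 1)) k₀) (m : ℕ) :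
    ∀ a : Fin (t + 1) → MvPolynomial (Fin 2) k₀, (∀ j, (a j).totalDegree ≤ m) →
      (∑ j, a j * mnr (NM C) j).totalDegree < t → ∑ j, a j * mnr (NM C) j = 0 := by
  have key : ∀ (m : ℕ) (a : Fin (t + 1) → MvPolynomial (Fin 2) k₀),
      (∀ j, (a j).totalDegree ≤ m) → (∑ j, a j * mnr (NM C) j).totalDegree < t →
      ∃ b : Fin t → MvPolynomial (Fin 2) k₀, ∀ j, homogeneousComponent m (a j) =
        ∑ i, b i * Psi t (X 0) (X 1) i j := by
    intro m a ha hlt
    apply syzygy
    have h1 : homogeneousComponent (m + t) (∑ j, a j * mnr (NM C) j) = 0 :=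
      homogeneousComponent_eq_zero _ _ (by omega)
    rw [map_sum] at h1
    have h2 : ∀ j, homogeneousComponent (m + t) (a j * mnr (NM C) j) =
        (-1) ^ t * (homogeneousComponent m (a j) * (X 0 ^ (t - j : ℕ) * X 1 ^ (j : ℕ))) := by
      intro j
      rw [hc_mul (ha j) (mnr_td C j), mnr_hc]
      ring
    simp only [h2] at h1
    rw [← Finset.mul_sum] at h1
    have h3 : ((-1 : MvPolynomial (Fin 2) k₀)) ^ t * (-1) ^ t = 1 := by
      rw [← mul_pow]; simp
    calc _ = ((-1 : MvPolynomial (Fin 2) k₀)) ^ t * (-1) ^ t * ∑ j : Fin (t + 1),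
          homogeneousComponent m (a j) * (X 0 ^ (t - j : ℕ) * X 1 ^ (j : ℕ)) := by
            rw [h3, one_mul]
      _ = 0 := by rw [mul_assoc, h1, mul_zero]
  have hPsi0 : ∀ (b : Fin t → MvPolynomial (Fin 2) k₀) (j : Fin (t + 1)),
      homogeneousComponent 0 (∑ i, b i * Psi t (X 0) (X 1) i j) = 0 := by
    intro b j
    rw [map_sum]
    refine Finset.sum_eq_zero fun i _ => ?_
    simp only [Psi, bid, mul_sub, mul_ite, mul_zero, map_sub]
    have h1 : ∀ l : Fin 2, homogeneousComponent 0 (b i * X l) = 0 := fun l => by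
      rw [mul_comm, hc_zero_X_mul]
    rw [apply_ite (homogeneousComponent 0), apply_ite (homogeneousComponent 0), h1, h1, map_zero]
    simp
  have hPsi1 : ∀ (b : Fin t → MvPolynomial (Fin 2) k₀) (n : ℕ) (j : Fin (t + 1)),
      homogeneousComponent (n + 1) (∑ i, b i * Psi t (X 0) (X 1) i j) =
        ∑ i, homogeneousComponent n (b i) * Psi t (X 0) (X 1) i j := by
    intro b n j
    rw [map_sum]
    refine Finset.sum_congr rfl fun i _ => ?_
    simp only [Psi, bid, mul_sub, mul_ite, mul_zero, map_sub]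
    have h1 : ∀ l : Fin 2, homogeneousComponent (n + 1) (b i * X l) =
        homogeneousComponent n (b i) * X l := fun l => by
      rw [mul_comm, hc_X_mul, mul_comm]
    rw [apply_ite (homogeneousComponent (n + 1)), apply_ite (homogeneousComponent (n + 1)), h1, h1,
      map_zero]
  induction m with
  | zero =>
    intro a ha hlt
    obtain ⟨b, hb⟩ := key 0 a ha hlt
    refine Finset.sum_eq_zero fun j _ => ?_
    have h1 : homogeneousComponent 0 (a j) = 0 := by
      have h2 := congrArg (homogeneousComponent 0) (hb j)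
      rw [hPsi0 b j, homogeneousComponent_eq_self (homogeneousComponent_mem 0 (a j))] at h2
      exact h2
    have h3 : a j = homogeneousComponent 0 (a j) := by
      have h4 := (totalDegree_eq_zero_iff_eq_C).1 (Nat.le_zero.1 (ha j))
      rw [homogeneousComponent_zero]
      exact h4
    rw [h3, h1, zero_mul]
  | succ m ih =>
    intro a ha hlt
    obtain ⟨b, hb⟩ := key (m + 1) a ha hlt
    set b' : Fin t → MvPolynomial (Fin 2) k₀ := fun i => homogeneousComponent m (b i) with hb'
    have hb1 : ∀ j, homogeneousComponent (m + 1) (a j) = ∑ i, b' i * Psi t (X 0) (X 1) i j := by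
      intro j
      rw [← hPsi1, ← hb j, homogeneousComponent_eq_self (homogeneousComponent_mem (m + 1) (a j))]
    have htb : ∀ i, (b' i).totalDegree ≤ m := fun i =>
      (homogeneousComponent_isHomogeneous m (b i)).totalDegree_le
    set a' : Fin (t + 1) → MvPolynomial (Fin 2) k₀ := fun j => a j - ∑ i, b' i * NM C i j with ha'
    have hsum : ∑ j, a' j * mnr (NM C) j = ∑ j, a j * mnr (NM C) j := by
      simp only [ha', sub_mul, Finset.sum_sub_distrib, Finset.sum_mul]
      rw [Finset.sum_comm (f := fun j i => b' i * NM C i j * mnr (NM C) j)]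
      have h1 : ∀ i, ∑ j, b' i * NM C i j * mnr (NM C) j = 0 := by
        intro i
        simp only [mul_assoc]
        rw [← Finset.mul_sum, sum_mul_mnr, mul_zero]
      simp only [h1, Finset.sum_const_zero, sub_zero]
    rw [← hsum]
    refine ih a' (fun j => ?_) (by rw [hsum]; exact hlt)
    have hNM : ∑ i, b' i * NM C i j = ∑ i, b' i * Psi t (X 0) (X 1) i j -
        ∑ i, b' i * MvPolynomial.C (C i j) := by
      rw [← Finset.sum_sub_distrib]
      refine Finset.sum_congr rfl fun i _ => ?_
      rw [NM, Matrix.sub_apply, Matrix.map_apply, mul_sub]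
    have hlow : (∑ i, b' i * MvPolynomial.C (C i j)).totalDegree ≤ m := by
      refine (totalDegree_finsetSum _ _).trans (Finset.sup_le fun i _ => ?_)
      refine (totalDegree_mul _ _).trans ?_
      rw [totalDegree_C, add_zero]
      exact htb i
    rw [td_le_iff]
    intro N hN
    simp only [ha', hNM, map_sub]
    rw [homogeneousComponent_eq_zero N _ (lt_of_le_of_lt hlow hN), sub_zero]
    rcases Nat.lt_or_ge (m + 1) N with h1 | h1
    · obtain ⟨N', rfl⟩ : ∃ N', N = N' + 1 := ⟨N - 1, by omega⟩
      rw [hPsi1, homogeneousComponent_eq_zero (N' + 1) (a j) (lt_of_le_of_lt (ha j) h1), zero_sub,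
        Finset.sum_eq_zero, neg_zero]
      intro i _
      rw [homogeneousComponent_eq_zero N' (b' i) (by have := htb i; omega), zero_mul]
    · have h2 : N = m + 1 := by omega
      subst h2
      rw [← hb1, homogeneousComponent_eq_self (homogeneousComponent_mem (m + 1) (a j)), sub_self]

/-- uniqueness -/
theorem uniq (h : Fin (t + 1) → MvPolynomial (Fin 2) k₀) (N : Matrix (Fin t) (Fin (t + 1)) k₀)
    (hdeg : ∀ j, (h j).totalDegree < t)
    (hrel : ∀ i : Fin t, X 1 * h i.castSucc - X 0 * h i.succ = ∑ j, MvPolynomial.C (N i j) * h j) :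
    ∀ j, h j = 0 := by
  have key : ∀ n : ℕ, n < t → (∀ j, (h j).totalDegree ≤ n) →
      ∀ j, homogeneousComponent n (h j) = 0 := by
    intro n hn hle
    have h1 : ∀ i : Fin t, X 1 * homogeneousComponent n (h i.castSucc) =
        X 0 * homogeneousComponent n (h i.succ) := by
      intro i
      have h2 := congrArg (homogeneousComponent (n + 1)) (hrel i)
      rw [map_sub, hc_X_mul, hc_X_mul, map_sum, Finset.sum_eq_zero] at h2
      · exact sub_eq_zero.1 h2
      · intro j _
        rw [homogeneousComponent_C_mul, homogeneousComponent_eq_zero _ _ (by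
          have := hle j; omega), mul_zero]
    have h2 : ∀ (i : ℕ) (hi : i < t + 1), X 0 ^ i * homogeneousComponent n (h ⟨i, hi⟩) =
        X 1 ^ i * homogeneousComponent n (h 0) := by
      intro i
      induction i with
      | zero => intro hi; rw [pow_zero, pow_zero]; rfl
      | succ i ih =>
        intro hi
        have h3 := ih (by omega)
        have h4 := h1 ⟨i, by omega⟩
        have h5 : (⟨i, by omega⟩ : Fin t).castSucc = (⟨i, by omega⟩ : Fin (t + 1)) := rfl
        have h6 : (⟨i, by omega⟩ : Fin t).succ = (⟨i + 1, hi⟩ : Fin (t + 1)) := rfl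
        rw [h5, h6] at h4
        calc X 0 ^ (i + 1) * homogeneousComponent n (h ⟨i + 1, hi⟩) =
            X 0 ^ i * (X 0 * homogeneousComponent n (h ⟨i + 1, hi⟩)) := by ring
          _ = X 1 * (X 0 ^ i * homogeneousComponent n (h ⟨i, by omega⟩)) := by rw [← h4]; ring
          _ = X 1 ^ (i + 1) * homogeneousComponent n (h 0) := by rw [h3]; ring
    have h3 : homogeneousComponent n (h 0) = 0 := by
      have h4 := h2 t (by omega)
      have h5 : (X 0 : MvPolynomial (Fin 2) k₀) ^ t ∣ X 1 ^ t * homogeneousComponent n (h 0) :=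
        ⟨_, h4.symm⟩
      have h6 : ¬ (X 0 : MvPolynomial (Fin 2) k₀) ∣ X 1 ^ t := by
        intro h7
        have h8 := (X_prime (i := (0 : Fin 2))).dvd_of_dvd_pow h7
        rw [X_dvd_X] at h8
        exact absurd h8 (by decide)
      obtain ⟨q, hq⟩ := (X_prime (i := (0 : Fin 2))).pow_dvd_of_dvd_mul_left t h6 h5
      by_contra hne
      have hq0 : q ≠ 0 := by
        rintro rfl
        rw [mul_zero] at hq
        exact hne hq
      have h9 : (homogeneousComponent n (h 0)).totalDegree = t + q.totalDegree := by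
        rw [hq, totalDegree_mul_of_isDomain (pow_ne_zero _ (X_ne_zero 0)) hq0, totalDegree_X_pow]
      have h10 := (homogeneousComponent_isHomogeneous n (h 0)).totalDegree_le
      omega
    intro j
    have h4 := h2 j.1 j.2
    rw [h3, mul_zero] at h4
    exact (mul_eq_zero.1 h4).resolve_left (pow_ne_zero _ (X_ne_zero 0))
  have main : ∀ k : ℕ, k ≤ t → ∀ j N', t - k ≤ N' → homogeneousComponent N' (h j) = 0 := by
    intro k
    induction k with
    | zero =>
      intro _ j N' hN'
      exact homogeneousComponent_eq_zero _ _ (by have := hdeg j; omega)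
    | succ k ih =>
      intro hk j N' hN'
      rcases Nat.lt_or_ge (t - (k + 1)) N' with h1 | h1
      · exact ih (by omega) j N' (by omega)
      · have h2 : N' = t - (k + 1) := by omega
        rw [h2]
        refine key (t - (k + 1)) (by omega) (fun j => ?_) j
        rw [td_le_iff]
        intro M hM
        exact ih (by omega) j M (by omega)
  intro j
  rw [← sum_homogeneousComponent (h j)]
  exact Finset.sum_eq_zero fun i _ => main t le_rfl j i (by omega)

end General

end Pool.Agent.H931.RC
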