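import Pool.Agent.H931.RC.Span

/-!
# The points at infinity: the triangular grid
-/

set_option autoImplicit false

namespace Pool.Agent.H931.RC

open MvPolynomial

/-- polynomials of degree less than `t` that vanish on the triangular grid are zero -/
theorem grid_unisolvent (t : ℕ) (q : ℕ → Polynomial ℂ) (hq : ∀ i j, t ≤ i + j → (q j).coeff i = 0)
    (hv : ∀ x < t, ∀ y ≤ x, ∑ j ∈ Finset.range t, (q j).eval (x : ℂ) * (y : ℂ) ^ j = 0) :
    ∀ j, q j = 0 := by
  have hinj : ∀ s : Finset ℕ, Set.InjOn (fun x : ℕ => (x : ℂ)) s := fun s x _ y _ h =>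
    Nat.cast_injective h
  have hzero : ∀ j k, k ≤ t → t ≤ j + k → (∀ x, t - k ≤ x → x < t → (q j).eval (x : ℂ) = 0) →
      q j = 0 := by
    intro j k hk hjk hx
    refine Polynomial.eq_zero_of_degree_lt_of_eval_index_eq_zero (s := Finset.Ico (t - k) t)
      (v := fun x : ℕ => (x : ℂ)) (hinj _) ?_ ?_
    · rw [Nat.card_Ico, Polynomial.degree_lt_iff_coeff_zero]
      intro m hm
      exact hq m j (by omega)
    · intro x hx1
      rw [Finset.mem_Ico] at hx1
      exact hx x hx1.1 hx1.2
  have main : ∀ k ≤ t, ∀ x, t - k ≤ x → x < t → ∀ j, (q j).eval (x : ℂ) = 0 := by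
    intro k
    induction k with
    | zero => intro _ x h1 h2; omega
    | succ k ih =>
      intro hk x h1 h2 j
      rcases Nat.lt_or_ge x (t - k) with h3 | h3
      swap
      · exact ih (by omega) x h3 h2 j
      have hx : x = t - (k + 1) := by omega
      have hz : ∀ j, t ≤ j + k → q j = 0 := fun j hj => hzero j k (by omega) hj
        fun x hx1 hx2 => ih (by omega) x hx1 hx2 j
      set r : Polynomial ℂ := ∑ j ∈ Finset.range t, Polynomial.monomial j ((q j).eval (x : ℂ))
        with hr
      have hrc : ∀ j, r.coeff j = if j < t then (q j).eval (x : ℂ) else 0 := by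
        intro j
        rw [hr, Polynomial.finsetSum_coeff]
        simp only [Polynomial.coeff_monomial]
        rw [Finset.sum_ite_eq' (Finset.range t) j]
        simp only [Finset.mem_range]
      have hr0 : r = 0 := by
        refine Polynomial.eq_zero_of_degree_lt_of_eval_index_eq_zero
          (s := Finset.range (t - k)) (v := fun x : ℕ => (x : ℂ)) (hinj _) ?_ ?_
        · rw [Finset.card_range, Polynomial.degree_lt_iff_coeff_zero]
          intro m hm
          rw [hrc]
          split_ifs
          · rw [hz m (by omega), Polynomial.eval_zero]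
          · rfl
        · intro y hy
          rw [Finset.mem_range] at hy
          have h4 := hv x h2 y (by omega)
          rw [hr, Polynomial.eval_finsetSum]
          simp only [Polynomial.eval_monomial]
          exact h4
      rcases Nat.lt_or_ge j t with h4 | h4
      · have h5 := hrc j
        rw [hr0, Polynomial.coeff_zero, if_pos h4] at h5
        exact h5.symm
      · rw [hz j (by omega), Polynomial.eval_zero]
  intro j
  exact hzero j t le_rfl (by omega) fun x hx1 hx2 => main t le_rfl x hx1 hx2 j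

/-- the exponent vector `(i, j)` -/
noncomputable def ex (i j : ℕ) : Fin 2 →₀ ℕ := Finsupp.single 0 i + Finsupp.single 1 j

theorem ex_zero (i j : ℕ) : ex i j 0 = i := by simp [ex]

theorem ex_one (i j : ℕ) : ex i j 1 = j := by simp [ex]

theorem ex_degree (i j : ℕ) : (ex i j).degree = i + j := by rw [deg_fin2, ex_zero, ex_one]

theorem ex_eta (m : Fin 2 →₀ ℕ) : ex (m 0) (m 1) = m := by
  ext i
  fin_cases i
  · exact ex_zero _ _
  · exact ex_one _ _

theorem ex_inj {i j i' j' : ℕ} (h : ex i j = ex i' j') : i = i' ∧ j = j' := by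
  refine ⟨?_, ?_⟩
  · rw [← ex_zero i j, h, ex_zero]
  · rw [← ex_one i j, h, ex_one]

/-- the index set of the reduced monomials -/
def TT (t : ℕ) : Finset (ℕ × ℕ) := (Finset.range t ×ˢ Finset.range t).filter fun p => p.1 + p.2 < t

theorem mem_TT {t : ℕ} {p : ℕ × ℕ} : p ∈ TT t ↔ p.1 + p.2 < t := by
  rw [TT, Finset.mem_filter, Finset.mem_product, Finset.mem_range, Finset.mem_range]
  constructor
  · exact fun h => h.2
  · exact fun h => ⟨⟨by omega, by omega⟩, h⟩

/-- expansion of a reduced polynomial -/
theorem expand {t : ℕ} {P : RS} (hP : P.totalDegree < t) :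
    P = ∑ p ∈ TT t, MvPolynomial.C (coeff (ex p.1 p.2) P) * (X 0 ^ p.1 * X 1 ^ p.2) := by
  classical
  have h1 : ∀ p : ℕ × ℕ, MvPolynomial.C (coeff (ex p.1 p.2) P) * (X 0 ^ p.1 * X 1 ^ p.2 : RS) =
      monomial (ex p.1 p.2) (coeff (ex p.1 p.2) P) := by
    intro p
    rw [monomial_eq2, ex_zero, ex_one]
  simp only [h1]
  ext1 m
  rw [coeff_sum]
  simp only [coeff_monomial]
  rcases Nat.lt_or_ge m.degree t with h2 | h2
  · rw [Finset.sum_eq_single (m 0, m 1)]
    · rw [ex_eta, if_pos rfl]
    · intro p _ hp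
      rw [if_neg]
      intro h3
      apply hp
      rw [← h3, ex_zero, ex_one]
    · intro h3
      exact absurd (mem_TT.2 (by rw [deg_fin2] at h2; exact h2)) h3
  · rw [Finset.sum_eq_zero]
    · by_contra h3
      have h4 : m ∈ P.support := mem_support_iff.2 h3
      have h5 := le_totalDegree h4
      have h6 : m.degree ≤ P.totalDegree := h5
      omega
    · intro p hp
      rw [if_neg]
      rintro rfl
      rw [mem_TT] at hp
      rw [ex_degree] at h2
      omega

/-- the restriction to the line `(T, α T, β T)` -/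
noncomputable def line (α β : ℂ) : RS →+* Polynomial ℂ :=
  eval₂Hom (RingHom.id (Polynomial ℂ))
    (fun i => Polynomial.C (if i = 0 then α else β) * Polynomial.X)

theorem line_C (α β : ℂ) (p : Polynomial ℂ) : line α β (MvPolynomial.C p) = p := by
  rw [line, coe_eval₂Hom, eval₂_C, RingHom.id_apply]

theorem line_X (α β : ℂ) (i : Fin 2) :
    line α β (X i) = Polynomial.C (if i = 0 then α else β) * Polynomial.X := by
  rw [line, coe_eval₂Hom, eval₂_X]

theorem line_monomial (α β : ℂ) (m : Fin 2 →₀ ℕ) (p : Polynomial ℂ) :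
    line α β (monomial m p) = Polynomial.C (α ^ m 0 * β ^ m 1) * (p * Polynomial.X ^ m.degree) := by
  rw [monomial_eq2, map_mul, map_mul, map_pow, map_pow, line_C, line_X, line_X, if_pos rfl,
    if_neg (by decide), deg_fin2, pow_add, map_mul, map_pow, map_pow]
  ring

theorem W.natDegree_add_le {n : ℤ} {P : RS} (hP : W n P) {m : Fin 2 →₀ ℕ} (hm : coeff m P ≠ 0) :
    ((coeff m P).natDegree : ℤ) + m.degree ≤ n := by
  by_contra hcon
  have h1 := hP m (coeff m P).natDegree (by omega)
  exact hm (Polynomial.leadingCoeff_eq_zero.1 h1)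

theorem line_eq (α β : ℂ) (P : RS) : line α β P = ∑ m ∈ P.support,
    Polynomial.C (α ^ m 0 * β ^ m 1) * (coeff m P * Polynomial.X ^ m.degree) := by
  conv_lhs => rw [as_sum P]
  rw [map_sum]
  exact Finset.sum_congr rfl fun m _ => line_monomial α β m _

theorem line_natDegree {α β : ℂ} {n : ℕ} {P : RS} (hP : W n P) : (line α β P).natDegree ≤ n := by
  rw [line_eq]
  refine Polynomial.natDegree_sum_le_of_forall_le _ _ fun m hm => ?_
  refine (Polynomial.natDegree_C_mul_le _ _).trans ?_
  refine Polynomial.natDegree_mul_le.trans ?_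
  rw [Polynomial.natDegree_X_pow]
  have h1 := hP.natDegree_add_le (mem_support_iff.1 hm)
  omega

/-- the coefficient of degree `n` of the restriction to a line -/
theorem line_coeff {t : ℕ} {P : RS} (ht : P.totalDegree < t) (α β : ℂ) (n : ℕ) :
    (line α β P).coeff n = ∑ p ∈ TT t,
      (if p.1 + p.2 ≤ n then (coeff (ex p.1 p.2) P).coeff (n - (p.1 + p.2)) else 0) *
        (α ^ p.1 * β ^ p.2) := by
  conv_lhs => rw [expand ht]
  rw [map_sum, Polynomial.finsetSum_coeff]
  refine Finset.sum_congr rfl fun p _ => ?_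
  rw [map_mul, map_mul, map_pow, map_pow, line_C, line_X, line_X, if_pos rfl, if_neg (by decide)]
  have h1 : coeff (ex p.1 p.2) P * ((Polynomial.C α * Polynomial.X) ^ p.1 *
      (Polynomial.C β * Polynomial.X) ^ p.2) = Polynomial.C (α ^ p.1 * β ^ p.2) *
        (coeff (ex p.1 p.2) P * Polynomial.X ^ (p.1 + p.2)) := by
    rw [map_mul, map_pow, map_pow, pow_add]
    ring
  rw [h1, Polynomial.coeff_C_mul, Polynomial.coeff_mul_X_pow', mul_comm]

/-- if the leading forms of a reduced polynomial vanish on the grid, then its degree drops -/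
theorem W_drop {t : ℕ} {P : RS} (ht : P.totalDegree < t) {n : ℕ} (hP : W n P)
    (hv : ∀ x < t, ∀ y ≤ x, (line (x : ℂ) (y : ℂ) P).coeff n = 0) : W ((n : ℤ) - 1) P := by
  classical
  set c : ℕ → ℕ → ℂ := fun i j => if i + j ≤ n then (coeff (ex i j) P).coeff (n - (i + j)) else 0
    with hc
  have hc0 : ∀ i j, t ≤ i + j → c i j = 0 := by
    intro i j hij
    rw [hc]
    simp only
    have h1 : coeff (ex i j) P = 0 := by
      by_contra h
      have h2 := le_totalDegree (mem_support_iff.2 h)
      have h3 : (ex i j).degree ≤ P.totalDegree := h2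
      rw [ex_degree] at h3
      omega
    rw [h1, Polynomial.coeff_zero]
    split_ifs <;> rfl
  set q : ℕ → Polynomial ℂ := fun j => ∑ i ∈ Finset.range t, Polynomial.monomial i (c i j) with hq
  have hqc : ∀ i j, (q j).coeff i = c i j := by
    intro i j
    rw [hq]
    simp only
    rw [Polynomial.finsetSum_coeff]
    simp only [Polynomial.coeff_monomial]
    rw [Finset.sum_ite_eq' (Finset.range t) i]
    simp only [Finset.mem_range]
    split_ifs with h
    · rfl
    · exact (hc0 i j (by omega)).symm
  have hq0 := grid_unisolvent t q (fun i j hij => by rw [hqc]; exact hc0 i j hij) (by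
    intro x hx y hy
    have h1 := hv x hx y hy
    rw [line_coeff ht] at h1
    rw [← h1]
    have h2 : ∀ p ∈ (Finset.range t ×ˢ Finset.range t), p ∉ TT t →
        c p.1 p.2 * ((x : ℂ) ^ p.1 * (y : ℂ) ^ p.2) = 0 := by
      intro p _ hp
      rw [mem_TT] at hp
      rw [hc0 _ _ (by omega), zero_mul]
    have h3 : ∑ p ∈ TT t, c p.1 p.2 * ((x : ℂ) ^ p.1 * (y : ℂ) ^ p.2) =
        ∑ p ∈ Finset.range t ×ˢ Finset.range t, c p.1 p.2 * ((x : ℂ) ^ p.1 * (y : ℂ) ^ p.2) :=
      Finset.sum_subset (Finset.filter_subset _ _) h2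
    refine Eq.trans ?_ h3.symm
    rw [Finset.sum_product_right]
    refine Finset.sum_congr rfl fun j _ => ?_
    rw [hq]
    simp only
    rw [Polynomial.eval_finsetSum, Finset.sum_mul]
    refine Finset.sum_congr rfl fun i _ => ?_
    rw [Polynomial.eval_monomial]
    ring)
  intro m a ha
  rcases lt_or_ge (n : ℤ) ((a : ℤ) + m.degree) with h1 | h1
  · exact hP m a h1
  · have h2 : (a : ℤ) + m.degree = n := by omega
    have h3 : c (m 0) (m 1) = 0 := by rw [← hqc, hq0, Polynomial.coeff_zero]
    rw [hc] at h3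
    simp only at h3
    rw [deg_fin2] at h2
    rw [if_pos (by omega), ex_eta] at h3
    have h4 : a = n - (m 0 + m 1) := by omega
    rw [h4]
    exact h3

end Pool.Agent.H931.RC
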