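import Pool.Agent.H931.RC.Free

/-!
# Reduction modulo the maximal minors, with control of the degrees
-/

set_option autoImplicit false

namespace Pool.Agent.H931.RC

open MvPolynomial

/-- `ℂ[s][u, v]` -/
abbrev RS : Type := MvPolynomial (Fin 2) (Polynomial ℂ)

/-- total degree in `s, u, v` at most `n` -/
def W (n : ℤ) (P : RS) : Prop :=
  ∀ (m : Fin 2 →₀ ℕ) (a : ℕ), n < (a : ℤ) + m.degree → (coeff m P).coeff a = 0

theorem W.mono {n n' : ℤ} {P : RS} (h : W n P) (hn : n ≤ n') : W n' P :=
  fun m a ha => h m a (by omega)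

theorem W.zero (n : ℤ) : W n 0 := fun m a _ => by rw [coeff_zero, Polynomial.coeff_zero]

theorem W.add {n : ℤ} {P Q : RS} (hP : W n P) (hQ : W n Q) : W n (P + Q) := fun m a ha => by
  rw [coeff_add, Polynomial.coeff_add, hP m a ha, hQ m a ha, add_zero]

theorem W.neg {n : ℤ} {P : RS} (hP : W n P) : W n (-P) := fun m a ha => by
  rw [coeff_neg, Polynomial.coeff_neg, hP m a ha, neg_zero]

theorem W.sub {n : ℤ} {P Q : RS} (hP : W n P) (hQ : W n Q) : W n (P - Q) := by
  rw [sub_eq_add_neg]; exact hP.add hQ.neg

theorem W.sum {ι : Type*} {n : ℤ} (s : Finset ι) {P : ι → RS} (h : ∀ i ∈ s, W n (P i)) :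
    W n (∑ i ∈ s, P i) := by
  classical
  induction s using Finset.induction_on with
  | empty => rw [Finset.sum_empty]; exact W.zero n
  | insert a s ha ih =>
    rw [Finset.sum_insert ha]
    exact (h a (Finset.mem_insert_self a s)).add (ih fun i hi => h i (Finset.mem_insert_of_mem hi))

theorem W.mul {n n' : ℤ} {P Q : RS} (hP : W n P) (hQ : W n' Q) : W (n + n') (P * Q) := by
  classical
  intro m a ha
  rw [coeff_mul, Polynomial.finsetSum_coeff]
  refine Finset.sum_eq_zero fun x hx => ?_
  rw [Polynomial.coeff_mul]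
  refine Finset.sum_eq_zero fun y hy => ?_
  rw [Finset.HasAntidiagonal.mem_antidiagonal] at hx hy
  have h1 : x.1.degree + x.2.degree = m.degree := by rw [← hx, map_add]
  rcases lt_or_ge n ((y.1 : ℤ) + x.1.degree) with h2 | h2
  · rw [hP _ _ h2, zero_mul]
  · rw [hQ x.2 y.2 (by omega), mul_zero]

theorem W.mono_of {n : ℤ} (m : Fin 2 →₀ ℕ) (a : ℕ) (c : ℂ) (h : (a : ℤ) + m.degree ≤ n) :
    W n (monomial m (Polynomial.monomial a c)) := by
  classical
  intro m' a' ha'
  rw [coeff_monomial]
  split_ifs with h1
  · subst h1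
    rw [Polynomial.coeff_monomial, if_neg (by omega)]
  · rw [Polynomial.coeff_zero]

theorem W.one : W 0 (1 : RS) := by
  have h := W.mono_of 0 0 (1 : ℂ) (n := 0) (by simp)
  exact h

theorem W.X (i : Fin 2) : W 1 (X i : RS) := by
  have h := W.mono_of (Finsupp.single i 1) 0 (1 : ℂ) (n := 1) (by simp)
  exact h

theorem W.C {n : ℤ} {p : Polynomial ℂ} (h : (p.natDegree : ℤ) ≤ n) : W n (MvPolynomial.C p : RS) := by
  classical
  intro m a ha
  rw [coeff_C]
  split_ifs with h1
  · subst h1
    apply Polynomial.coeff_eq_zero_of_natDegree_lt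
    rw [map_zero, Nat.cast_zero, add_zero] at ha
    omega
  · rw [Polynomial.coeff_zero]

theorem exists_W (P : RS) : ∃ n : ℕ, W n P := by
  classical
  refine ⟨∑ m ∈ P.support, ((coeff m P).natDegree + m.degree), fun m a ha => ?_⟩
  by_cases hm : m ∈ P.support
  · apply Polynomial.coeff_eq_zero_of_natDegree_lt
    have h1 := Finset.single_le_sum (f := fun m => (coeff m P).natDegree + m.degree)
      (fun _ _ => Nat.zero_le _) hm
    zify at h1
    push_cast at ha
    omega
  · rw [notMem_support_iff.1 hm, Polynomial.coeff_zero]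

/-- to prove something for `P`, it suffices to prove it for the monomials of `P` -/
theorem W_induction {p : RS → Prop} (h0 : p 0) (hadd : ∀ P Q, p P → p Q → p (P + Q)) (P : RS)
    (h : ∀ m a, (coeff m P).coeff a ≠ 0 →
      p (monomial m (Polynomial.monomial a ((coeff m P).coeff a)))) : p P := by
  classical
  have hsum : ∀ {ι : Type} (s : Finset ι) (f : ι → RS), (∀ i ∈ s, p (f i)) →
      p (∑ i ∈ s, f i) := by
    intro ι s f
    induction s using Finset.induction_on with
    | empty => intro _; rw [Finset.sum_empty]; exact h0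
    | insert a s ha ih =>
      intro hf
      rw [Finset.sum_insert ha]
      exact hadd _ _ (hf a (Finset.mem_insert_self a s))
        (ih fun i hi => hf i (Finset.mem_insert_of_mem hi))
  rw [as_sum P]
  apply hsum
  intro m _
  have h1 : monomial m (coeff m P) = ∑ a ∈ (coeff m P).support,
      monomial m (Polynomial.monomial a ((coeff m P).coeff a)) := by
    rw [← map_sum]
    congr 1
    exact Polynomial.as_sum_support (coeff m P)
  rw [h1]
  apply hsum
  intro a ha
  exact h m a (Polynomial.mem_support_iff.1 ha)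

theorem deg_fin2 (m : Fin 2 →₀ ℕ) : m.degree = m 0 + m 1 := by
  rw [Finsupp.degree_eq_sum, Fin.sum_univ_two]

theorem monomial_eq2 (m : Fin 2 →₀ ℕ) (c : Polynomial ℂ) :
    (monomial m c : RS) = MvPolynomial.C c * (X 0 ^ (m 0) * X 1 ^ (m 1)) := by
  rw [monomial_eq, Finsupp.prod_fintype _ _ (fun i => pow_zero _), Fin.prod_univ_two]

/-- spanning, with control of the degrees -/
theorem spanning {t : ℕ} (ht : 1 ≤ t) (f : Fin (t + 1) → RS)
    (hf : ∀ j, (f j - X 0 ^ (t - j : ℕ) * X 1 ^ (j : ℕ)).totalDegree < t) (hW : ∀ j, W t (f j))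
    {n : ℤ} {P : RS} (hP : W n P) :
    ∃ (a : Fin (t + 1) → RS) (P' : RS), (∀ j, W (n - t) (a j)) ∧ W n P' ∧ P'.totalDegree < t ∧
      P = ∑ j, a j * f j + P' := by
  classical
  set Good : RS → Prop := fun P => ∃ (a : Fin (t + 1) → RS) (P' : RS), (∀ j, W (n - t) (a j)) ∧
    W n P' ∧ P'.totalDegree < t ∧ P = ∑ j, a j * f j + P' with hGood
  have h0 : Good 0 := ⟨fun _ => 0, 0, fun _ => W.zero _, W.zero _, by rw [totalDegree_zero]; omega,
    by simp⟩
  have hadd : ∀ P Q, Good P → Good Q → Good (P + Q) := by
    rintro P Q ⟨a, P', h1, h2, h3, h4⟩ ⟨b, Q', h5, h6, h7, h8⟩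
    refine ⟨fun j => a j + b j, P' + Q', fun j => (h1 j).add (h5 j), h2.add h6,
      lt_of_le_of_lt (totalDegree_add _ _) (max_lt h3 h7), ?_⟩
    rw [h4, h8]
    simp only [add_mul, Finset.sum_add_distrib]
    ring
  have main : ∀ (D : ℕ) (P : RS), W n P → P.totalDegree ≤ D → Good P := by
    intro D
    induction D using Nat.strong_induction_on with
    | _ D ih =>
    intro P hP hD
    apply W_induction h0 hadd
    intro m a hma
    have hmn : (a : ℤ) + m.degree ≤ n := by
      by_contra hcon
      exact hma (hP m a (by omega))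
    have hmD : m.degree ≤ D := by
      refine le_trans ?_ hD
      have hm : m ∈ P.support := by
        rw [mem_support_iff]
        intro h
        rw [h, Polynomial.coeff_zero] at hma
        exact hma rfl
      exact le_totalDegree hm
    set c := (coeff m P).coeff a with hc
    have hWm := W.mono_of m a c hmn
    have htd : (monomial m (Polynomial.monomial a c) : RS).totalDegree ≤ m.degree :=
      totalDegree_monomial_le _ _
    rcases Nat.lt_or_ge m.degree t with h1 | h1
    · exact ⟨fun _ => 0, _, fun _ => W.zero _, hWm, lt_of_le_of_lt htd h1, by simp⟩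
    · rw [deg_fin2] at h1
      obtain ⟨k, i', j', hk, hi', hj'⟩ : ∃ (k : ℕ) (i' j' : ℕ), k ≤ t ∧ m 0 = i' + (t - k) ∧
          m 1 = j' + k := by
        rcases Nat.lt_or_ge (m 1) t with h2 | h2
        · exact ⟨m 1, m 0 - (t - m 1), 0, h2.le, by omega, by omega⟩
        · exact ⟨t, m 0, m 1 - t, le_rfl, by omega, by omega⟩
      set m' : Fin 2 →₀ ℕ := Finsupp.single 0 i' + Finsupp.single 1 j' with hm'
      have hm'0 : m' 0 = i' := by simp [hm']
      have hm'1 : m' 1 = j' := by simp [hm']
      have hm'd : m'.degree + t = m.degree := by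
        rw [deg_fin2, deg_fin2, hm'0, hm'1]; omega
      set q : RS := monomial m' (Polynomial.monomial a c) with hq
      have hqW : W (n - t) q := W.mono_of m' a c (by omega)
      set kk : Fin (t + 1) := ⟨k, by omega⟩ with hkk
      set ρ : RS := f kk - X 0 ^ (t - kk : ℕ) * X 1 ^ (kk : ℕ) with hρ
      have hlead : monomial m (Polynomial.monomial a c) = q * (X 0 ^ (t - kk : ℕ) * X 1 ^ (kk : ℕ)) := by
        rw [hq, monomial_eq2, monomial_eq2, hm'0, hm'1, hi', hj', pow_add, pow_add]
        have hkk' : (kk : ℕ) = k := rfl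
        rw [hkk']
        ring
      have heq : (monomial m (Polynomial.monomial a c) : RS) = q * f kk + (-(q * ρ)) := by
        rw [hlead, hρ]
        ring
      have hleadW : W t (X 0 ^ (t - kk : ℕ) * X 1 ^ (kk : ℕ) : RS) := by
        have h2 := W.mono_of (Finsupp.single 0 (t - k) + Finsupp.single 1 k) 0 (1 : ℂ) (n := t) (by
          rw [deg_fin2]; simp; omega)
        rw [monomial_eq2] at h2
        simpa using h2
      have hρW : W t ρ := (hW kk).sub hleadW
      rw [heq]
      apply hadd
      · refine ⟨fun j => if j = kk then q else 0, 0, fun j => ?_, W.zero _, by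
          rw [totalDegree_zero]; omega, ?_⟩
        · dsimp only
          split_ifs
          · exact hqW
          · exact W.zero _
        · simp
      · have hqρ : W n (-(q * ρ)) := by
          have h2 := (hqW.mul hρW).neg
          rwa [sub_add_cancel] at h2
        have htd2 : (-(q * ρ)).totalDegree ≤ m.degree - 1 := by
          rw [totalDegree_neg]
          refine (totalDegree_mul _ _).trans ?_
          have h3 : q.totalDegree ≤ m'.degree := totalDegree_monomial_le _ _
          have h4 : ρ.totalDegree < t := hf kk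
          omega
        exact ih (m.degree - 1) (by omega) _ hqρ htd2
  exact main _ P hP le_rfl

end Pool.Agent.H931.RC
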