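import Pool.Agent.H931.RC.NF
import Pool.Agent.H931.RC.Free
import Pool.Agent.H931.RC.Span

/-!
# Good pairs are determined by `2 t (t + 1)` numbers
-/

set_option autoImplicit false
set_option linter.unusedSectionVars false

open scoped WithZero
open Pool.Agent.Helper395.CS hiding genus
open Pool.Agent.Helper395.BC
open Pool.Agent.W518.PC (lpow)
open Pool.Agent.W45.PCG (lpow_degree)

namespace Pool.Agent.H931.RC

open MvPolynomial

/-- isomorphism of fraction fields -/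
theorem exists_fracIso {R K K' : Type} [CommRing R] [Algebra ℂ R] [Field K] [Algebra ℂ K] [Field K']
    [Algebra ℂ K'] (e : R →ₐ[ℂ] K) (e' : R →ₐ[ℂ] K') (h : ∀ P, e P = 0 ↔ e' P = 0)
    (hf : ∀ z, ∃ P Q : R, e Q ≠ 0 ∧ z * e Q = e P)
    (hf' : ∀ z, ∃ P Q : R, e' Q ≠ 0 ∧ z * e' Q = e' P) :
    ∃ φ : K ≃ₐ[ℂ] K', ∀ P, φ (e P) = e' P := by
  choose p q hq hpq using hf
  choose p' q' hq' hpq' using hf'
  have key : ∀ z P Q, e Q ≠ 0 → z * e Q = e P → e' (p z) / e' (q z) = e' P / e' Q := by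
    intro z P Q hQ hz
    have h1 : e' (q z) ≠ 0 := fun h0 => hq z ((h _).2 h0)
    have h2 : e' Q ≠ 0 := fun h0 => hQ ((h _).2 h0)
    rw [div_eq_div_iff h1 h2, ← map_mul, ← map_mul, ← sub_eq_zero, ← map_sub, ← h, map_sub, map_mul,
      map_mul, ← hz, ← hpq z]
    ring
  have key' : ∀ z P Q, e' Q ≠ 0 → z * e' Q = e' P → e (p' z) / e (q' z) = e P / e Q := by
    intro z P Q hQ hz
    have h1 : e (q' z) ≠ 0 := fun h0 => hq' z ((h _).1 h0)
    have h2 : e Q ≠ 0 := fun h0 => hQ ((h _).1 h0)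
    rw [div_eq_div_iff h1 h2, ← map_mul, ← map_mul, ← sub_eq_zero, ← map_sub, h, map_sub, map_mul,
      map_mul, ← hz, ← hpq' z]
    ring
  refine ⟨{ toFun := fun z => e' (p z) / e' (q z)
            invFun := fun z => e (p' z) / e (q' z)
            left_inv := ?_
            right_inv := ?_
            map_mul' := ?_
            map_add' := ?_
            commutes' := ?_ }, ?_⟩
  · intro z
    simp only
    have h1 : e' (q z) ≠ 0 := fun h0 => hq z ((h _).2 h0)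
    rw [key' (e' (p z) / e' (q z)) (p z) (q z) h1 (div_mul_cancel₀ _ h1), ← hpq z,
      mul_div_cancel_right₀ _ (hq z)]
  · intro z
    simp only
    have h1 : e (q' z) ≠ 0 := fun h0 => hq' z ((h _).1 h0)
    rw [key (e (p' z) / e (q' z)) (p' z) (q' z) h1 (div_mul_cancel₀ _ h1), ← hpq' z,
      mul_div_cancel_right₀ _ (hq' z)]
  · intro z w
    rw [key (z * w) (p z * p w) (q z * q w) (by rw [map_mul]; exact mul_ne_zero (hq z) (hq w)) (by
      rw [map_mul, map_mul, ← hpq z, ← hpq w]; ring), map_mul, map_mul, mul_div_mul_comm]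
  · intro z w
    have h1 : e' (q z) ≠ 0 := fun h0 => hq z ((h _).2 h0)
    have h2 : e' (q w) ≠ 0 := fun h0 => hq w ((h _).2 h0)
    rw [key (z + w) (p z * q w + p w * q z) (q z * q w)
      (by rw [map_mul]; exact mul_ne_zero (hq z) (hq w)) (by
      rw [map_mul, map_add, map_mul, map_mul, ← hpq z, ← hpq w]; ring), map_mul, map_add, map_mul,
      map_mul]
    field_simp
  · intro c
    rw [key (algebraMap ℂ K c) (algebraMap ℂ R c) 1 (by rw [map_one]; exact one_ne_zero) (by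
      rw [map_one, mul_one, e.commutes]), map_one, div_one, e'.commutes]
  · intro P
    change e' (p (e P)) / e' (q (e P)) = e' P
    rw [key (e P) P 1 (by rw [map_one]; exact one_ne_zero) (by rw [map_one, mul_one]), map_one,
      div_one]

/-- the coordinates: a linear function of `ρ` -/
noncomputable def cc {t : ℕ} (ρ : Fin (t + 1) → Ix t t → ℂ) (i : Fin t) (j : Fin (t + 1)) (e : ℕ) : ℂ :=
  (coeff (ex (t - j) j) (X 0 * ixp (ρ i.succ) - X 1 * ixp (ρ i.castSucc))).coeff e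

/-- the relations -/
noncomputable def fr {t : ℕ} (ρ : Fin (t + 1) → Ix t t → ℂ) (j : Fin (t + 1)) : RS :=
  X 0 ^ (t - j : ℕ) * X 1 ^ (j : ℕ) - ixp (ρ j)

/-- the matrix -/
noncomputable def nn {t : ℕ} (ρ : Fin (t + 1) → Ix t t → ℂ) (i : Fin t) (j : Fin (t + 1)) :
    Polynomial ℂ := coeff (ex (t - j) j) (X 0 * ixp (ρ i.succ) - X 1 * ixp (ρ i.castSucc))

variable {K : Type} [Field K] [Algebra ℂ K]

theorem fr_rel {t : ℕ} (ρ : Fin (t + 1) → Ix t t → ℂ) (i : Fin t) :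
    X 1 * fr ρ i.castSucc - X 0 * fr ρ i.succ =
      X 0 * ixp (ρ i.succ) - X 1 * ixp (ρ i.castSucc) := by
  rw [fr, fr]
  have h1 : (t - (i.castSucc : Fin (t + 1)) : ℕ) = (t - (i.succ : Fin (t + 1)) : ℕ) + 1 := by
    have := i.2
    simp only [Fin.val_castSucc, Fin.val_succ]
    omega
  have h2 : ((i.succ : Fin (t + 1)) : ℕ) = ((i.castSucc : Fin (t + 1)) : ℕ) + 1 := by simp
  rw [h1, h2, pow_succ, pow_succ]
  ring

theorem fr_td {t : ℕ} (ht : 1 ≤ t) (ρ : Fin (t + 1) → Ix t t → ℂ) (j : Fin (t + 1)) :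
    (fr ρ j - X 0 ^ (t - j : ℕ) * X 1 ^ (j : ℕ)).totalDegree < t := by
  rw [fr, sub_sub_cancel_left, totalDegree_neg]
  exact ixp_td ht _

theorem W_XX {t : ℕ} (j : Fin (t + 1)) : W t (X 0 ^ (t - j : ℕ) * X 1 ^ (j : ℕ) : RS) := by
  have h4 := W.mono_of (ex (t - j) j) 0 (1 : ℂ) (n := t) (by
    rw [ex_degree]
    have := j.2
    push_cast
    omega)
  rw [monomial_eq2, ex_zero, ex_one] at h4
  simpa using h4

theorem fr_W {t : ℕ} (ρ : Fin (t + 1) → Ix t t → ℂ) (j : Fin (t + 1)) : W t (fr ρ j) :=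
  (W_XX j).sub (ixp_W _)

theorem nn_coeff {t : ℕ} (ρ : Fin (t + 1) → Ix t t → ℂ) (i : Fin t) (j : Fin (t + 1)) {e : ℕ}
    (he : 2 ≤ e) : (nn ρ i j).coeff e = 0 := by
  have h1 : W (1 + t) (X 0 * ixp (ρ i.succ) - X 1 * ixp (ρ i.castSucc) : RS) :=
    ((W.X 0).mul (ixp_W _)).sub ((W.X 1).mul (ixp_W _))
  refine h1 _ _ ?_
  rw [ex_degree]
  have := j.2
  push_cast
  omega

/-- same coordinates, same relations -/
theorem fr_congr {t : ℕ} (ht : 1 ≤ t) {ρ ρ' : Fin (t + 1) → Ix t t → ℂ}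
    (h : ∀ i j (e : Fin 2), cc ρ i j e = cc ρ' i j e)
    (hr : ∀ i, X 1 * fr ρ i.castSucc - X 0 * fr ρ i.succ = ∑ j, MvPolynomial.C (nn ρ i j) * fr ρ j)
    (hr' : ∀ i, X 1 * fr ρ' i.castSucc - X 0 * fr ρ' i.succ =
      ∑ j, MvPolynomial.C (nn ρ' i j) * fr ρ' j) : fr ρ = fr ρ' := by
  have hn : nn ρ = nn ρ' := by
    funext i j
    ext e
    rcases lt_or_ge e 2 with he | he
    · exact h i j ⟨e, he⟩
    · rw [nn_coeff ρ i j he, nn_coeff ρ' i j he]
  have h1 := uniq (fun j => fr ρ j - fr ρ' j) (nn ρ) (fun j => by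
    have h2 : fr ρ j - fr ρ' j = (fr ρ j - X 0 ^ (t - j : ℕ) * X 1 ^ (j : ℕ)) -
      (fr ρ' j - X 0 ^ (t - j : ℕ) * X 1 ^ (j : ℕ)) := by ring
    rw [h2]
    exact lt_of_le_of_lt (totalDegree_sub _ _) (max_lt (fr_td ht ρ j) (fr_td ht ρ' j))) (fun i => by
    have h2 : X 1 * (fr ρ i.castSucc - fr ρ' i.castSucc) - X 0 * (fr ρ i.succ - fr ρ' i.succ) =
      (X 1 * fr ρ i.castSucc - X 0 * fr ρ i.succ) -
        (X 1 * fr ρ' i.castSucc - X 0 * fr ρ' i.succ) := by ring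
    rw [h2, hr, hr', hn, ← Finset.sum_sub_distrib]
    exact Finset.sum_congr rfl fun j _ => by ring)
  funext j
  exact sub_eq_zero.1 (h1 j)

theorem td_lt_of_coeff {t : ℕ} (ht : 1 ≤ t) {P : RS} (h : ∀ m : Fin 2 →₀ ℕ, t ≤ m.degree →
    coeff m P = 0) : P.totalDegree < t := by
  rw [totalDegree, Finset.sup_lt_iff (Nat.pos_of_ne_zero (by omega))]
  intro m hm
  by_contra hcon
  exact (mem_support_iff.1 hm) (h m (not_lt.1 hcon))

theorem coeff_of_td {t : ℕ} {P : RS} (h : P.totalDegree < t) {m : Fin 2 →₀ ℕ} (hm : t ≤ m.degree) :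
    coeff m P = 0 := by
  by_contra h4
  have h5 := le_totalDegree (mem_support_iff.2 h4)
  have h6 : m.degree ≤ P.totalDegree := h5
  omega

theorem coeff_fr {t : ℕ} (ht : 1 ≤ t) (ρ : Fin (t + 1) → Ix t t → ℂ) (j : Fin (t + 1))
    {m : Fin 2 →₀ ℕ} (hm : t ≤ m.degree) :
    coeff m (fr ρ j) = if ex (t - j) j = m then 1 else 0 := by
  classical
  rw [fr, coeff_sub, coeff_of_td (ixp_td ht (ρ j)) hm, sub_zero]
  have h4 : (X 0 ^ (t - j : ℕ) * X 1 ^ (j : ℕ) : RS) = monomial (ex (t - j) j) 1 := by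
    rw [monomial_eq2, ex_zero, ex_one, map_one, one_mul]
  rw [h4, coeff_monomial]

theorem rel_td {t : ℕ} (ht : 1 ≤ t) (ρ : Fin (t + 1) → Ix t t → ℂ) (i : Fin t) :
    (X 1 * fr ρ i.castSucc - X 0 * fr ρ i.succ -
      ∑ j, MvPolynomial.C (nn ρ i j) * fr ρ j).totalDegree < t := by
  apply td_lt_of_coeff ht
  intro m hm
  rw [fr_rel, coeff_sub, coeff_sum]
  simp only [coeff_C_mul]
  rcases hm.lt_or_eq with h1 | h1
  · have h2 : (X 0 * ixp (ρ i.succ) - X 1 * ixp (ρ i.castSucc) : RS).totalDegree < t + 1 := by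
      have h3 : ∀ (l : Fin 2) (k : Fin (t + 1)), (X l * ixp (ρ k) : RS).totalDegree < t + 1 := by
        intro l k
        have h4 := totalDegree_mul (X l : RS) (ixp (ρ k))
        rw [totalDegree_X] at h4
        have h5 := ixp_td ht (ρ k)
        omega
      exact lt_of_le_of_lt (totalDegree_sub _ _) (max_lt (h3 _ _) (h3 _ _))
    rw [coeff_of_td h2 h1, Finset.sum_eq_zero, sub_zero]
    intro j _
    rw [coeff_fr ht ρ j hm, if_neg, mul_zero]
    intro h3
    have h4 : (ex (t - j) j).degree = m.degree := by rw [h3]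
    rw [ex_degree] at h4
    have := j.2
    omega
  · have h2 := deg_fin2 m
    set j : Fin (t + 1) := ⟨m 1, by omega⟩ with hj
    have h3 : ex (t - j) j = m := by
      have h4 : t - (j : ℕ) = m 0 := by rw [hj]; simp only; omega
      rw [h4, hj]
      exact ex_eta m
    rw [Finset.sum_eq_single j]
    · rw [coeff_fr ht ρ j hm, if_pos h3, mul_one, nn, h3, sub_self]
    · intro j' _ hj'
      rw [coeff_fr ht ρ j' hm, if_neg, mul_zero]
      intro h4
      rw [← h3] at h4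
      exact hj' (Fin.ext (ex_inj h4).2)
    · intro h4
      exact absurd (Finset.mem_univ _) h4

namespace GData

variable {t g d : ℕ} {L : LineBundle K} {x : Fin 4 → K} (G : GData t g d K L x)

include G

theorem mon_ind (n : ℕ) : LinearIndependent ℂ (mon t n (x 1 / x 0) (x 2 / x 0) (x 3 / x 0)) := by
  have h1 := G.ind_n n
  have h2 : hmon t n x = (LinearMap.mulLeft ℂ (x 0 ^ n)) ∘
      mon t n (x 1 / x 0) (x 2 / x 0) (x 3 / x 0) := by
    funext q
    exact hmon_eq G.x0_ne q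
  rw [h2] at h1
  exact h1.of_comp _

theorem ev_inj {P : RS} (h : P.totalDegree < t)
    (h0 : evm (x 1 / x 0) (x 2 / x 0) (x 3 / x 0) P = 0) : P = 0 :=
  (mon_indep_iff (by have := G.ht; omega) _ _ _).1 G.mon_ind P h h0

theorem mem_ev {n : ℕ} (hn : t ≤ n) {z : K} (hz : z ∈ H0 (lpow L n)) :
    ∃ P : RS, z = x 0 ^ n * evm (x 1 / x 0) (x 2 / x 0) (x 3 / x 0) P := by
  rw [G.span_n n hn] at hz
  obtain ⟨c, hc⟩ := (Submodule.mem_span_range_iff_exists_fun ℂ).1 hz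
  refine ⟨ixp c, ?_⟩
  rw [evm_ixp, ← hc, Finset.mul_sum]
  refine Finset.sum_congr rfl fun q _ => ?_
  rw [hmon_eq G.x0_ne, mul_smul_comm]

/-- the function field is generated by the coordinates -/
theorem frac (z : K) : ∃ P Q : RS, evm (x 1 / x 0) (x 2 / x 0) (x 3 / x 0) Q ≠ 0 ∧
    z * evm (x 1 / x 0) (x 2 / x 0) (x 3 / x 0) Q = evm (x 1 / x 0) (x 2 / x 0) (x 3 / x 0) P := by
  classical
  rcases eq_or_ne z 0 with rfl | hz
  · exact ⟨0, 1, by rw [map_one]; exact one_ne_zero, by rw [map_zero, zero_mul]⟩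
  let E : LineBundle K :=
    { frame := fun w => if w.val z ≤ 1 then 1 else Units.mk0 z hz
      finite := by
        refine (finite_ord_neg G.hK z).subset fun w hw => ?_
        change w.ord z < 0
        rw [← w.one_lt_val_iff hz]
        by_contra h
        apply hw
        rw [if_pos (not_lt.1 h), Units.val_one, map_one] }
  have hE : ∀ w : Point K, w.val (E.frame w : K) = max 1 (w.val z) := by
    intro w
    change w.val ((if w.val z ≤ 1 then (1 : Kˣ) else Units.mk0 z hz : Kˣ) : K) = _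
    split_ifs with h
    · rw [Units.val_one, map_one, max_eq_left h]
    · rw [Units.val_mk0, max_eq_right (not_le.1 h).le]
  obtain ⟨n, hn1, hn2⟩ : ∃ n : ℕ, t ≤ n ∧ 0 < (n : ℤ) * d - E.degree + 1 - g := by
    refine ⟨max t (E.degree + g).toNat, le_max_left _ _, ?_⟩
    have h1 : (E.degree + g).toNat ≤ max t (E.degree + g).toNat := le_max_right _ _
    have h2 := G.d_pos
    set m := max t (E.degree + g).toNat
    have h3 : (m : ℤ) * 1 ≤ (m : ℤ) * d := mul_le_mul_of_nonneg_left (by omega) (by omega)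
    have h4 : E.degree + g ≤ (m : ℤ) := by omega
    linarith
  have h1 := finrank_ge G.hK G.g0 (lmul (lpow L n) (linv E))
  rw [lmul_degree, linv_degree, lpow_degree, G.deg, G.hgen] at h1
  have h2 : 0 < Module.finrank ℂ (H0 (lmul (lpow L n) (linv E))) := by omega
  have := Module.nontrivial_of_finrank_pos h2
  obtain ⟨⟨B, hB⟩, hB0⟩ := exists_ne (0 : H0 (lmul (lpow L n) (linv E)))
  have hB0' : B ≠ 0 := fun h => hB0 (Subtype.ext h)
  have h3 : ∀ w : Point K, w.val B * max 1 (w.val z) ≤ w.val (L.frame w : K) ^ n := by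
    intro w
    have h4 := hB w
    rw [mem_lmul_linv] at h4
    have h5 : w.val (B * (E.frame w : K)) ≤ w.val ((lpow L n).frame w : K) := h4
    rwa [map_mul, hE, lpow_frame] at h5
  obtain ⟨Q, hQ⟩ := G.mem_ev hn1 (z := B) (by
    rw [mem_Hn]
    exact fun w => (le_mul_of_one_le_right' (le_max_left _ _)).trans (h3 w))
  obtain ⟨P, hP⟩ := G.mem_ev hn1 (z := z * B) (by
    rw [mem_Hn]
    intro w
    rw [map_mul, mul_comm]
    exact (mul_le_mul' le_rfl (le_max_right _ _)).trans (h3 w))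
  have hx0 := pow_ne_zero n G.x0_ne
  refine ⟨P, Q, ?_, ?_⟩
  · intro h0
    rw [h0, mul_zero] at hQ
    exact hB0' hQ
  · apply mul_left_cancel₀ hx0
    rw [← hP, mul_left_comm, ← hQ]

theorem exists_rho : ∃ ρ : Fin (t + 1) → Ix t t → ℂ, ∀ j : Fin (t + 1),
    x 2 ^ (t - j : ℕ) * x 3 ^ (j : ℕ) = ∑ q, ρ j q • hmon t t x q := by
  have h1 : ∀ j : Fin (t + 1), ∃ ρ : Ix t t → ℂ,
      x 2 ^ (t - j : ℕ) * x 3 ^ (j : ℕ) = ∑ q, ρ q • hmon t t x q := by
    intro j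
    have h2 : x 2 ^ (t - j : ℕ) * x 3 ^ (j : ℕ) ∈ H0 (lpow L t) := by
      have h3 := mul_mem_Hn (pow_mem_Hn (G.hx 2) (t - j : ℕ)) (pow_mem_Hn (G.hx 3) (j : ℕ))
      have h4 : (t - (j : ℕ) + (j : ℕ)) = t := by have := j.2; omega
      rwa [h4] at h3
    rw [G.span_t] at h2
    obtain ⟨c, hc⟩ := (Submodule.mem_span_range_iff_exists_fun ℂ).1 h2
    exact ⟨c, hc.symm⟩
  choose ρ hρ using h1
  exact ⟨ρ, hρ⟩

variable {ρ : Fin (t + 1) → Ix t t → ℂ}
  (hρ : ∀ j : Fin (t + 1), x 2 ^ (t - j : ℕ) * x 3 ^ (j : ℕ) = ∑ q, ρ j q • hmon t t x q)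

include hρ

theorem ev_fr (j : Fin (t + 1)) : evm (x 1 / x 0) (x 2 / x 0) (x 3 / x 0) (fr ρ j) = 0 := by
  have hx0 := G.x0_ne
  rw [fr, map_sub, map_mul, map_pow, map_pow, evm_X0, evm_X1, evm_ixp]
  apply mul_left_cancel₀ (pow_ne_zero t hx0)
  rw [mul_zero, mul_sub, Finset.mul_sum, sub_eq_zero]
  have h1 : x 0 ^ t = x 0 ^ (t - j : ℕ) * x 0 ^ (j : ℕ) := by
    rw [← pow_add]
    congr 1
    have := j.2
    omega
  have h2 : x 0 ^ t * ((x 2 / x 0) ^ (t - j : ℕ) * (x 3 / x 0) ^ (j : ℕ)) =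
      x 2 ^ (t - j : ℕ) * x 3 ^ (j : ℕ) := by
    rw [h1, div_pow, div_pow]
    field_simp
  rw [h2, hρ]
  refine Finset.sum_congr rfl fun q _ => ?_
  rw [hmon_eq hx0, mul_smul_comm]

theorem ker_iff (P : RS) : evm (x 1 / x 0) (x 2 / x 0) (x 3 / x 0) P = 0 ↔
    P ∈ Ideal.span (Set.range (fr ρ)) := by
  have ht : 1 ≤ t := by have := G.ht; omega
  constructor
  · intro h
    obtain ⟨n, hn⟩ := exists_W P
    obtain ⟨a, P', -, -, h3, h4⟩ := spanning ht (fr ρ) (fr_td ht ρ) (fr_W ρ) hn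
    have hsum : ∑ j, a j * fr ρ j ∈ Ideal.span (Set.range (fr ρ)) :=
      Ideal.sum_mem _ fun j _ => Ideal.mul_mem_left _ _ (Ideal.subset_span ⟨j, rfl⟩)
    have h5 : P' = 0 := by
      apply G.ev_inj h3
      rw [h4, map_add, map_sum, Finset.sum_eq_zero, zero_add] at h
      · exact h
      · intro j _
        rw [map_mul, G.ev_fr hρ, mul_zero]
    rw [h4, h5, add_zero]
    exact hsum
  · intro h
    have h1 : Ideal.span (Set.range (fr ρ)) ≤
        RingHom.ker (evm (x 1 / x 0) (x 2 / x 0) (x 3 / x 0)) := by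
      rw [Ideal.span_le]
      rintro _ ⟨j, rfl⟩
      exact G.ev_fr hρ j
    exact h1 h

theorem rel (i : Fin t) :
    X 1 * fr ρ i.castSucc - X 0 * fr ρ i.succ = ∑ j, MvPolynomial.C (nn ρ i j) * fr ρ j := by
  have ht : 1 ≤ t := by have := G.ht; omega
  rw [← sub_eq_zero]
  apply G.ev_inj
  · exact rel_td ht ρ i
  · rw [map_sub, map_sub, map_mul, map_mul, G.ev_fr hρ, G.ev_fr hρ, map_sum, Finset.sum_eq_zero,
      mul_zero, mul_zero, sub_zero, sub_zero]
    intro j _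
    rw [map_mul, G.ev_fr hρ, mul_zero]

end GData

theorem frame_le_iff {t g d : ℕ} {L : LineBundle K} {x : Fin 4 → K} (G : GData t g d K L x)
    (w : Point K) (z : K) :
    z ∈ L.stalk w ↔ w.val z ≤ w.val (x 0) * max 1 (w.val (x 1 / x 0)) := by
  change w.val z ≤ w.val (L.frame w : K) ↔ _
  have h0 : 0 < w.val (x 0) := zero_lt_iff.2 (w.val_ne_zero G.x0_ne)
  rw [G.frame_eq, map_div₀]
  have h1 : w.val (x 0) * max 1 (w.val (x 1) / w.val (x 0)) = max (w.val (x 0)) (w.val (x 1)) := by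
    rcases le_total (w.val (x 0)) (w.val (x 1)) with h | h
    · rw [max_eq_right ((one_le_div₀ h0).2 h), max_eq_right h, mul_div_cancel₀ _ h0.ne']
    · rw [max_eq_left ((div_le_one₀ h0).2 h), max_eq_left h, mul_one]
  rw [h1]

/-- good pairs with the same coordinates are isomorphic -/
theorem iso_of_cc {K' : Type} [Field K'] [Algebra ℂ K'] {t g d : ℕ} {L : LineBundle K} {x : Fin 4 → K}
    (G : GData t g d K L x) {L' : LineBundle K'} {x' : Fin 4 → K'} (G' : GData t g d K' L' x')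
    {ρ ρ' : Fin (t + 1) → Ix t t → ℂ}
    (hρ : ∀ j : Fin (t + 1), x 2 ^ (t - j : ℕ) * x 3 ^ (j : ℕ) = ∑ q, ρ j q • hmon t t x q)
    (hρ' : ∀ j : Fin (t + 1), x' 2 ^ (t - j : ℕ) * x' 3 ^ (j : ℕ) = ∑ q, ρ' j q • hmon t t x' q)
    (h : ∀ i j (e : Fin 2), cc ρ i j e = cc ρ' i j e) :
    ∃ (φ : K ≃ₐ[ℂ] K') (c : K'ˣ), ∀ (v : Point K') (s : K),
      s ∈ L.stalk (ptMap φ v) ↔ (c : K') * φ s ∈ L'.stalk v := by
  have ht : 1 ≤ t := by have := G.ht; omega
  have hfr : fr ρ = fr ρ' := fr_congr ht h (G.rel hρ) (G'.rel hρ')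
  obtain ⟨φ, hφ⟩ := exists_fracIso (evm (x 1 / x 0) (x 2 / x 0) (x 3 / x 0))
    (evm (x' 1 / x' 0) (x' 2 / x' 0) (x' 3 / x' 0)) (fun P => by
      rw [G.ker_iff hρ, G'.ker_iff hρ', hfr]) G.frac G'.frac
  have h1 : φ (x 1 / x 0) = x' 1 / x' 0 := by
    have h2 := hφ (MvPolynomial.C Polynomial.X)
    rwa [evm_C, evm_C, Polynomial.aeval_X, Polynomial.aeval_X] at h2
  have hx0 := G.x0_ne
  have hx0' := G'.x0_ne
  have hφ0 : φ (x 0) ≠ 0 := fun h => hx0 (by simpa using h)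
  refine ⟨φ, Units.mk0 (x' 0 / φ (x 0)) (div_ne_zero hx0' hφ0), fun v s => ?_⟩
  rw [frame_le_iff G, frame_le_iff G', ptMap_val, ptMap_val, ptMap_val, h1, Units.val_mk0, map_mul]
  generalize max 1 (v.val (x' 1 / x' 0)) = M
  rw [map_div₀]
  have h2 : 0 < v.val (x' 0) := zero_lt_iff.2 (v.val_ne_zero hx0')
  have h3 : 0 < v.val (φ (x 0)) := zero_lt_iff.2 (v.val_ne_zero hφ0)
  rw [div_mul_eq_mul_div, div_le_iff₀ h3, mul_assoc, mul_le_mul_iff_right₀ h2, mul_comm]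

end Pool.Agent.H931.RC
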