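import Pool.Agent.H931.RC.Fam2

/-!
# Local structure of families of good pairs
-/

set_option autoImplicit false
set_option linter.unusedSectionVars false

open scoped WithZero Matrix
open Pool.Agent.Helper395.CS hiding genus
open Pool.Agent.Helper395.BC
open Pool.Agent.W518.PC (lpow)
open Pool.Agent.W45.PCG (lpow_degree)

namespace Pool.Agent.H931.RC

variable {A : Type} [CommRing A] [Algebra ℂ A]

section

variable {r g : ℕ} {d : ℤ} {X : (A →ₐ[ℂ] ℂ) → Pair r g d} {f : A} {m p : ℕ} (D : Loc X f m p)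

theorem Loc.Rg.list {ι : Type} {y : ι → ∀ b, (X b).K} (hy : ∀ i, D.Rg (y i) 1 1) :
    ∀ l : List ι, l ≠ [] → l.length ≤ m →
      D.Rg (fun b => (l.map fun i => y i b).prod) l.length l.length
  | [], h, _ => absurd rfl h
  | [i], _, _ => by
    have h1 := hy i
    have h2 : (fun b => (List.map (fun i => y i b) [i]).prod) = y i := by
      funext b
      simp
    rw [h2]
    exact h1
  | i :: j :: l, _, hm => by
    have h1 := Loc.Rg.list hy (j :: l) (by simp) (by simp only [List.length_cons] at hm ⊢; omega)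
    have h2 := Loc.Rg.mul D (hy i) h1 le_rfl (by simp)
      (by simp only [List.length_cons] at hm ⊢; omega) (by simp only [List.length_cons] at hm ⊢; omega)
    have h3 : (fun b => (List.map (fun i => y i b) (i :: j :: l)).prod) =
        fun b => y i b * (List.map (fun i => y i b) (j :: l)).prod := by
      funext b
      rw [List.map_cons, List.prod_cons]
    have h4 : (i :: j :: l).length = 1 + (j :: l).length := by
      simp only [List.length_cons]; omega
    rw [h3, h4]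
    exact h2

theorem Loc.Rg.hmon {t : ℕ} {y : Fin 4 → ∀ b, (X b).K} (hy : ∀ i, D.Rg (y i) 1 1) (ht : 1 ≤ t)
    (htm : t ≤ m) (q : Ix t t) : D.Rg (fun b => hmon t t (fun i => y i b) q) t t := by
  obtain ⟨k, i, b⟩ := q
  have hk := k.2
  have hi := i.2
  have hb := b.2
  set l : List (Fin 4) := List.replicate (t - (k : ℕ) - (b : ℕ)) 0 ++ (List.replicate (b : ℕ) 1 ++
    (List.replicate (i : ℕ) 2 ++ List.replicate ((k : ℕ) - (i : ℕ)) 3)) with hl
  have h1 : l.length = t := by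
    rw [hl]
    simp only [List.length_append, List.length_replicate]
    omega
  have h2 := Loc.Rg.list D hy l (by
    intro h
    rw [h, List.length_nil] at h1
    omega) (by rw [h1]; exact htm)
  rw [h1] at h2
  have h3 : (fun b' => RC.hmon t t (fun i => y i b') (⟨k, (i, b)⟩ : Ix t t)) =
      fun b' => (l.map fun i => y i b').prod := by
    funext b'
    rw [hl]
    simp only [List.map_append, List.prod_append, List.map_replicate, List.prod_replicate,
      RC.hmon]
  rw [h3]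
  exact h2

theorem Loc.Rg.mon23 {t : ℕ} {y : Fin 4 → ∀ b, (X b).K} (hy : ∀ i, D.Rg (y i) 1 1) (ht : 1 ≤ t)
    (htm : t ≤ m) (j : Fin (t + 1)) :
    D.Rg (fun b => y 2 b ^ (t - j : ℕ) * y 3 b ^ (j : ℕ)) t t := by
  have hj := j.2
  set l : List (Fin 4) := List.replicate (t - j : ℕ) 2 ++ List.replicate (j : ℕ) 3 with hl
  have h1 : l.length = t := by
    rw [hl]
    simp only [List.length_append, List.length_replicate]
    omega
  have h2 := Loc.Rg.list D hy l (by
    intro h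
    rw [h, List.length_nil] at h1
    omega) (by rw [h1]; exact htm)
  rw [h1] at h2
  have h3 : (fun b => y 2 b ^ (t - j : ℕ) * y 3 b ^ (j : ℕ)) =
      fun b' => (l.map fun i => y i b').prod := by
    funext b'
    rw [hl]
    simp only [List.map_append, List.prod_append, List.map_replicate, List.prod_replicate]
  rw [h3]
  exact h2

end

/-- local structure of families at good points -/
theorem local_structure {t g d : ℕ} (ht : 3 ≤ t) (hd : 2 * d = t * (t + 1))
    (hg : 6 * ((g : ℤ) - 1) = t * (t + 1) * (2 * t - 5)) (X : (A →ₐ[ℂ] ℂ) → Pair 3 g d)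
    (hX : IsAlgebraicFamily X) (b₀ : A →ₐ[ℂ] ℂ) (h₀ : Good t g d (X b₀).L) :
    ∃ (h : A) (r : Fin (t + 1) → Ix t t → A), b₀ h ≠ 0 ∧ ∀ b : A →ₐ[ℂ] ℂ, b h ≠ 0 →
      ∃ x : Fin 4 → (X b).K, GData t g d (X b).K (X b).L x ∧
        ∀ ρ : Fin (t + 1) → Ix t t → ℂ,
          (∀ j : Fin (t + 1), x 2 ^ (t - j : ℕ) * x 3 ^ (j : ℕ) = ∑ q, ρ j q • hmon t t x q) →
            ∀ j q, b h * ρ j q = b (r j q) := by
  have hg0 : g ≠ 0 := by
    rintro rfl
    have h5 : (3 : ℤ) ≤ t := by exact_mod_cast ht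
    have h8 : (0 : ℤ) < t * (t + 1) * (2 * t - 5) :=
      mul_pos (mul_pos (by omega) (by omega)) (by omega)
    push_cast at hg
    omega
  obtain ⟨f, p, hf, ⟨D⟩⟩ := exists_loc hX b₀ t
  obtain ⟨h1, hh1, hs1⟩ := D.semicont hg0 (by omega) (j := 1) (by omega) hf
  obtain ⟨h2, hh2, hs2⟩ := D.semicont hg0 (by omega) (j := t - 2) (by omega) hf
  let D' : Loc X (f * h1 * h2) t p := (D.restrict h1).restrict h2
  have hf' : ∀ b : A →ₐ[ℂ] ℂ, b (f * h1 * h2) ≠ 0 → b f ≠ 0 ∧ b h1 ≠ 0 ∧ b h2 ≠ 0 := by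
    intro b hb
    rw [map_mul, map_mul] at hb
    exact ⟨left_ne_zero_of_mul (left_ne_zero_of_mul hb),
      right_ne_zero_of_mul (left_ne_zero_of_mul hb), right_ne_zero_of_mul hb⟩
  have hb₀ : b₀ (f * h1 * h2) ≠ 0 := by
    rw [map_mul, map_mul]
    exact mul_ne_zero (mul_ne_zero hf hh1) hh2
  have hc4 : ∀ b : A →ₐ[ℂ] ℂ, b (f * h1 * h2) ≠ 0 → Module.finrank ℂ (H0 (X b).L) = 4 := by
    intro b hb
    obtain ⟨e1, e2, e3⟩ := hf' b hb
    have e4 := hs1 b e1 e2
    rw [Nat.cast_one, H0_lpow_one, H0_lpow_one, h₀.h4] at e4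
    exact le_antisymm e4 (X b).le_sections
  have hc1 : ∀ b : A →ₐ[ℂ] ℂ, b (f * h1 * h2) ≠ 0 →
      (Module.finrank ℂ (H0 (lpow (X b).L ((t - 2 : ℕ) : ℤ))) : ℤ) = (t - 2 : ℕ) * d + 1 - g := by
    intro b hb
    obtain ⟨e1, e2, e3⟩ := hf' b hb
    have e4 := hs2 b e1 e3
    have e5 := h₀.h1
    have e6 := finrank_ge (X b).isCurve (by rw [(X b).genus_eq]; exact hg0)
      (lpow (X b).L ((t - 2 : ℕ) : ℤ))
    rw [lpow_degree, (X b).degree_eq, (X b).genus_eq] at e6
    omega
  obtain ⟨x₀, hx₀, hind⟩ := h₀.ind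
  obtain ⟨h3, x, hh3, hxb₀, hRg, hmem⟩ := D'.extend hg0 (by omega) hb₀
    (fun b hb => (hc4 b hb).trans (hc4 b₀ hb₀).symm) x₀ hx₀
  let D'' : Loc X (f * h1 * h2 * h3) t p := D'.restrict h3
  have hf'' : ∀ b : A →ₐ[ℂ] ℂ, b (f * h1 * h2 * h3) ≠ 0 → b (f * h1 * h2) ≠ 0 := by
    intro b hb
    rw [map_mul] at hb
    exact left_ne_zero_of_mul hb
  have hb₀' : b₀ (f * h1 * h2 * h3) ≠ 0 := by
    rw [map_mul]
    exact mul_ne_zero hb₀ hh3
  set c : ∀ b, (X b).K := fun b => D'.e b 1 0 ⟨0, D'.n0_pos⟩ with hc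
  have hc0 : ∀ b : A →ₐ[ℂ] ℂ, b (f * h1 * h2 * h3) ≠ 0 → c b ≠ 0 := by
    intro b hb
    exact (D'.ind b (hf'' b hb) 1 0 le_rfl (by omega) (Nat.zero_le t)).ne_zero _
  set y : Fin 4 → ∀ b, (X b).K := fun i b => c b * x b i with hy
  have hyRg : ∀ i, D''.Rg (y i) 1 1 := by
    intro i
    have e1 : y i = fun b => x b i * D'.e b 1 0 ⟨0, D'.n0_pos⟩ := by
      funext b
      exact mul_comm _ _
    rw [e1]
    exact hRg i
  have hV : ∀ q : Ix t t, ∃ Y : Fin (dimPL g d p t t) → A, ∀ b, b (f * h1 * h2 * h3) ≠ 0 →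
      hmon t t (fun i => y i b) q = ∑ l, b (Y l) • D''.e b t t l := fun q =>
    Loc.Rg.hmon D'' hyRg (by omega) le_rfl q
  choose V hV using hV
  have hU : ∀ j : Fin (t + 1), ∃ Y : Fin (dimPL g d p t t) → A, ∀ b, b (f * h1 * h2 * h3) ≠ 0 →
      y 2 b ^ (t - j : ℕ) * y 3 b ^ (j : ℕ) = ∑ l, b (Y l) • D''.e b t t l := fun j =>
    Loc.Rg.mon23 D'' hyRg (by omega) le_rfl j
  choose U hU using hU
  have hcomb : ∀ (b : A →ₐ[ℂ] ℂ), b (f * h1 * h2 * h3) ≠ 0 → ∀ s : Ix t t → ℂ,
      c b ^ t * ∑ q, s q • hmon t t (x b) q = ∑ l, (∑ q, s q * b (V q l)) • D''.e b t t l := by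
    intro b hb s
    rw [Finset.mul_sum]
    simp only [Finset.sum_smul]
    rw [Finset.sum_comm]
    refine Finset.sum_congr rfl fun q _ => ?_
    rw [mul_smul_comm, ← hmon_smul]
    have e1 := hV q b hb
    rw [hy] at e1
    rw [e1, Finset.smul_sum]
    exact Finset.sum_congr rfl fun l _ => smul_smul _ _ _
  have hVind : LinearIndependent ℂ (fun q l => b₀ (V q l)) := by
    rw [Fintype.linearIndependent_iff]
    intro s hs
    have e1 := hcomb b₀ hb₀' s
    rw [hxb₀, Finset.sum_eq_zero (s := Finset.univ) (f := fun l => (∑ q, s q * b₀ (V q l)) •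
      D''.e b₀ t t l) (fun l _ => by
        have e2 := congrFun hs l
        simp only [Finset.sum_apply, Pi.smul_apply, smul_eq_mul, Pi.zero_apply] at e2
        rw [e2, zero_smul])] at e1
    have e3 := (mul_eq_zero.1 e1).resolve_left (pow_ne_zero _ (hc0 b₀ hb₀'))
    exact Fintype.linearIndependent_iff.1 hind s e3
  obtain ⟨h4, C, hh4, hC⟩ := cramer_param V b₀ hVind
  refine ⟨f * h1 * h2 * h3 * h4, fun j q => f * h1 * h2 * h3 * C (U j) q, ?_, ?_⟩
  · rw [map_mul]
    exact mul_ne_zero hb₀' hh4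
  · intro b hb
    have hbf : b (f * h1 * h2 * h3) ≠ 0 := by rw [map_mul] at hb; exact left_ne_zero_of_mul hb
    have hbh : b h4 ≠ 0 := by rw [map_mul] at hb; exact right_ne_zero_of_mul hb
    obtain ⟨hC1, hC2⟩ := hC b hbh
    have hebi := D''.ind b hbf t t (by omega) le_rfl le_rfl
    have hxind : LinearIndependent ℂ (hmon t t (x b)) := by
      rw [Fintype.linearIndependent_iff]
      intro s hs
      have e1 := hcomb b hbf s
      rw [hs, mul_zero] at e1
      have e2 := Fintype.linearIndependent_iff.1 hebi _ e1.symm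
      refine Fintype.linearIndependent_iff.1 hC1 s ?_
      funext l
      have e3 := e2 l
      simpa using e3
    refine ⟨x b, ⟨(X b).isCurve, (X b).genus_eq, ht, hd, hg, (X b).degree_eq,
      hc4 b (hf'' b hbf), hc1 b (hf'' b hbf), hmem b hbf, hxind⟩, ?_⟩
    intro ρ hρ j q
    have e1 : ∀ l, b (U j l) = ∑ q, ρ j q * b (V q l) := by
      have e2 := hcomb b hbf (ρ j)
      rw [← hρ j] at e2
      have e3 : c b ^ t * (x b 2 ^ (t - j : ℕ) * x b 3 ^ (j : ℕ)) =
          y 2 b ^ (t - j : ℕ) * y 3 b ^ (j : ℕ) := by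
        have e4 : c b ^ t = c b ^ (t - j : ℕ) * c b ^ (j : ℕ) := by
          rw [← pow_add]
          congr 1
          have := j.2
          omega
        simp only [hy]
        rw [e4, mul_pow, mul_pow]
        ring
      rw [e3, hU j b hbf, ← sub_eq_zero, ← Finset.sum_sub_distrib] at e2
      simp only [← sub_smul] at e2
      intro l
      exact sub_eq_zero.1 (Fintype.linearIndependent_iff.1 hebi _ e2 l)
    have e2 := hC2 (U j) (ρ j) e1 q
    change b (f * h1 * h2 * h3 * h4) * ρ j q = b (f * h1 * h2 * h3 * C (U j) q)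
    rw [map_mul b (f * h1 * h2 * h3) h4, map_mul b (f * h1 * h2 * h3), mul_assoc, e2]

end Pool.Agent.H931.RC
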