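import Pool.Agent.H931.RC.Base

/-!
# The normal form of the sections
-/

set_option autoImplicit false
set_option linter.unusedSectionVars false

open scoped WithZero
open Pool.Agent.Helper395.CS hiding genus
open Pool.Agent.Helper395.BC
open Pool.Agent.W518.PC (lpow)
open Pool.Agent.W45.PCG (lpow_degree)

namespace Pool.Agent.H931.RC

variable {K : Type} [Field K] [Algebra ℂ K]

/-- multiplication by `x 0` on the indices -/
def up {t n : ℕ} (q : Ix t n) : Ix t (n + 1) :=
  ⟨q.1, q.2.1, ⟨q.2.2, by have := q.2.2.2; omega⟩⟩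

/-- multiplication by `x 1` on the indices -/
def up1 {t n : ℕ} (q : Ix t n) : Ix t (n + 1) :=
  ⟨q.1, q.2.1, ⟨q.2.2 + 1, by have := q.2.2.2; omega⟩⟩

theorem up_injective {t n : ℕ} : Function.Injective (up : Ix t n → Ix t (n + 1)) := by
  rintro ⟨k, i, b⟩ ⟨k', i', b'⟩ h
  simp only [up, Sigma.mk.injEq] at h
  obtain ⟨h1, h2⟩ := h
  subst h1
  simp only [heq_eq_eq, Prod.mk.injEq, Fin.mk.injEq] at h2
  obtain ⟨h3, h4⟩ := h2
  subst h3
  have h5 : b = b' := Fin.ext h4
  rw [h5]

theorem hmon_up {t n : ℕ} (x : Fin 4 → K) (q : Ix t n) :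
    hmon t (n + 1) x (up q) = x 0 * hmon t n x q := by
  obtain ⟨k, i, b⟩ := q
  have hb := b.2
  simp only [hmon, up]
  have h1 : n + 1 - (k : ℕ) - (b : ℕ) = (n - (k : ℕ) - (b : ℕ)) + 1 := by omega
  rw [h1, pow_succ]
  ring

theorem hmon_up1 {t n : ℕ} (x : Fin 4 → K) (q : Ix t n) :
    hmon t (n + 1) x (up1 q) = x 1 * hmon t n x q := by
  obtain ⟨k, i, b⟩ := q
  have hb := b.2
  simp only [hmon, up1]
  have h1 : n + 1 - (k : ℕ) - ((b : ℕ) + 1) = n - (k : ℕ) - (b : ℕ) := by omega
  rw [h1, pow_succ]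
  ring

theorem hmon_indep_of_succ {t n : ℕ} {x : Fin 4 → K}
    (h : LinearIndependent ℂ (hmon t (n + 1) x)) : LinearIndependent ℂ (hmon t n x) := by
  have h1 := h.comp up up_injective
  have h2 : hmon t (n + 1) x ∘ up = (LinearMap.mulLeft ℂ (x 0)) ∘ hmon t n x := by
    funext q
    exact hmon_up x q
  rw [h2] at h1
  exact h1.of_comp _

namespace GData

variable {t g d : ℕ} {L : LineBundle K} {x : Fin 4 → K} (G : GData t g d K L x)

include G

theorem span_t : H0 (lpow L t) = Submodule.span ℂ (Set.range (hmon t t x)) := by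
  have := G.fin (lpow L t)
  symm
  apply Submodule.eq_of_le_of_finrank_eq
  · rw [Submodule.span_le]
    rintro _ ⟨q, rfl⟩
    exact hmon_mem G.hx t t q
  · rw [finrank_span_eq_card G.ind, G.finrank_Hn' t (by omega)]

theorem frame_or (w : Point K) :
    w.val (x 0) = w.val (L.frame w : K) ∨ w.val (x 1) = w.val (L.frame w : K) := by
  by_contra hcon
  push Not at hcon
  have hF := frame_pos L w
  have h0 : w.val (x 0) < w.val (L.frame w : K) := lt_of_le_of_ne (G.hx 0 w) hcon.1
  have h1 : w.val (x 1) < w.val (L.frame w : K) := lt_of_le_of_ne (G.hx 1 w) hcon.2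
  have ht := G.ht
  obtain ⟨y, hy, hy'⟩ := G.exists_gen (t - 1) (by omega) w
  have h2 : t - 1 + 1 = t := by omega
  rw [h2] at hy hy'
  rw [G.span_t] at hy
  have h3 : ∀ z ∈ Submodule.span ℂ (Set.range (hmon t t x)),
      w.val z < w.val (L.frame w : K) ^ t := by
    intro z hz
    induction hz using Submodule.span_induction with
    | mem z hz =>
      obtain ⟨⟨k, i, b⟩, rfl⟩ := hz
      simp only [hmon, map_mul, map_pow]
      have hk := k.2
      have hi := i.2
      have hb := b.2
      have e2 : w.val (x 2) ^ (i : ℕ) ≤ w.val (L.frame w : K) ^ (i : ℕ) :=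
        pow_le_pow_left' (G.hx 2 w) _
      have e3 : w.val (x 3) ^ ((k : ℕ) - (i : ℕ)) ≤ w.val (L.frame w : K) ^ ((k : ℕ) - (i : ℕ)) :=
        pow_le_pow_left' (G.hx 3 w) _
      have e1 : w.val (x 1) ^ (b : ℕ) ≤ w.val (L.frame w : K) ^ (b : ℕ) := pow_le_pow_left' h1.le _
      have e0 : w.val (x 0) ^ (t - (k : ℕ) - (b : ℕ)) ≤
          w.val (L.frame w : K) ^ (t - (k : ℕ) - (b : ℕ)) := pow_le_pow_left' h0.le _
      have e01 : w.val (x 0) ^ (t - (k : ℕ) - (b : ℕ)) * w.val (x 1) ^ (b : ℕ) <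
          w.val (L.frame w : K) ^ (t - (k : ℕ) - (b : ℕ)) * w.val (L.frame w : K) ^ (b : ℕ) := by
        rcases Nat.eq_zero_or_pos (b : ℕ) with h4 | h4
        · rw [h4, pow_zero, pow_zero, mul_one, mul_one]
          exact pow_lt_pow_left₀ h0 zero_le (by omega)
        · refine lt_of_le_of_lt (mul_le_mul' e0 le_rfl) ?_
          exact mul_lt_mul_of_pos_left (pow_lt_pow_left₀ h1 zero_le (by omega)) (pow_pos hF _)
      have e5 : w.val (L.frame w : K) ^ t = w.val (L.frame w : K) ^ (t - (k : ℕ) - (b : ℕ)) *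
          w.val (L.frame w : K) ^ (b : ℕ) * (w.val (L.frame w : K) ^ (i : ℕ) *
            w.val (L.frame w : K) ^ ((k : ℕ) - (i : ℕ))) := by
        rw [← pow_add, ← pow_add, ← pow_add]
        congr 1
        omega
      rw [e5, ← mul_assoc]
      refine lt_of_le_of_lt (mul_le_mul' le_rfl (mul_le_mul' e2 e3)) ?_
      exact mul_lt_mul_of_pos_right e01 (mul_pos (pow_pos hF _) (pow_pos hF _))
    | zero => rw [map_zero]; exact pow_pos hF t
    | add a b _ _ ha hb => exact Valuation.map_add_lt _ ha hb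
    | smul c a _ ha =>
      refine lt_of_le_of_lt ?_ ha
      rw [Algebra.smul_def, map_mul]
      exact mul_le_of_le_one_left' (w.const_le c)
  exact (h3 y hy).ne hy'

theorem frame_eq (w : Point K) :
    w.val (L.frame w : K) = max (w.val (x 0)) (w.val (x 1)) := by
  have h0 : w.val (x 0) ≤ w.val (L.frame w : K) := G.hx 0 w
  have h1 : w.val (x 1) ≤ w.val (L.frame w : K) := G.hx 1 w
  rcases G.frame_or w with h | h
  · rw [h, max_eq_left h1]
  · rw [h, max_eq_right h0]

/-- the Koszul relations -/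
theorem koszul {n : ℕ} {a b : K} (ha : a ∈ H0 (lpow L (n + 1 : ℕ))) (hb : b ∈ H0 (lpow L (n + 1 : ℕ)))
    (h : x 0 * a + x 1 * b = 0) : ∃ c ∈ H0 (lpow L n), a = x 1 * c ∧ b = -(x 0 * c) := by
  have hx0 := G.x0_ne
  have hx1 := G.x1_ne
  rw [mem_Hn] at ha hb
  refine ⟨a / x 1, ?_, ?_, ?_⟩
  · rw [mem_Hn]
    intro w
    have hF := frame_pos L w
    rcases G.frame_or w with h0 | h1
    · have h2 : a / x 1 = -b / x 0 := by
        field_simp
        linear_combination h
      rw [h2, map_div₀, Valuation.map_neg, h0, div_le_iff₀ hF, ← pow_succ]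
      exact hb w
    · rw [map_div₀, h1, div_le_iff₀ hF, ← pow_succ]
      exact ha w
  · field_simp
  · field_simp
    linear_combination h

/-- `H⁰(L^(n+2)) = x₀ H⁰(L^(n+1)) + x₁ H⁰(L^(n+1))` -/
theorem decomp {n : ℕ} (hn : t - 2 ≤ n) {z : K} (hz : z ∈ H0 (lpow L (n + 1 + 1 : ℕ))) :
    ∃ a ∈ H0 (lpow L (n + 1 : ℕ)), ∃ b ∈ H0 (lpow L (n + 1 : ℕ)), z = x 0 * a + x 1 * b := by
  have f0 := G.fin (lpow L n)
  have f1 := G.fin (lpow L (n + 1 : ℕ))
  have f2 := G.fin (lpow L (n + 1 + 1 : ℕ))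
  have hmul : ∀ (m : ℕ) (i : Fin 4) (a : K), a ∈ H0 (lpow L m) → x i * a ∈ H0 (lpow L (m + 1 : ℕ)) := by
    intro m i a ha
    rw [mem_Hn] at ha ⊢
    intro w
    rw [map_mul, pow_succ']
    exact mul_le_mul' (G.hx i w) (ha w)
  have hneg : ∀ (m : ℕ) (i : Fin 4) (a : K), a ∈ H0 (lpow L m) →
      -(x i * a) ∈ H0 (lpow L (m + 1 : ℕ)) := by
    intro m i a ha
    have h1 := hmul m i a ha
    rw [mem_Hn] at h1 ⊢
    intro w
    rw [Valuation.map_neg]
    exact h1 w
  let φ : (H0 (lpow L (n + 1 : ℕ)) × H0 (lpow L (n + 1 : ℕ))) →ₗ[ℂ] H0 (lpow L (n + 1 + 1 : ℕ)) :=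
    { toFun := fun p => ⟨x 0 * p.1 + x 1 * p.2,
        (H0 _).add_mem (hmul _ 0 _ p.1.2) (hmul _ 1 _ p.2.2)⟩
      map_add' := by
        intro p q
        apply Subtype.ext
        simp only [Prod.fst_add, Prod.snd_add, Submodule.coe_add]
        ring
      map_smul' := by
        intro c p
        apply Subtype.ext
        simp only [Prod.smul_fst, Prod.smul_snd, Submodule.coe_smul, RingHom.id_apply]
        rw [mul_smul_comm, mul_smul_comm, smul_add] }
  let ψ : H0 (lpow L n) →ₗ[ℂ] (H0 (lpow L (n + 1 : ℕ)) × H0 (lpow L (n + 1 : ℕ))) :=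
    { toFun := fun c => (⟨x 1 * c, hmul _ 1 _ c.2⟩, ⟨-(x 0 * c), hneg _ 0 _ c.2⟩)
      map_add' := by
        intro p q
        apply Prod.ext <;> apply Subtype.ext
        · simp only [Prod.fst_add, Submodule.coe_add]
          ring
        · simp only [Prod.snd_add, Submodule.coe_add]
          ring
      map_smul' := by
        intro c p
        apply Prod.ext <;> apply Subtype.ext
        · simp only [Prod.smul_fst, Submodule.coe_smul, RingHom.id_apply]
          rw [mul_smul_comm]
        · simp only [Prod.smul_snd, Submodule.coe_smul, RingHom.id_apply]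
          rw [mul_smul_comm, smul_neg] }
  have h1 : LinearMap.ker φ ≤ LinearMap.range ψ := by
    intro p hp
    rw [LinearMap.mem_ker] at hp
    have h2 : x 0 * p.1 + x 1 * p.2 = 0 := congrArg Subtype.val hp
    obtain ⟨c, hc, h3, h4⟩ := G.koszul p.1.2 p.2.2 h2
    exact ⟨⟨c, hc⟩, Prod.ext (Subtype.ext h3.symm) (Subtype.ext h4.symm)⟩
  have h2 : Module.finrank ℂ (LinearMap.ker φ) ≤ Module.finrank ℂ (H0 (lpow L n)) :=
    (Submodule.finrank_mono h1).trans (LinearMap.finrank_range_le ψ)
  have h3 := φ.finrank_range_add_finrank_ker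
  rw [Module.finrank_prod] at h3
  have h4 := G.finrank_Hn n hn
  have h5 := G.finrank_Hn (n + 1) (by omega)
  have h6 := G.finrank_Hn (n + 1 + 1) (by omega)
  have h7 : Module.finrank ℂ (LinearMap.range φ) = Module.finrank ℂ (H0 (lpow L (n + 1 + 1 : ℕ))) := by
    refine le_antisymm (Submodule.finrank_le _) ?_
    push_cast at h4 h5 h6
    zify
    push_cast
    have h3' : (Module.finrank ℂ (LinearMap.range φ) : ℤ) + Module.finrank ℂ (LinearMap.ker φ) =
      Module.finrank ℂ (H0 (lpow L (n + 1 : ℕ))) + Module.finrank ℂ (H0 (lpow L (n + 1 : ℕ))) := by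
      exact_mod_cast h3
    push_cast at h3'
    have h2' : (Module.finrank ℂ (LinearMap.ker φ) : ℤ) ≤ Module.finrank ℂ (H0 (lpow L n)) := by
      exact_mod_cast h2
    linarith
  have h8 : LinearMap.range φ = ⊤ := Submodule.eq_top_of_finrank_eq h7
  obtain ⟨p, hp⟩ := (LinearMap.range_eq_top.1 h8) ⟨z, hz⟩
  exact ⟨p.1, p.1.2, p.2, p.2.2, (congrArg Subtype.val hp).symm⟩

theorem span_n (n : ℕ) (hn : t ≤ n) :
    H0 (lpow L n) = Submodule.span ℂ (Set.range (hmon t n x)) := by
  induction n, hn using Nat.le_induction with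
  | base => exact G.span_t
  | succ n hn ih =>
    refine le_antisymm ?_ ?_
    · intro z hz
      have ht := G.ht
      obtain ⟨m, rfl⟩ : ∃ m, n = m + 1 := ⟨n - 1, by omega⟩
      obtain ⟨a, ha, b, hb, rfl⟩ := G.decomp (by omega) hz
      rw [ih] at ha hb
      refine Submodule.add_mem _ ?_ ?_
      · clear hz hb
        induction ha using Submodule.span_induction with
        | mem z hz =>
          obtain ⟨q, rfl⟩ := hz
          rw [← hmon_up]
          exact Submodule.subset_span ⟨_, rfl⟩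
        | zero => rw [mul_zero]; exact Submodule.zero_mem _
        | add a b _ _ ha hb => rw [mul_add]; exact Submodule.add_mem _ ha hb
        | smul c a _ ha => rw [mul_smul_comm]; exact Submodule.smul_mem _ _ ha
      · clear hz ha
        induction hb using Submodule.span_induction with
        | mem z hz =>
          obtain ⟨q, rfl⟩ := hz
          rw [← hmon_up1]
          exact Submodule.subset_span ⟨_, rfl⟩
        | zero => rw [mul_zero]; exact Submodule.zero_mem _
        | add a b _ _ ha hb => rw [mul_add]; exact Submodule.add_mem _ ha hb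
        | smul c a _ ha => rw [mul_smul_comm]; exact Submodule.smul_mem _ _ ha
    · rw [Submodule.span_le]
      rintro _ ⟨q, rfl⟩
      exact hmon_mem G.hx t _ q

theorem ind_n (n : ℕ) : LinearIndependent ℂ (hmon t n x) := by
  have h1 : ∀ m, t ≤ m → LinearIndependent ℂ (hmon t m x) := by
    intro m hm
    rw [linearIndependent_iff_card_eq_finrank_span, Set.finrank, ← G.span_n m hm,
      G.finrank_Hn' m (by omega)]
  have h2 : ∀ j, LinearIndependent ℂ (hmon t (n + j) x) → LinearIndependent ℂ (hmon t n x) := by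
    intro j
    induction j with
    | zero => exact id
    | succ j ih => exact fun h => ih (hmon_indep_of_succ h)
  exact h2 t (h1 _ (by omega))

end GData

end Pool.Agent.H931.RC
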