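import Pool.Agent.H931.RC.Local
import Pool.Agent.H931.RC.Iso

/-!
# The set of good pairs is open
-/

set_option autoImplicit false
set_option linter.unusedSectionVars false

open scoped WithZero Matrix
open Pool.Agent.Helper395.CS hiding genus
open Pool.Agent.Helper395.BC
open Pool.Agent.W518.PC (lpow)
open Pool.Agent.W45.PCG (lpow_degree)

namespace Pool.Agent.H931.RC

section

variable {K K' : Type} [Field K] [Algebra ℂ K] [Field K'] [Algebra ℂ K'] {L : LineBundle K}
  {L' : LineBundle K'} {φ : K ≃ₐ[ℂ] K'} {c : K'ˣ}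

theorem frame_iso (h : ∀ (v : Point K') (s : K), s ∈ L.stalk (ptMap φ v) ↔ (c : K') * φ s ∈ L'.stalk v)
    (v : Point K') :
    v.val (c : K') * (ptMap φ v).val (L.frame (ptMap φ v) : K) = v.val (L'.frame v : K') := by
  rw [ptMap_val, ← map_mul]
  apply le_antisymm
  · exact (h v (L.frame (ptMap φ v) : K)).1 (le_refl ((ptMap φ v).val (L.frame (ptMap φ v) : K)))
  · have h1 := (h v (φ.symm ((c : K')⁻¹ * (L'.frame v : K')))).2 (by
      rw [φ.apply_symm_apply, ← mul_assoc, mul_inv_cancel₀ c.ne_zero, one_mul]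
      exact le_refl (v.val (L'.frame v : K')))
    have h2 : v.val (φ (φ.symm ((c : K')⁻¹ * (L'.frame v : K')))) ≤
      v.val (φ (L.frame (ptMap φ v) : K)) := h1
    rw [φ.apply_symm_apply, map_mul, map_inv₀] at h2
    rw [map_mul]
    have h3 : 0 < v.val (c : K') := zero_lt_iff.2 (v.val_ne_zero c.ne_zero)
    rw [inv_mul_le_iff₀ h3] at h2
    exact h2

theorem mem_pow_iso
    (h : ∀ (v : Point K') (s : K), s ∈ L.stalk (ptMap φ v) ↔ (c : K') * φ s ∈ L'.stalk v)
    (n : ℕ) (s : K) : s ∈ H0 (lpow L n) ↔ (c : K') ^ n * φ s ∈ H0 (lpow L' n) := by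
  rw [mem_Hn, mem_Hn]
  constructor
  · intro hs v
    have h1 := hs (ptMap φ v)
    rw [← frame_iso h, map_mul, map_pow, mul_pow]
    exact mul_le_mul' le_rfl h1
  · intro hs w
    have hw : ptMap φ (ptMap φ.symm w) = w := by
      apply Point.ext
      ext x
      rw [ptMap_val, ptMap_val, φ.symm_apply_apply]
    have h1 := hs (ptMap φ.symm w)
    rw [← frame_iso h, map_mul, map_pow, mul_pow, hw] at h1
    have h3 : 0 < (ptMap φ.symm w).val (c : K') ^ n :=
      pow_pos (zero_lt_iff.2 ((ptMap φ.symm w).val_ne_zero c.ne_zero)) n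
    rw [mul_le_mul_iff_right₀ h3] at h1
    have h2 : (ptMap φ.symm w).val (φ s) = w.val s := by rw [ptMap_val, φ.symm_apply_apply]
    rwa [h2] at h1

theorem finrank_iso
    (h : ∀ (v : Point K') (s : K), s ∈ L.stalk (ptMap φ v) ↔ (c : K') * φ s ∈ L'.stalk v)
    (n : ℕ) : Module.finrank ℂ (H0 (lpow L n)) = Module.finrank ℂ (H0 (lpow L' n)) := by
  have hc : (c : K') ^ n ≠ 0 := pow_ne_zero _ c.ne_zero
  let Φ : K →ₗ[ℂ] K' := (LinearMap.mulLeft ℂ ((c : K') ^ n)).comp (φ : K →ₐ[ℂ] K').toLinearMap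
  have hΦ : Function.Injective Φ := by
    intro a b hab
    exact φ.injective (mul_left_cancel₀ hc hab)
  have h1 : (H0 (lpow L n)).map Φ = H0 (lpow L' n) := by
    ext z
    constructor
    · rintro ⟨s, hs, rfl⟩
      exact (mem_pow_iso h n s).1 hs
    · intro hz
      have h2 : Φ (φ.symm (((c : K') ^ n)⁻¹ * z)) = z := by
        change (c : K') ^ n * φ (φ.symm (((c : K') ^ n)⁻¹ * z)) = z
        rw [φ.apply_symm_apply, ← mul_assoc, mul_inv_cancel₀ hc, one_mul]
      refine ⟨φ.symm (((c : K') ^ n)⁻¹ * z), ?_, h2⟩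
      refine (mem_pow_iso h n _).2 ?_
      change Φ (φ.symm (((c : K') ^ n)⁻¹ * z)) ∈ _
      rw [h2]
      exact hz
  rw [← h1]
  exact (Submodule.equivMapOfInjective Φ hΦ _).finrank_eq

theorem Good.of_iso {t g : ℕ} {d : ℤ} (hG : Good t g d L)
    (h : ∀ (v : Point K') (s : K), s ∈ L.stalk (ptMap φ v) ↔ (c : K') * φ s ∈ L'.stalk v) :
    Good t g d L' where
  h4 := by
    have h1 := finrank_iso h 1
    rw [Nat.cast_one, H0_lpow_one, H0_lpow_one, hG.h4] at h1
    exact h1.symm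
  h1 := by rw [← finrank_iso h (t - 2)]; exact hG.h1
  ind := by
    obtain ⟨x, hx, hind⟩ := hG.ind
    refine ⟨fun i => (c : K') * φ (x i), fun i => ?_, ?_⟩
    · have h1 := (mem_pow_iso h 1 (x i)).1 (by
        rw [Nat.cast_one, H0_lpow_one]
        exact hx i)
      rwa [Nat.cast_one, H0_lpow_one, pow_one] at h1
    · have h1 : hmon t t (fun i => (c : K') * φ (x i)) =
          ((LinearMap.mulLeft ℂ ((c : K') ^ t)).comp (φ : K →ₐ[ℂ] K').toLinearMap) ∘ hmon t t x := by
        funext q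
        rw [hmon_smul]
        change _ = (c : K') ^ t * φ (hmon t t x q)
        simp only [hmon, map_mul, map_pow]
      rw [h1]
      refine hind.map' _ ?_
      rw [LinearMap.ker_eq_bot]
      intro a b hab
      exact φ.injective (mul_left_cancel₀ (pow_ne_zero _ c.ne_zero) hab)

end

/-- the set of good pairs -/
def GoodSet (t g d : ℕ) : Set (WSpace 3 g d) := {z | ∃ X : Pair 3 g d, X.pt = z ∧ Good t g d X.L}

theorem mem_GoodSet {t g d : ℕ} (X : Pair 3 g d) : X.pt ∈ GoodSet t g d ↔ Good t g d X.L := by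
  constructor
  · rintro ⟨Y, hY, hG⟩
    have h1 : Y.Iso X := Quotient.exact hY
    obtain ⟨φ, c, h⟩ := h1
    exact hG.of_iso h
  · intro h
    exact ⟨X, rfl, h⟩

theorem GData.good {t g d : ℕ} {K : Type} [Field K] [Algebra ℂ K] {L : LineBundle K} {x : Fin 4 → K}
    (G : GData t g d K L x) : Good t g d L := ⟨G.h4, G.h1, x, G.hx, G.ind⟩

theorem isOpen_GoodSet {t g d : ℕ} (ht : 3 ≤ t) (hd : 2 * d = t * (t + 1))
    (hg : 6 * ((g : ℤ) - 1) = t * (t + 1) * (2 * t - 5)) : IsOpen (GoodSet t g d) := by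
  intro A _ _ _ X hX b₀ hb₀
  have h₀ : Good t g d (X b₀).L := (mem_GoodSet _).1 hb₀
  obtain ⟨h, r, h1, h2⟩ := local_structure ht hd hg X hX b₀ h₀
  refine ⟨h, h1, fun b hb => ?_⟩
  obtain ⟨x, hG, -⟩ := h2 b hb
  exact (mem_GoodSet _).2 hG.good

open MvPolynomial in
theorem coeff_X_ixp {t n : ℕ} (k : Fin 2) (c : Ix t n → ℂ) (m : Fin 2 →₀ ℕ) (e : ℕ) :
    (coeff m (X k * ixp c)).coeff e = ∑ q : Ix t n, c q *
      (coeff m (X k * monomial (ixe q) (Polynomial.monomial (q.2.2 : ℕ) (1 : ℂ)))).coeff e := by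
  rw [ixp, Finset.mul_sum, coeff_sum, Polynomial.finsetSum_coeff]
  refine Finset.sum_congr rfl fun q _ => ?_
  have h1 : (monomial (ixe q) (Polynomial.monomial (q.2.2 : ℕ) (c q)) : RS) =
      MvPolynomial.C (Polynomial.C (c q)) *
        monomial (ixe q) (Polynomial.monomial (q.2.2 : ℕ) (1 : ℂ)) := by
    rw [C_mul_monomial, Polynomial.C_mul_monomial, mul_one]
  rw [h1, mul_left_comm, coeff_C_mul, Polynomial.coeff_C_mul]

open MvPolynomial in
/-- the coordinates are linear in `ρ` -/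
theorem exists_lin {t : ℕ} (i : Fin t) (j : Fin (t + 1)) (e : ℕ) :
    ∃ l : Fin (t + 1) → Ix t t → ℂ, ∀ ρ : Fin (t + 1) → Ix t t → ℂ,
      cc ρ i j e = ∑ j', ∑ q, ρ j' q * l j' q := by
  refine ⟨fun j' q => (if j' = i.succ then (coeff (ex (t - j) j) (X 0 * monomial (ixe q)
    (Polynomial.monomial (q.2.2 : ℕ) (1 : ℂ)))).coeff e else 0) -
      (if j' = i.castSucc then (coeff (ex (t - j) j) (X 1 * monomial (ixe q)
    (Polynomial.monomial (q.2.2 : ℕ) (1 : ℂ)))).coeff e else 0), fun ρ => ?_⟩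
  rw [cc, coeff_sub, Polynomial.coeff_sub, coeff_X_ixp, coeff_X_ixp]
  simp only [mul_sub, Finset.sum_sub_distrib]
  congr 1
  · rw [Finset.sum_eq_single i.succ]
    · exact Finset.sum_congr rfl fun q _ => by rw [if_pos rfl]
    · intro j' _ hj'
      exact Finset.sum_eq_zero fun q _ => by rw [if_neg hj', mul_zero]
    · intro h; exact absurd (Finset.mem_univ _) h
  · rw [Finset.sum_eq_single i.castSucc]
    · exact Finset.sum_congr rfl fun q _ => by rw [if_pos rfl]
    · intro j' _ hj'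
      exact Finset.sum_eq_zero fun q _ => by rw [if_neg hj', mul_zero]
    · intro h; exact absurd (Finset.mem_univ _) h

end Pool.Agent.H931.RC
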