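import Mathlib

/-!
# Minors of a bidiagonal matrix plus a constant matrix
-/

set_option autoImplicit false

namespace Pool.Agent.H931.RC

open Matrix

section Minors

variable {R : Type*} [CommRing R] {t : ℕ}

/-- signed maximal minors -/
noncomputable def mnr (M : Matrix (Fin t) (Fin (t + 1)) R) (j : Fin (t + 1)) : R :=
  (-1) ^ (j : ℕ) * (M.submatrix id j.succAbove).det

theorem sum_mul_mnr (M : Matrix (Fin t) (Fin (t + 1)) R) (i : Fin t) :
    ∑ j, M i j * mnr M j = 0 := by
  have h1 : (Matrix.of (Fin.cons (M i) (fun k => M k) : Fin (t + 1) → Fin (t + 1) → R)).det = 0 := by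
    exact Matrix.det_zero_of_row_eq (i := 0) (j := i.succ) (Fin.succ_ne_zero i).symm rfl
  rw [Matrix.det_succ_row_zero] at h1
  rw [← h1]
  refine Finset.sum_congr rfl fun j _ => ?_
  unfold mnr
  have h2 : (Matrix.of (Fin.cons (M i) (fun k => M k) : Fin (t + 1) → Fin (t + 1) → R)).submatrix
      Fin.succ j.succAbove = M.submatrix id j.succAbove := by
    ext a b
    simp
  rw [h2]
  simp only [Matrix.of_apply, Fin.cons_zero]
  ring

theorem map_mnr {S : Type*} [CommRing S] (φ : R →+* S) (M : Matrix (Fin t) (Fin (t + 1)) R)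
    (j : Fin (t + 1)) : φ (mnr M j) = mnr (M.map φ) j := by
  unfold mnr
  rw [map_mul, map_pow, map_neg, map_one, RingHom.map_det]
  rfl

/-- bidiagonal matrix -/
def bid (p q : Fin t → R) : Matrix (Fin t) (Fin (t + 1)) R := fun i c =>
  (if (c : ℕ) = i then p i else 0) - (if (c : ℕ) = i + 1 then q i else 0)

theorem succAbove_val (j : Fin (t + 1)) (b : Fin t) :
    ((j.succAbove b : Fin (t + 1)) : ℕ) = if (b : ℕ) < j then (b : ℕ) else b + 1 := by
  unfold Fin.succAbove
  by_cases h : b.castSucc < j
  · have h' : (b : ℕ) < j := h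
    rw [if_pos h, if_pos h']
    rfl
  · have h' : ¬ (b : ℕ) < j := h
    rw [if_neg h, if_neg h']
    rfl

theorem det_bid (p q : Fin t → R) (j : Fin (t + 1)) :
    ((bid p q).submatrix id j.succAbove).det = ∏ a : Fin t, if (a : ℕ) < j then p a else -q a := by
  have hent : ∀ a b : Fin t, (bid p q).submatrix id j.succAbove a b =
      if (b : ℕ) < j then ((if (b : ℕ) = a then p a else 0) - (if (b : ℕ) = a + 1 then q a else 0))
      else ((if (b : ℕ) + 1 = a then p a else 0) - (if (b : ℕ) = a then q a else 0)) := by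
    intro a b
    rw [Matrix.submatrix_apply, bid, succAbove_val]
    split_ifs <;> first | rfl | (exfalso; simp only [id] at *; omega)
  rw [Matrix.twoBlockTriangular_det _ (fun a : Fin t => (a : ℕ) < j)]
  · rw [Matrix.det_of_isUpperTriangular, Matrix.det_of_isLowerTriangular]
    · rw [← Fintype.prod_subtype_mul_prod_subtype (fun a : Fin t => (a : ℕ) < j)]
      congr 1
      · refine Finset.prod_congr rfl fun a _ => ?_
        rw [Matrix.toSquareBlockProp_def, Matrix.of_apply, hent, if_pos a.2, if_pos a.2, if_pos rfl,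
          if_neg (by omega), sub_zero]
      · refine Finset.prod_congr rfl fun a _ => ?_
        rw [Matrix.toSquareBlockProp_def, Matrix.of_apply, hent, if_neg a.2, if_neg a.2,
          if_neg (by omega), if_pos rfl, zero_sub]
    · intro a b hab
      have hab' : (a.1 : ℕ) < b.1 := hab
      rw [Matrix.toSquareBlockProp_def, Matrix.of_apply, hent, if_neg b.2, if_neg (by omega),
        if_neg (by omega), sub_zero]
    · intro a b hab
      have hab' : (b.1 : ℕ) < a.1 := hab
      rw [Matrix.toSquareBlockProp_def, Matrix.of_apply, hent, if_pos b.2, if_neg (by omega),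
        if_neg (by omega), sub_zero]
  · intro a ha b hb
    rw [hent, if_pos hb, if_neg (by omega), if_neg (by omega), sub_zero]

/-- the bidiagonal matrix with constant diagonals -/
def Psi (t : ℕ) (u v : R) : Matrix (Fin t) (Fin (t + 1)) R := bid (fun _ => v) (fun _ => u)

theorem mnr_Psi (u v : R) (j : Fin (t + 1)) :
    mnr (Psi t u v) j = (-1) ^ t * (u ^ (t - j : ℕ) * v ^ (j : ℕ)) := by
  unfold mnr Psi
  rw [det_bid, Finset.prod_ite, Finset.prod_const, Finset.prod_const]
  have h1 : (Finset.univ.filter fun a : Fin t => (a : ℕ) < j).card = j := by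
    have hj : (j : ℕ) ≤ t := by omega
    rw [Fin.card_filter_val_lt]
    exact min_eq_right hj
  have h2 : (Finset.univ.filter fun a : Fin t => ¬ (a : ℕ) < j).card = t - j := by
    have h3 := Finset.card_filter_add_card_filter_not (s := (Finset.univ : Finset (Fin t)))
      (fun a : Fin t => (a : ℕ) < j)
    rw [h1, Finset.card_univ, Fintype.card_fin] at h3
    omega
  rw [h1, h2, neg_pow]
  have h3 : ((-1 : R)) ^ t = (-1) ^ (j : ℕ) * (-1) ^ (t - j : ℕ) := by
    rw [← pow_add]
    congr 1
    omega
  rw [h3]
  ring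

end Minors

end Pool.Agent.H931.RC
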