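import Pool.Agent.H931.RC.Poly
import Pool.Agent.H931.RC.Deriv

/-!
# Regularity of a generic determinantal curve
-/

set_option autoImplicit false

namespace Pool.Agent.H931.RC

open Matrix

variable {t : ℕ}

/-- add a zero row -/
def pad {R : Type*} [Zero R] (M : Matrix (Fin t) (Fin (t + 1)) R) :
    Matrix (Fin (t + 1)) (Fin (t + 1)) R :=
  fun i j => if h : (i : ℕ) < t then M ⟨i, h⟩ j else 0

theorem pad_last {R : Type*} [Zero R] (M : Matrix (Fin t) (Fin (t + 1)) R) (j : Fin (t + 1)) :
    pad M (Fin.last t) j = 0 := by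
  rw [pad, dif_neg (by simp)]

theorem pad_castSucc {R : Type*} [Zero R] (M : Matrix (Fin t) (Fin (t + 1)) R) (i : Fin t)
    (j : Fin (t + 1)) : pad M i.castSucc j = M i j := by
  rw [pad, dif_pos (show (i.castSucc : ℕ) < t from i.2)]
  rfl

theorem adj_pad {R : Type*} [CommRing R] (M : Matrix (Fin t) (Fin (t + 1)) R)
    (h : ∀ j, mnr M j = 0) : (pad M).adjugate = 0 := by
  ext i j
  rw [Matrix.adjugate_apply, Matrix.zero_apply]
  refine Fin.lastCases ?_ (fun j => ?_) j
  · rw [Matrix.det_succ_row _ (Fin.last t), Finset.sum_eq_single i]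
    · rw [Matrix.updateRow_self, Pi.single_eq_same, mul_one]
      have h1 : ((pad M).updateRow (Fin.last t) (Pi.single i 1)).submatrix
          (Fin.last t).succAbove i.succAbove = M.submatrix id i.succAbove := by
        ext a b
        rw [Matrix.submatrix_apply, Fin.succAbove_last, Matrix.updateRow_ne
          (Fin.castSucc_lt_last a).ne, pad_castSucc]
        rfl
      rw [h1]
      have h2 := h i
      unfold mnr at h2
      have h3 : (M.submatrix id i.succAbove).det = 0 := by
        have h4 : ((-1 : R)) ^ (i : ℕ) * (-1) ^ (i : ℕ) = 1 := by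
          rw [← mul_pow]; simp
        calc (M.submatrix id i.succAbove).det = ((-1 : R)) ^ (i : ℕ) * (((-1 : R)) ^ (i : ℕ) *
              (M.submatrix id i.succAbove).det) := by rw [← mul_assoc, h4, one_mul]
          _ = 0 := by rw [h2, mul_zero]
      rw [h3, mul_zero]
    · intro k _ hk
      rw [Matrix.updateRow_self, Pi.single_eq_of_ne hk, mul_zero, zero_mul]
    · intro h; exact absurd (Finset.mem_univ _) h
  · apply Matrix.det_eq_zero_of_row_eq_zero (Fin.last t)
    intro k
    rw [Matrix.updateRow_ne (Fin.castSucc_lt_last j).ne', pad_last]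

/-- the diagonal entries at the zero positions lie in the square of the ideal -/
theorem diag_mem {R : Type*} [CommRing R] {n : ℕ} (ε : R →+* ℂ) (S : Matrix (Fin n) (Fin n) R)
    (hS : S.adjugate = 0) (d : Fin n → ℂ) (hd : S.map ε = Matrix.diagonal d) (p q : Fin n)
    (hpq : p ≠ q) (hq : d q = 0) (h1 : ∀ i, i ≠ p → i ≠ q → d i = 1) :
    S q q ∈ (RingHom.ker ε) ^ 2 := by
  classical
  set M := S.updateRow p (Pi.single p 1) with hM
  have hdet : M.det = 0 := by
    have := congrFun (congrFun hS p) p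
    rw [Matrix.adjugate_apply] at this
    exact this
  set d' : Fin n → ℂ := Function.update d p 1 with hd'
  have hMε : M.map ε = Matrix.diagonal d' := by
    ext i j
    rcases eq_or_ne i p with rfl | hi
    · rw [Matrix.map_apply, hM, Matrix.updateRow_self]
      rcases eq_or_ne i j with rfl | hj
      · rw [Pi.single_eq_same, map_one, Matrix.diagonal_apply_eq, hd', Function.update_self]
      · rw [Pi.single_eq_of_ne hj.symm, map_zero, Matrix.diagonal_apply_ne _ hj]
    · rw [Matrix.map_apply, hM, Matrix.updateRow_ne hi]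
      have h2 := congrFun (congrFun hd i) j
      rw [Matrix.map_apply] at h2
      rw [h2]
      rcases eq_or_ne i j with rfl | hj
      · rw [Matrix.diagonal_apply_eq, Matrix.diagonal_apply_eq, hd', Function.update_of_ne hi]
      · rw [Matrix.diagonal_apply_ne _ hj, Matrix.diagonal_apply_ne _ hj]
  have hadj : ∀ j, ε (M.adjugate j q) = if j = q then 1 else 0 := by
    intro j
    have h2 : ε (M.adjugate j q) = (M.map ε).adjugate j q := by
      have h3 := RingHom.map_adjugate ε M
      have h4 := congrFun (congrFun h3 j) q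
      exact h4
    rw [h2, hMε, Matrix.adjugate_diagonal]
    split_ifs with h
    · subst h
      rw [Matrix.diagonal_apply_eq]
      apply Finset.prod_eq_one
      intro i hi
      rw [Finset.mem_erase] at hi
      rcases eq_or_ne i p with rfl | hip
      · rw [hd', Function.update_self]
      · rw [hd', Function.update_of_ne hip]
        exact h1 i hip hi.1
    · rw [Matrix.diagonal_apply_ne _ h]
  have hrow : ∀ j, M q j ∈ RingHom.ker ε := by
    intro j
    rw [RingHom.mem_ker]
    have h2 := congrFun (congrFun hMε q) j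
    rw [Matrix.map_apply] at h2
    rw [h2]
    rcases eq_or_ne q j with rfl | hj
    · rw [Matrix.diagonal_apply_eq, hd', Function.update_of_ne hpq.symm, hq]
    · rw [Matrix.diagonal_apply_ne _ hj]
  have hsum : ∑ j, M q j * M.adjugate j q = 0 := by
    rw [← Matrix.det_eq_sum_mul_adjugate_row, hdet]
  have hqq : M q q = S q q := by rw [hM, Matrix.updateRow_ne hpq.symm]
  rw [← Finset.add_sum_erase _ _ (Finset.mem_univ q)] at hsum
  have hrest : ∑ j ∈ Finset.univ.erase q, M q j * M.adjugate j q ∈ (RingHom.ker ε) ^ 2 := by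
    refine Ideal.sum_mem _ fun j hj => ?_
    rw [pow_two]
    refine Ideal.mul_mem_mul (hrow j) ?_
    rw [RingHom.mem_ker, hadj, if_neg (Finset.ne_of_mem_erase hj)]
  have hfin : S q q = -(∑ j ∈ Finset.univ.erase q, M q j * M.adjugate j q) -
      M q q * (M.adjugate q q - 1) := by
    rw [← hqq]
    linear_combination hsum
  rw [hfin]
  refine Ideal.sub_mem _ (Ideal.neg_mem_iff _ |>.2 hrest) ?_
  rw [pow_two]
  refine Ideal.mul_mem_mul (hrow q) ?_
  rw [RingHom.mem_ker, map_sub, hadj, if_pos rfl, map_one, sub_self]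


/-- the matrix `Ψ(u, v) - A - s B` -/
noncomputable def NN {R : Type*} [CommRing R] [Algebra ℂ R] (a : Fin t × Fin (t + 1) → ℂ)
    (B : Matrix (Fin t) (Fin (t + 1)) ℤ) (u v s : R) : Matrix (Fin t) (Fin (t + 1)) R :=
  fun i j => Psi t u v i j - algebraMap ℂ R (a (i, j)) - s * (B i j : R)

/-- a bilinear expression in the derivatives -/
noncomputable def Th (B : Matrix (Fin t) (Fin (t + 1)) ℤ)
    (V U : Matrix (Fin (t + 1)) (Fin (t + 1)) ℂ) (k : Fin 3) :
    Matrix (Fin (t + 1)) (Fin (t + 1)) ℂ :=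
  V * (![pad (Psi t 1 0), pad (Psi t 0 1), -pad (B.map (Int.cast : ℤ → ℂ))] k) * U

theorem der_int (D : ℂ →+ ℂ) (hD : ∀ x z, D (x * z) = x * D z + z * D x) (n : ℤ) :
    D (n : ℂ) = 0 := by
  have h1 : D 1 = 0 := by
    have h := hD 1 1
    rw [mul_one, one_mul] at h
    simpa using h
  have h2 : (n : ℂ) = n • (1 : ℂ) := by simp
  rw [h2, map_zsmul, h1, smul_zero]

theorem deriv_identity (a : Fin t × Fin (t + 1) → ℂ) (ha : AlgebraicIndependent ℚ a)
    (B : Matrix (Fin t) (Fin (t + 1)) ℤ) (u v s : ℂ) (V U : Matrix (Fin (t + 1)) (Fin (t + 1)) ℂ)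
    (Y : Matrix (Fin t) (Fin (t + 1)) ℂ) :
    ∃ x : Fin 3 → ℂ, ∀ p q, (∀ k, (V * pad (NN a B u v s)) p k = 0) →
      (∀ i, (pad (NN a B u v s) * U) i q = 0) →
      (V * pad Y * U) p q = ∑ k, x k * Th B V U k p q := by
  obtain ⟨D, hD, hDa⟩ := exists_der a ha (fun ij => Y ij.1 ij.2)
  refine ⟨![D u, D v, D s], fun p q hp hq => ?_⟩
  set S := pad (NN a B u v s) with hS
  have hDS : ∀ i k, D (S i k) = D u * pad (Psi t 1 0) i k + D v * pad (Psi t 0 1) i k -
      pad Y i k - D s * pad (B.map (Int.cast : ℤ → ℂ)) i k := by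
    intro i k
    rw [hS]
    unfold pad
    split_ifs with h
    · rw [NN, map_sub, map_sub, hD, der_int D hD, mul_zero, zero_add]
      have h1 : D (algebraMap ℂ ℂ (a (⟨i, h⟩, k))) = Y ⟨i, h⟩ k := hDa (⟨i, h⟩, k)
      rw [h1]
      have h2 : D (Psi t u v ⟨i, h⟩ k) = D u * Psi t 1 0 ⟨i, h⟩ k + D v * Psi t 0 1 ⟨i, h⟩ k := by
        simp only [Psi, bid, map_sub, apply_ite D, map_zero]
        split_ifs <;> ring
      rw [h2]
      simp only [Matrix.map_apply]
      ring
    · rw [map_zero]; ring
  have h1 : ∀ k, ∑ i, (V p i * D (S i k) + S i k * D (V p i)) = 0 := by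
    intro k
    have h2 := congrArg D (hp k)
    rw [map_zero, Matrix.mul_apply, map_sum] at h2
    rw [← h2]
    exact Finset.sum_congr rfl fun i _ => (hD _ _).symm
  have h3 : ∑ k, (∑ i, (V p i * D (S i k) + S i k * D (V p i))) * U k q = 0 :=
    Finset.sum_eq_zero fun k _ => by rw [h1, zero_mul]
  have h4 : ∑ k, ∑ i, S i k * D (V p i) * U k q = 0 := by
    rw [Finset.sum_comm]
    refine Finset.sum_eq_zero fun i _ => ?_
    have h5 := hq i
    rw [Matrix.mul_apply] at h5
    calc ∑ k, S i k * D (V p i) * U k q = D (V p i) * ∑ k, S i k * U k q := by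
          rw [Finset.mul_sum]
          exact Finset.sum_congr rfl fun k _ => by ring
      _ = 0 := by rw [h5, mul_zero]
  have h6 : ∑ k, ∑ i, V p i * D (S i k) * U k q = 0 := by
    have h7 : ∑ k, (∑ i, (V p i * D (S i k) + S i k * D (V p i))) * U k q =
        ∑ k, ∑ i, V p i * D (S i k) * U k q + ∑ k, ∑ i, S i k * D (V p i) * U k q := by
      rw [← Finset.sum_add_distrib]
      refine Finset.sum_congr rfl fun k _ => ?_
      rw [Finset.sum_mul, ← Finset.sum_add_distrib]
      exact Finset.sum_congr rfl fun i _ => by ring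
    rw [h7, h4, add_zero] at h3
    exact h3
  have h8 : ∀ M : Matrix (Fin (t + 1)) (Fin (t + 1)) ℂ,
      (V * M * U) p q = ∑ k, ∑ i, V p i * M i k * U k q := by
    intro M
    rw [Matrix.mul_apply]
    refine Finset.sum_congr rfl fun k _ => ?_
    rw [Matrix.mul_apply, Finset.sum_mul]
  rw [Fin.sum_univ_three]
  simp only [Th, h8, Matrix.cons_val_zero, Matrix.cons_val_one, Matrix.cons_val_two,
    Matrix.head_cons, Matrix.tail_cons, Matrix.neg_apply, hDS] at h6 ⊢
  apply eq_of_sub_eq_zero
  refine Eq.trans ?_ (neg_eq_zero.2 h6)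
  rw [Finset.mul_sum, Finset.mul_sum, Finset.mul_sum,
    ← Finset.sum_add_distrib, ← Finset.sum_add_distrib, ← Finset.sum_sub_distrib,
    ← Finset.sum_neg_distrib]
  refine Finset.sum_congr rfl fun k _ => ?_
  rw [Finset.mul_sum, Finset.mul_sum, Finset.mul_sum, ← Finset.sum_add_distrib,
    ← Finset.sum_add_distrib, ← Finset.sum_sub_distrib, ← Finset.sum_neg_distrib]
  exact Finset.sum_congr rfl fun i _ => by ring

end Pool.Agent.H931.RC
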