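import Pool.Agent.H931.RC.Grid

/-!
# The coordinate ring of the affine part of the determinantal curve
-/

set_option autoImplicit false

namespace Pool.Agent.H931.RC

open MvPolynomial

variable {t : ℕ}

/-- the bidiagonal integer matrix -/
def B0 (t : ℕ) : Matrix (Fin t) (Fin (t + 1)) ℤ := bid (fun i => (i : ℤ)) (fun i => (i : ℤ))

/-- the matrix `A + s B` over `ℂ[s]` -/
noncomputable def CM (a : Fin t × Fin (t + 1) → ℂ) :
    Matrix (Fin t) (Fin (t + 1)) (Polynomial ℂ) := fun i j =>
  Polynomial.C (a (i, j)) + Polynomial.X * Polynomial.C ((B0 t i j : ℤ) : ℂ)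

/-- the normalised maximal minors -/
noncomputable def ff (a : Fin t × Fin (t + 1) → ℂ) (j : Fin (t + 1)) : RS :=
  (-1) ^ t * mnr (NM (CM a)) j

theorem ff_td (ht : 1 ≤ t) (a : Fin t × Fin (t + 1) → ℂ) (j : Fin (t + 1)) :
    (ff a j - X 0 ^ (t - j : ℕ) * X 1 ^ (j : ℕ)).totalDegree < t := by
  have hsq : ((-1 : RS)) ^ t * (-1) ^ t = 1 := by
    rcases neg_one_pow_eq_or RS t with h | h
    · rw [h, mul_one]
    · rw [h]; ring
  have h1 : (ff a j).totalDegree ≤ t := by
    refine (totalDegree_mul _ _).trans ?_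
    have h2 : ((-1 : RS) ^ t).totalDegree = 0 := by
      rcases neg_one_pow_eq_or RS t with h | h
      · rw [h, totalDegree_one]
      · rw [h, totalDegree_neg, totalDegree_one]
    rw [h2, zero_add]
    exact mnr_td _ _
  have hhom : (X 0 ^ (t - j : ℕ) * X 1 ^ (j : ℕ) : RS).IsHomogeneous t := by
    have h2 := (isHomogeneous_X_pow (R := Polynomial ℂ) (0 : Fin 2) (t - j)).mul
      (isHomogeneous_X_pow (1 : Fin 2) (j : ℕ))
    have h3 : t - (j : ℕ) + j = t := by omega
    rwa [h3] at h2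
  have h4 : homogeneousComponent t (ff a j) = X 0 ^ (t - j : ℕ) * X 1 ^ (j : ℕ) := by
    have h5 : ff a j = MvPolynomial.C ((-1) ^ t) * mnr (NM (CM a)) j := by
      rw [ff, map_pow, map_neg, map_one]
    rw [h5, homogeneousComponent_C_mul, mnr_hc, map_pow, map_neg, map_one, ← mul_assoc, hsq, one_mul]
  have h6 : (ff a j - X 0 ^ (t - j : ℕ) * X 1 ^ (j : ℕ)).totalDegree ≤ t - 1 := by
    rw [td_le_iff]
    intro N hN
    rw [map_sub]
    rcases Nat.lt_or_ge t N with h7 | h7
    · rw [homogeneousComponent_eq_zero N _ (by omega), homogeneousComponent_eq_zero N _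
        (lt_of_le_of_lt hhom.totalDegree_le h7), sub_zero]
    · have h8 : N = t := by omega
      rw [h8, h4, homogeneousComponent_eq_self hhom, sub_self]
  omega

theorem W_prod {ι : Type*} (s : Finset ι) (f : ι → RS) (h : ∀ i ∈ s, W 1 (f i)) :
    W s.card (∏ i ∈ s, f i) := by
  classical
  induction s using Finset.induction_on with
  | empty => rw [Finset.prod_empty, Finset.card_empty]; exact W.one
  | insert a s ha ih =>
    rw [Finset.prod_insert ha, Finset.card_insert_of_notMem ha]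
    have h1 := (h a (Finset.mem_insert_self a s)).mul
      (ih fun i hi => h i (Finset.mem_insert_of_mem hi))
    rw [add_comm] at h1
    push_cast
    exact h1

theorem W_det {n : ℕ} (M : Matrix (Fin n) (Fin n) RS) (h : ∀ i j, W 1 (M i j)) : W n M.det := by
  rw [Matrix.det_apply]
  refine W.sum _ fun σ _ => ?_
  have h1 := W_prod Finset.univ (fun i => M (σ i) i) (fun i _ => h _ _)
  rw [Finset.card_univ, Fintype.card_fin] at h1
  rcases Int.units_eq_one_or (Equiv.Perm.sign σ) with h2 | h2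
  · rw [h2, one_smul]; exact h1
  · rw [h2, Units.neg_smul, one_smul]; exact h1.neg

theorem ff_W (a : Fin t × Fin (t + 1) → ℂ) (j : Fin (t + 1)) : W t (ff a j) := by
  have hNM : ∀ i j, W 1 (NM (CM a) i j) := by
    intro i j
    rw [NM, Matrix.sub_apply, Matrix.map_apply]
    refine W.sub ?_ (W.C ?_)
    · simp only [Psi, bid]
      refine W.sub ?_ ?_
      · split_ifs
        · exact W.X 1
        · exact W.zero 1
      · split_ifs
        · exact W.X 0
        · exact W.zero 1
    · have h1 : (CM a i j).natDegree ≤ 1 := by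
        refine Polynomial.natDegree_add_le_of_degree_le ?_ ?_
        · rw [Polynomial.natDegree_C]; omega
        · refine Polynomial.natDegree_mul_le.trans ?_
          rw [Polynomial.natDegree_C, Polynomial.natDegree_X]
      exact_mod_cast h1
  have h1 : W t ((NM (CM a)).submatrix id j.succAbove).det := W_det _ fun i k => hNM _ _
  have h2 : ff a j = ((NM (CM a)).submatrix id j.succAbove).det ∨
      ff a j = -((NM (CM a)).submatrix id j.succAbove).det := by
    rw [ff, mnr, ← mul_assoc, ← pow_add]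
    rcases neg_one_pow_eq_or RS (t + j) with h | h
    · left; rw [h, one_mul]
    · right; rw [h, neg_one_mul]
  rcases h2 with h2 | h2
  · rw [h2]; exact h1
  · rw [h2]; exact h1.neg

theorem grid_minor {x y : ℕ} (hx : x < t) (hy : y ≤ x) (j : Fin (t + 1)) :
    mnr (Psi t (x : ℂ) (y : ℂ) - (B0 t).map (Int.cast : ℤ → ℂ)) j = 0 := by
  have h1 : Psi t (x : ℂ) (y : ℂ) - (B0 t).map (Int.cast : ℤ → ℂ) =
      bid (fun i => (y : ℂ) - (i : ℕ)) (fun i => (x : ℂ) - (i : ℕ)) := by
    ext i k
    simp only [Psi, B0, bid, Matrix.sub_apply, Matrix.map_apply]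
    split_ifs <;> simp <;> ring
  rw [h1, mnr, det_bid]
  have h2 : ∏ b : Fin t, (if (b : ℕ) < j then (y : ℂ) - (b : ℕ) else -((x : ℂ) - (b : ℕ))) = 0 := by
    rw [Finset.prod_eq_zero_iff]
    rcases Nat.lt_or_ge y j with h3 | h3
    · exact ⟨⟨y, by omega⟩, Finset.mem_univ _, by rw [if_pos h3, sub_self]⟩
    · refine ⟨⟨x, hx⟩, Finset.mem_univ _, ?_⟩
      rw [if_neg (by simp only; omega), sub_self, neg_zero]
  rw [h2, mul_zero]

theorem ff_line (a : Fin t × Fin (t + 1) → ℂ) {x y : ℕ} (hx : x < t) (hy : y ≤ x)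
    (j : Fin (t + 1)) : (line (x : ℂ) (y : ℂ) (ff a j)).coeff t = 0 := by
  have h1 : (NM (CM a)).map (line (x : ℂ) (y : ℂ)) = (Polynomial.X : Polynomial ℂ) •
      (Psi t (x : ℂ) (y : ℂ) - (B0 t).map (Int.cast : ℤ → ℂ)).map Polynomial.C +
        (Matrix.of fun i k => -a (i, k)).map Polynomial.C := by
    ext1 i k
    simp only [Matrix.map_apply, NM, Matrix.sub_apply, Matrix.add_apply, Matrix.smul_apply,
      Matrix.of_apply, smul_eq_mul, map_sub, map_neg, line_C, CM, Psi, bid,
      apply_ite (line (x : ℂ) (y : ℂ)), apply_ite Polynomial.C, map_zero, line_X]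
    simp only [if_true, Fin.one_eq_zero_iff, OfNat.ofNat_ne_one, if_false, one_ne_zero]
    split_ifs <;> ring
  rw [ff, map_mul, map_pow, map_neg, map_one, map_mnr, h1]
  have h2 := (mnr_X_add_C (Psi t (x : ℂ) (y : ℂ) - (B0 t).map (Int.cast : ℤ → ℂ))
    (Matrix.of fun i k => -a (i, k)) j).2
  have h3 : ((-1 : Polynomial ℂ)) ^ t = Polynomial.C ((-1) ^ t) := by
    rw [map_pow, map_neg, map_one]
  rw [h3, Polynomial.coeff_C_mul, h2, grid_minor hx hy, mul_zero]

/-- the ideal of the affine curve -/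
noncomputable def II (a : Fin t × Fin (t + 1) → ℂ) : Ideal RS := Ideal.span (Set.range (ff a))

theorem ff_mem (a : Fin t × Fin (t + 1) → ℂ) (j : Fin (t + 1)) : ff a j ∈ II a :=
  Ideal.subset_span ⟨j, rfl⟩

/-- the reduced polynomials are independent modulo the ideal -/
theorem II_reduced (a : Fin t × Fin (t + 1) → ℂ) {P : RS} (hP : P ∈ II a)
    (ht : P.totalDegree < t) : P = 0 := by
  classical
  rw [II, Ideal.mem_span_range_iff_exists_fun] at hP
  obtain ⟨c, hc⟩ := hP
  have h1 : P = ∑ j, (c j * (-1) ^ t) * mnr (NM (CM a)) j := by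
    rw [← hc]
    exact Finset.sum_congr rfl fun j _ => by rw [ff, mul_assoc]
  rw [h1]
  refine indep (CM a) (Finset.univ.sup fun j => (c j * (-1) ^ t).totalDegree) _ (fun j => ?_)
    (by rw [← h1]; exact ht)
  exact Finset.le_sup (f := fun j => (c j * (-1) ^ t).totalDegree) (Finset.mem_univ j)

theorem II_spanning (ht : 1 ≤ t) (a : Fin t × Fin (t + 1) → ℂ) {n : ℤ} {P : RS} (hP : W n P) :
    ∃ (c : Fin (t + 1) → RS) (P' : RS), (∀ j, W (n - t) (c j)) ∧ W n P' ∧ P'.totalDegree < t ∧
      P = ∑ j, c j * ff a j + P' :=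
  spanning ht (ff a) (ff_td ht a) (ff_W a) hP

/-- leading forms of elements of the ideal vanish on the grid -/
theorem II_line (ht : 1 ≤ t) (a : Fin t × Fin (t + 1) → ℂ) {n : ℕ} {P : RS} (hP : W n P)
    (hI : P ∈ II a) {x y : ℕ} (hx : x < t) (hy : y ≤ x) :
    (line (x : ℂ) (y : ℂ) P).coeff n = 0 := by
  obtain ⟨c, P', h1, h2, h3, h4⟩ := II_spanning ht a hP
  have hsum : ∑ j, c j * ff a j ∈ II a :=
    Ideal.sum_mem _ fun j _ => Ideal.mul_mem_left _ _ (ff_mem a j)
  have h5 : P' = 0 := by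
    refine II_reduced a ?_ h3
    have h6 : P' = P - ∑ j, c j * ff a j := by rw [h4]; ring
    rw [h6]
    exact Ideal.sub_mem _ hI hsum
  rw [h4, h5, add_zero, map_sum, Polynomial.finsetSum_coeff]
  refine Finset.sum_eq_zero fun j _ => ?_
  rcases Nat.lt_or_ge n t with h6 | h6
  · have h7 : c j = 0 := by
      ext m b
      rw [h1 j m b (by omega), coeff_zero, Polynomial.coeff_zero]
    rw [h7, zero_mul, map_zero, Polynomial.coeff_zero]
  · obtain ⟨n', rfl⟩ : ∃ n', n = n' + t := ⟨n - t, by omega⟩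
    have h7 : W n' (c j) := (h1 j).mono (by push_cast; omega)
    rw [map_mul, Polynomial.coeff_mul_add_eq_of_natDegree_le (line_natDegree h7)
      (line_natDegree (ff_W a j)), ff_line a hx hy, mul_zero]

end Pool.Agent.H931.RC
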